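import Pool.Agent.DV.Var

/-!
# MP_74f563_an, n = 2 autonomous (D2), file DV/Cor: the corner gain (V5) (any n)
-/

set_option autoImplicit false

namespace Pool.Agent.DV

open Set Filter Topology MeasureTheory Pool.Agent.MechAlpha Pool.Agent.DF Pool.Agent.LRig
open scoped ContDiff RealInnerProductSpace

variable {n : ℕ} {ℓ : Vec n × Vec n → ℝ}

theorem vcv_shift0 {z u : ℝ → Vec n} {a b : ℝ} (hz : VCv z u a b) (r : ℝ) :
    VCv (fun t => z (t - r)) (fun t => u (t - r)) (a + r) (b + r) := by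
  have h := hz.shift r 0
  simpa using h

private theorem rho_exists {A B : ℝ} (hA : 0 ≤ A) (hB : 0 ≤ B) :
    ∃ ρ : ℝ, 0 < ρ ∧ A * ρ ≤ 1 / 2 ∧ B * ρ ≤ 1 := by
  refine ⟨1 / (2 * (A + B + 1)), by positivity, ?_, ?_⟩
  · rw [mul_one_div, div_le_div_iff₀ (by positivity) (by positivity)]
    linarith
  · rw [mul_one_div, div_le_iff₀ (by positivity)]
    linarith

/-- Corner gain: at a corner of a broken solution the action can be decreased, with fixed end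
points and fixed duration. -/
theorem corner (hl : Lag ℓ) (hp : Pr ℓ) {τ : ℝ} (hτ : 0 < τ) (R : ℝ) : ∃ κ : ℝ, 0 < κ ∧
    ∀ X W X' W' : ℝ → Vec n, Sol ℓ X W → Sol ℓ X' W' → ∀ s t : ℝ, τ ≤ s → τ ≤ t →
    en ℓ (X 0, W 0) ≤ R → en ℓ (X' 0, W' 0) ≤ R → X' 0 = X t →
    ∃ z u : ℝ → Vec n, VCv z u 0 (t + s) ∧ z 0 = X 0 ∧ z (t + s) = X' s ∧
      act ℓ z u 0 (t + s) ≤ act ℓ X W 0 t + act ℓ X' W' 0 s - κ * ‖W t - W' 0‖ ^ 2 := by
  obtain ⟨M, hM, hen⟩ := en_bdd hl hp R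
  obtain ⟨C, hC, hfv⟩ := first_var hl hp M
  obtain ⟨κ₀, hκ₀, hsep⟩ := sep_unif hl hp M
  obtain ⟨Q, hQ, hpm⟩ := (hp.pm).bdd hl.pm_smooth.continuous M
  let q : ℝ := max 1 (1 / τ)
  have hq1 : 1 ≤ q := le_max_left _ _
  have hq2 : 1 / τ ≤ q := le_max_right _ _
  have hq0 : 0 < q := one_pos.trans_le hq1
  obtain ⟨ρ, hρ, hρ1, hρ2⟩ := rho_exists (A := 2 * C * τ * q ^ 2) (B := q * (2 * Q))
    (by positivity) (by positivity)
  refine ⟨ρ / 2 * κ₀ ^ 2, by positivity, ?_⟩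
  intro X W X' W' hS hS' s t hs ht hE hE' hX
  have hcl := hl.sm.continuous
  -- bounded velocities
  have hW : ∀ r, ‖W r‖ ≤ M := fun r => hen (X r) (W r) ((hS.en_const hl r 0).trans_le hE)
  have hW' : ∀ r, ‖W' r‖ ≤ M := fun r => hen (X' r) (W' r) ((hS'.en_const hl r 0).trans_le hE')
  let g : Vec n := pm ℓ (X t, W t) - pm ℓ (X' 0, W' 0)
  have hgQ : ‖g‖ ≤ 2 * Q := by
    calc ‖g‖ ≤ ‖pm ℓ (X t, W t)‖ + ‖pm ℓ (X' 0, W' 0)‖ := norm_sub_le _ _
      _ ≤ Q + Q := add_le_add (hpm _ _ (hW t)) (hpm _ _ (hW' 0))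
      _ = 2 * Q := by ring
  have hgW : κ₀ * ‖W t - W' 0‖ ≤ ‖g‖ := by
    have h1 := hsep (X t) (W t) (W' 0) (hW t) (hW' 0)
    have e : g = pm ℓ (X t, W t) - pm ℓ (X t, W' 0) := by
      change pm ℓ (X t, W t) - pm ℓ (X' 0, W' 0) = _
      rw [hX]
    rw [e]
    exact h1
  let h : Vec n := -(ρ • g)
  have hh : ‖h‖ = ρ * ‖g‖ := by
    change ‖-(ρ • g)‖ = _
    rw [norm_neg, norm_smul, Real.norm_of_nonneg hρ.le]
  let δ : ℝ := q * ‖h‖
  have hδ1 : δ ≤ 1 := by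
    change q * ‖h‖ ≤ 1
    rw [hh]
    calc q * (ρ * ‖g‖) ≤ q * (ρ * (2 * Q)) := by gcongr
      _ = q * (2 * Q) * ρ := by ring
      _ ≤ 1 := hρ2
  have hδh : ‖h‖ ≤ δ := by
    have := mul_le_mul_of_nonneg_right hq1 (norm_nonneg h)
    rwa [one_mul] at this
  have hδs : 1 / τ * ‖h‖ ≤ δ := mul_le_mul_of_nonneg_right hq2 (norm_nonneg h)
  -- the two variations
  let lam₁ : ℝ → Vec n := fun r => ((r - (t - τ)) / τ) • h
  let mu₁ : ℝ → Vec n := fun _ => (1 / τ) • h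
  let lam₂ : ℝ → Vec n := fun r => ((τ - r) / τ) • h
  let mu₂ : ℝ → Vec n := fun _ => (-(1 / τ)) • h
  have hd₁ : ∀ r, HasDerivAt lam₁ (mu₁ r) r := by
    intro r
    have h1 : HasDerivAt (fun r : ℝ => (r - (t - τ)) / τ) (1 / τ) r :=
      ((hasDerivAt_id r).sub_const (t - τ)).div_const τ
    exact h1.smul_const h
  have hd₂ : ∀ r, HasDerivAt lam₂ (mu₂ r) r := by
    intro r
    have h1 : HasDerivAt (fun r : ℝ => (τ - r) / τ) (-1 / τ) r :=
      ((hasDerivAt_id r).const_sub τ).div_const τ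
    have h2 := h1.smul_const h
    rw [neg_div] at h2
    exact h2
  have hc₁ : Continuous mu₁ := continuous_const
  have hc₂ : Continuous mu₂ := continuous_const
  have hb₁ : ∀ r ∈ Icc (t - τ) t, ‖lam₁ r‖ ≤ δ ∧ ‖mu₁ r‖ ≤ δ := by
    intro r hr
    constructor
    · change ‖((r - (t - τ)) / τ) • h‖ ≤ δ
      rw [norm_smul, Real.norm_eq_abs, abs_of_nonneg (div_nonneg (by linarith [hr.1]) hτ.le)]
      refine le_trans ?_ hδh
      have h1 : (r - (t - τ)) / τ ≤ 1 := by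
        rw [div_le_one hτ]
        linarith [hr.2]
      calc (r - (t - τ)) / τ * ‖h‖ ≤ 1 * ‖h‖ := mul_le_mul_of_nonneg_right h1 (norm_nonneg _)
        _ = ‖h‖ := one_mul _
    · change ‖(1 / τ) • h‖ ≤ δ
      rw [norm_smul, Real.norm_eq_abs, abs_of_nonneg (by positivity)]
      exact hδs
  have hb₂ : ∀ r ∈ Icc 0 τ, ‖lam₂ r‖ ≤ δ ∧ ‖mu₂ r‖ ≤ δ := by
    intro r hr
    constructor
    · change ‖((τ - r) / τ) • h‖ ≤ δ
      rw [norm_smul, Real.norm_eq_abs, abs_of_nonneg (div_nonneg (by linarith [hr.2]) hτ.le)]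
      refine le_trans ?_ hδh
      have h1 : (τ - r) / τ ≤ 1 := by
        rw [div_le_one hτ]
        linarith [hr.1]
      calc (τ - r) / τ * ‖h‖ ≤ 1 * ‖h‖ := mul_le_mul_of_nonneg_right h1 (norm_nonneg _)
        _ = ‖h‖ := one_mul _
    · change ‖(-(1 / τ)) • h‖ ≤ δ
      rw [norm_smul, norm_neg, Real.norm_eq_abs, abs_of_nonneg (by positivity)]
      exact hδs
  have v₁ := hfv X W hS (t - τ) t (by linarith) (fun r _ => hW r) lam₁ mu₁ δ hc₁ hd₁ hδ1 hb₁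
  have v₂ := hfv X' W' hS' 0 τ hτ.le (fun r _ => hW' r) lam₂ mu₂ δ hc₂ hd₂ hδ1 hb₂
  have e1 : lam₁ t = h := by
    change ((t - (t - τ)) / τ) • h = h
    rw [sub_sub_cancel, div_self hτ.ne', one_smul]
  have e2 : lam₁ (t - τ) = 0 := by
    change ((t - τ - (t - τ)) / τ) • h = 0
    rw [sub_self, zero_div, zero_smul]
  have e3 : lam₂ 0 = h := by
    change ((τ - 0) / τ) • h = h
    rw [sub_zero, div_self hτ.ne', one_smul]
  have e4 : lam₂ τ = 0 := by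
    change ((τ - τ) / τ) • h = 0
    rw [sub_self, zero_div, zero_smul]
  rw [e1, e2, inner_zero_right, sub_zero, sub_sub_cancel] at v₁
  rw [e3, e4, inner_zero_right, zero_sub, sub_zero] at v₂
  have u₁ := (abs_le.1 v₁).2
  have u₂ := (abs_le.1 v₂).2
  -- the curves
  have k1 : VCv X W 0 (t - τ) := hS.vcv hl (by linarith)
  have k2 : VCv (fun r => X r + lam₁ r) (fun r => W r + mu₁ r) (t - τ) t :=
    var_vcv hl hS hc₁ hd₁ (by linarith)
  have j12 : X (t - τ) = X (t - τ) + lam₁ (t - τ) := by rw [e2, add_zero]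
  have k3 : VCv (fun r => X' r + lam₂ r) (fun r => W' r + mu₂ r) 0 τ := var_vcv hl hS' hc₂ hd₂ hτ.le
  have k4 : VCv X' W' τ s := hS'.vcv hl hs
  have j34 : X' τ + lam₂ τ = X' τ := by rw [e4, add_zero]
  have g1 := k1.glue k2 j12
  have g2 := k3.glue k4 j34
  have a1 := act_glue hcl k1 k2 j12
  have a2 := act_glue hcl k3 k4 j34
  have g2' := vcv_shift0 g2 t
  have a2' := act_shift0 ℓ (fun r => if r ≤ τ then X' r + lam₂ r else X' r)
    (fun r => if r ≤ τ then W' r + mu₂ r else W' r) 0 s t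
  rw [zero_add, add_comm s t] at g2' a2'
  have jj : (if t ≤ t - τ then X t else X t + lam₁ t) =
      (if t - t ≤ τ then X' (t - t) + lam₂ (t - t) else X' (t - t)) := by
    rw [if_neg (by linarith), sub_self, if_pos hτ.le, e1, e3, hX]
  have G := g1.glue g2' jj
  have A := act_glue hcl g1 g2' jj
  refine ⟨_, _, G, ?_, ?_, ?_⟩
  · have h0 : (0 : ℝ) ≤ t := by linarith
    have h1 : (0 : ℝ) ≤ t - τ := by linarith
    change (if (0 : ℝ) ≤ t then (if (0 : ℝ) ≤ t - τ then X 0 else X 0 + lam₁ 0) else _) = X 0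
    rw [if_pos h0, if_pos h1]
  · have h0 : ¬ t + s ≤ t := by linarith
    change (if t + s ≤ t then _ else (if t + s - t ≤ τ then X' (t + s - t) + lam₂ (t + s - t)
      else X' (t + s - t))) = X' s
    rw [if_neg h0, add_sub_cancel_left]
    rcases hs.eq_or_lt with h1 | h1
    · rw [if_pos h1.symm.le, ← h1, e4, add_zero]
    · rw [if_neg (not_le.2 h1)]
  · rw [A, a1, a2', a2]
    have b1 := act_add hcl (hS.vcv hl (show (0 : ℝ) ≤ t by linarith)) (show (0 : ℝ) ≤ t - τ by linarith)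
      (show t - τ ≤ t by linarith)
    have b2 := act_add hcl (hS'.vcv hl (show (0 : ℝ) ≤ s by linarith)) hτ.le hs
    have c1 : ⟪pm ℓ (X t, W t), h⟫ - ⟪pm ℓ (X' 0, W' 0), h⟫ = -(ρ * ‖g‖ ^ 2) := by
      rw [← inner_sub_left]
      change ⟪g, -(ρ • g)⟫ = _
      rw [inner_neg_right, inner_smul_right, real_inner_self_eq_norm_sq]
    have c2 : δ ^ 2 = q ^ 2 * ρ ^ 2 * ‖g‖ ^ 2 := by
      change (q * ‖h‖) ^ 2 = _
      rw [hh]
      ring
    have c3 : C * δ ^ 2 * τ + C * δ ^ 2 * τ ≤ ρ / 2 * ‖g‖ ^ 2 := by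
      rw [c2]
      calc C * (q ^ 2 * ρ ^ 2 * ‖g‖ ^ 2) * τ + C * (q ^ 2 * ρ ^ 2 * ‖g‖ ^ 2) * τ =
            (2 * C * τ * q ^ 2 * ρ) * (ρ * ‖g‖ ^ 2) := by ring
        _ ≤ 1 / 2 * (ρ * ‖g‖ ^ 2) := mul_le_mul_of_nonneg_right hρ1 (by positivity)
        _ = _ := by ring
    have c4 : (κ₀ * ‖W t - W' 0‖) ^ 2 ≤ ‖g‖ ^ 2 := pow_le_pow_left₀ (by positivity) hgW 2
    have c5 : ρ / 2 * κ₀ ^ 2 * ‖W t - W' 0‖ ^ 2 ≤ ρ / 2 * ‖g‖ ^ 2 := by
      calc _ = ρ / 2 * (κ₀ * ‖W t - W' 0‖) ^ 2 := by ring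
        _ ≤ _ := mul_le_mul_of_nonneg_left c4 (by positivity)
    linarith

end Pool.Agent.DV
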