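import Pool.Agent.DV.Low

/-!
# MP_74f563_an (D2), block V, file DV/Arc: short solutions are minimal

PROOF of `var_zero` (first variation for general curves).  `e t = z t - X t` is continuous on
`[a,b]`,
has the derivative `w t = u t - W t` off a countable set, so `t ↦ ⟪pm ℓ (X t, W t), e t⟫` has the
derivative `⟪gx ℓ (X t, W t), e t⟫ + ⟪pm ℓ (X t, W t), w t⟫` off that set (`Sol.dp`,
`HasDerivAt.inner`);
`MeasureTheory.integral_eq_of_hasDerivAt_off_countable_of_le` (the integrand is bounded and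
measurable on `[a,b]`, compare `VCv.integrable`, `act_int`, and `LRig/VM.first_var`); the end values
are `0`.

PROOF of `jen`.  `h s = s²/(1+s) ≥ 2 α s - α² (1+s)` for all `s ≥ 0`, `α` real
(`(s - α(1+s))² ≥ 0`).
Integrate with `s = g t`, `α = I/(T+I)`, `I = ∫ g`, `T = b - a` : `∫ h(g) ≥ 2 α I - α² (T + I) =
I²/(T+I) ≥ I²/(1+I)` as `T ≤ 1`.  (`T + I > 0`; if `I = 0` trivial.)

PROOF of `arc_min`.  `κ, C` from `low_bound hl hp R`; `τ = min 1 (κ/(C+1))`.  With `e`, `w` as above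
and `H s = s²/(1+s)`: integrate `low_bound` at `(X t, W t)`, `e t`, `w t`:
`act z u - act X W - 0 ≥ κ ∫ H(‖w‖) - C ∫ H(‖e‖)` (`var_zero`).  `I = ∫ ‖w‖` (`w` is bounded and
measurable), `‖e t‖ = ‖∫_a^t w‖ ≤ I` (`VCv.ftc` for the restriction of `z` and of `X`), `H` is monotone
on `[0,∞)`: `∫ H(‖e‖) ≤ (b-a) H(I)`, and `jen` : `∫ H(‖w‖) ≥ H(I)`.  So the difference is
`≥ (κ - C (b - a)) H(I) ≥ 0`.
-/

set_option autoImplicit false

namespace Pool.Agent.DV

open Set Filter Topology MeasureTheory Pool.Agent.MechAlpha Pool.Agent.DF Pool.Agent.LRig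
open scoped ContDiff RealInnerProductSpace

variable {n : ℕ} {ℓ : Vec n × Vec n → ℝ}

private theorem arc_sub (hl : Lag ℓ) {X W z u : ℝ → Vec n} {a b : ℝ} (hS : Sol ℓ X W)
    (hz : VCv z u a b) : VCv (fun t => z t - X t) (fun t => u t - W t) a b := by
  obtain ⟨N, hN, hd⟩ := hz.der
  obtain ⟨M, hM⟩ := hz.bdd
  obtain ⟨M', hM'⟩ := (hS.vcv hl hz.le).bdd
  refine ⟨hz.le, hz.cont.sub hS.cx.continuousOn, ⟨N, hN, fun t ht hn => ?_⟩,
    hz.meas.sub (hS.cw hl).measurable, ⟨M + M', fun t ht => ?_⟩⟩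
  · exact (hd t ht hn).sub (hS.dx t)
  · exact (norm_sub_le _ _).trans (add_le_add (hM t ht) (hM' t ht))

private theorem arc_tcv {z u : ℝ → Vec n} {a b : ℝ} (h : VCv z u a b) : TCv 0 z u a b := by
  unfold TCv
  simpa using h

theorem var_zero (hl : Lag ℓ) {X W z u : ℝ → Vec n} {a b : ℝ} (hS : Sol ℓ X W) (hz : VCv z u a b)
    (ha : z a = X a) (hb : z b = X b) :
    IntervalIntegrable (fun t => ⟪gx ℓ (X t, W t), z t - X t⟫ + ⟪pm ℓ (X t, W t), u t - W t⟫)
      volume a b ∧
    ∫ t in a..b, (⟪gx ℓ (X t, W t), z t - X t⟫ + ⟪pm ℓ (X t, W t), u t - W t⟫) = 0 := by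
  have he := arc_sub hl hS hz
  have hgc : Continuous fun t => gx ℓ (X t, W t) :=
    (gx_smooth hl).continuous.comp (hS.cx.prodMk (hS.cw hl))
  have hpc := hS.cp
  have hi : IntervalIntegrable
      (fun t => ⟪gx ℓ (X t, W t), z t - X t⟫ + ⟪pm ℓ (X t, W t), u t - W t⟫) volume a b := by
    refine integrable_cost
      (E := fun x v t => ⟪gx ℓ (X t, W t), x⟫ + ⟪pm ℓ (X t, W t), v⟫) ?_ (arc_tcv he)
    have c1 : Continuous fun q : Vec n × Vec n × ℝ => gx ℓ (X q.2.2, W q.2.2) :=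
      hgc.comp (continuous_snd.comp continuous_snd)
    have c2 : Continuous fun q : Vec n × Vec n × ℝ => pm ℓ (X q.2.2, W q.2.2) :=
      hpc.comp (continuous_snd.comp continuous_snd)
    exact (c1.inner continuous_fst).add (c2.inner (continuous_fst.comp continuous_snd))
  refine ⟨hi, ?_⟩
  obtain ⟨N, hN, hd⟩ := he.der
  have h1 := integral_eq_of_hasDerivAt_off_countable_of_le
    (fun t => ⟪pm ℓ (X t, W t), z t - X t⟫)
    (fun t => ⟪gx ℓ (X t, W t), z t - X t⟫ + ⟪pm ℓ (X t, W t), u t - W t⟫) hz.le hN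
    (hpc.continuousOn.inner he.cont) (fun t ht => by
      have h3 := (hS.dp t).inner ℝ (hd t ht.1 ht.2)
      rw [add_comm] at h3
      exact h3) hi
  rw [h1, ha, hb, sub_self, sub_self, inner_zero_right, inner_zero_right, sub_zero]

private theorem arc_pt {s α : ℝ} (hs : 0 ≤ s) :
    2 * α * s - α ^ 2 * (1 + s) ≤ s ^ 2 / (1 + s) := by
  have h1 : 0 < 1 + s := by linarith
  rw [le_div_iff₀ h1]
  nlinarith [sq_nonneg (s - α * (1 + s))]

theorem jen {g : ℝ → ℝ} {a b : ℝ} (hab : a ≤ b) (h1 : b - a ≤ 1)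
    (hg : IntervalIntegrable g volume a b) (h0 : ∀ t, 0 ≤ g t)
    (hh : IntervalIntegrable (fun t => g t ^ 2 / (1 + g t)) volume a b) :
    (∫ t in a..b, g t) ^ 2 / (1 + ∫ t in a..b, g t) ≤ ∫ t in a..b, g t ^ 2 / (1 + g t) := by
  have hI0 : 0 ≤ ∫ t in a..b, g t := intervalIntegral.integral_nonneg hab fun t _ => h0 t
  set I : ℝ := ∫ t in a..b, g t with hI
  rcases hI0.eq_or_lt with h2 | h2
  · rw [← h2]
    have h3 : 0 ≤ ∫ t in a..b, g t ^ 2 / (1 + g t) :=
      intervalIntegral.integral_nonneg hab fun t _ => by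
        have := h0 t
        positivity
    simpa using h3
  · have hT : 0 ≤ b - a := by linarith
    have hTI : 0 < b - a + I := by linarith
    set α : ℝ := I / (b - a + I) with hα
    have hi1 : IntervalIntegrable (fun t => 2 * α * g t) volume a b := hg.const_mul _
    have hi2 : IntervalIntegrable (fun t => α ^ 2 * (1 + g t)) volume a b :=
      (intervalIntegrable_const.add hg).const_mul _
    have h4 : ∫ t in a..b, (2 * α * g t - α ^ 2 * (1 + g t)) ≤
        ∫ t in a..b, g t ^ 2 / (1 + g t) :=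
      intervalIntegral.integral_mono_on hab (hi1.sub hi2) hh fun t _ => arc_pt (h0 t)
    have h5 : ∫ t in a..b, (2 * α * g t - α ^ 2 * (1 + g t)) =
        2 * α * I - α ^ 2 * (b - a + I) := by
      rw [intervalIntegral.integral_sub hi1 hi2, intervalIntegral.integral_const_mul,
        intervalIntegral.integral_const_mul,
        intervalIntegral.integral_add intervalIntegrable_const hg,
        intervalIntegral.integral_const, smul_eq_mul, mul_one]
    have h6 : 2 * α * I - α ^ 2 * (b - a + I) = I ^ 2 / (b - a + I) := by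
      rw [hα]
      field_simp
      ring
    rw [h5, h6] at h4
    refine le_trans ?_ h4
    exact div_le_div_of_nonneg_left (sq_nonneg I) hTI (by linarith)

private theorem arc_H_nonneg {s : ℝ} (hs : 0 ≤ s) : 0 ≤ s ^ 2 / (1 + s) := by positivity

private theorem arc_H_mono {s t : ℝ} (hs : 0 ≤ s) (hst : s ≤ t) :
    s ^ 2 / (1 + s) ≤ t ^ 2 / (1 + t) := by
  have ht : 0 ≤ t := hs.trans hst
  rw [div_le_div_iff₀ (by linarith) (by linarith)]
  nlinarith [mul_nonneg hs ht, mul_nonneg (mul_nonneg hs ht) (sub_nonneg.2 hst),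
    mul_nonneg (sub_nonneg.2 hst) (add_nonneg hs ht)]

theorem arc_min (hl : Lag ℓ) (hp : Pr ℓ) (R : ℝ) : ∃ τ : ℝ, 0 < τ ∧ ∀ (X W z u : ℝ → Vec n)
    (a b : ℝ), Sol ℓ X W → VCv z u a b → b - a ≤ τ → (∀ t ∈ Icc a b, ‖W t‖ ≤ R) → z a = X a →
    z b = X b → act ℓ X W a b ≤ act ℓ z u a b := by
  obtain ⟨κ, C, hκ, hC, hlow⟩ := low_bound hl hp R
  refine ⟨min 1 (κ / (C + 1)), lt_min one_pos (by positivity), ?_⟩
  intro X W z u a b hS hz hτ hR ha hb
  have hab := hz.le
  have h1 : b - a ≤ 1 := hτ.trans (min_le_left _ _)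
  have h2 : b - a ≤ κ / (C + 1) := hτ.trans (min_le_right _ _)
  have he := arc_sub hl hS hz
  obtain ⟨hvi, hv⟩ := var_zero hl hS hz ha hb
  have hc : Continuous ℓ := hl.sm.continuous
  have hz' := act_int hc hz
  have hX' := act_int hc (hS.vcv hl hab)
  have hw : IntervalIntegrable (fun t => ‖u t - W t‖) volume a b := he.integrable.norm
  have hHw : IntervalIntegrable (fun t => ‖u t - W t‖ ^ 2 / (1 + ‖u t - W t‖)) volume a b := by
    refine integrable_cost (E := fun _ v _ => ‖v‖ ^ 2 / (1 + ‖v‖)) ?_ (arc_tcv he)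
    have c1 : Continuous fun q : Vec n × Vec n × ℝ => ‖q.2.1‖ := by fun_prop
    refine (c1.pow 2).div (continuous_const.add c1) fun q => ?_
    have := norm_nonneg q.2.1
    positivity
  have hHe : IntervalIntegrable (fun t => ‖z t - X t‖ ^ 2 / (1 + ‖z t - X t‖)) volume a b := by
    refine integrable_cost (E := fun x _ _ => ‖x‖ ^ 2 / (1 + ‖x‖)) ?_ (arc_tcv he)
    have c1 : Continuous fun q : Vec n × Vec n × ℝ => ‖q.1‖ := by fun_prop
    refine (c1.pow 2).div (continuous_const.add c1) fun q => ?_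
    have := norm_nonneg q.1
    positivity
  set I : ℝ := ∫ t in a..b, ‖u t - W t‖ with hI
  have hI0 : 0 ≤ I := intervalIntegral.integral_nonneg hab fun t _ => norm_nonneg _
  have hJ := jen hab h1 hw (fun t => norm_nonneg _) hHw
  rw [← hI] at hJ
  have heI : ∀ t ∈ Icc a b, ‖z t - X t‖ ≤ I := by
    intro t ht
    have h3 := (he.restrict le_rfl ht.1 ht.2).ftc
    have h4 : z t - X t = ∫ s in a..t, (u s - W s) := by
      rw [h3, ha, sub_self, sub_zero]
    rw [h4]
    refine (intervalIntegral.norm_integral_le_integral_norm ht.1).trans ?_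
    rw [hI]
    exact intervalIntegral.integral_mono_interval le_rfl ht.1 ht.2
      (Eventually.of_forall fun s => norm_nonneg _) hw
  have hEI : ∫ t in a..b, ‖z t - X t‖ ^ 2 / (1 + ‖z t - X t‖) ≤
      (b - a) * (I ^ 2 / (1 + I)) := by
    have h3 := intervalIntegral.integral_mono_on hab hHe
      (intervalIntegrable_const (c := I ^ 2 / (1 + I)) (μ := volume) (a := a) (b := b))
      fun t ht => arc_H_mono (norm_nonneg _) (heI t ht)
    rw [intervalIntegral.integral_const, smul_eq_mul] at h3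
    exact h3
  have hmain : ∫ t in a..b, (κ * (‖u t - W t‖ ^ 2 / (1 + ‖u t - W t‖)) -
      C * (‖z t - X t‖ ^ 2 / (1 + ‖z t - X t‖))) ≤
      ∫ t in a..b, ((ℓ (z t, u t) - ℓ (X t, W t)) -
        (⟪gx ℓ (X t, W t), z t - X t⟫ + ⟪pm ℓ (X t, W t), u t - W t⟫)) := by
    refine intervalIntegral.integral_mono_on hab ((hHw.const_mul κ).sub (hHe.const_mul C))
      ((hz'.sub hX').sub hvi) fun t ht => ?_
    have h3 := hlow (X t) (W t) (z t - X t) (u t - W t) (hR t ht)
    rw [add_sub_cancel, add_sub_cancel] at h3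
    linarith
  rw [intervalIntegral.integral_sub (hHw.const_mul κ) (hHe.const_mul C),
    intervalIntegral.integral_const_mul, intervalIntegral.integral_const_mul,
    intervalIntegral.integral_sub (hz'.sub hX') hvi, intervalIntegral.integral_sub hz' hX', hv,
    sub_zero] at hmain
  have hH0 : 0 ≤ I ^ 2 / (1 + I) := arc_H_nonneg hI0
  have h5 : C * (b - a) ≤ κ := by
    have h6 : (b - a) * (C + 1) ≤ κ := by
      rw [le_div_iff₀ (by linarith)] at h2
      exact h2
    nlinarith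
  have h7 : κ * (I ^ 2 / (1 + I)) ≤
      κ * ∫ t in a..b, ‖u t - W t‖ ^ 2 / (1 + ‖u t - W t‖) :=
    mul_le_mul_of_nonneg_left hJ hκ.le
  have h8 : C * ∫ t in a..b, ‖z t - X t‖ ^ 2 / (1 + ‖z t - X t‖) ≤
      C * ((b - a) * (I ^ 2 / (1 + I))) := mul_le_mul_of_nonneg_left hEI hC
  have h9 : C * ((b - a) * (I ^ 2 / (1 + I))) ≤ κ * (I ^ 2 / (1 + I)) := by
    rw [← mul_assoc]
    exact mul_le_mul_of_nonneg_right h5 hH0
  unfold act
  linarith

end Pool.Agent.DV
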