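import Pool.Agent.DF.Fin

/-!
# MP_74f563_an, n = 2 autonomous (D2), file DV/Bas: uniform estimates (any n)

`Per ℓ`: periodicity.  Uniform Taylor formula, monotonicity of the momentum, energy bound.
-/

set_option autoImplicit false

namespace Pool.Agent.DV

open Set Filter Topology Pool.Agent.MechAlpha Pool.Agent.DF
open scoped ContDiff RealInnerProductSpace

variable {n : ℕ}

/-- periodic functions on `ℝⁿ × ℝⁿ` -/
def Pr {A : Type*} (F : Vec n × Vec n → A) : Prop := ∀ x v l, F (x + zv l, v) = F (x, v)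

theorem zv_sub' (x : Vec n) : ∃ l : Fin n → ℤ, ‖x + zv l‖ ≤ n := by
  refine ⟨fun i => -⌊x i⌋, ?_⟩
  have h1 : ∀ i, |(x + zv fun i => -⌊x i⌋) i| ≤ 1 := by
    intro i
    have h2 : (x + zv fun i => -⌊x i⌋) i = x i + ((-⌊x i⌋ : ℤ) : ℝ) := rfl
    rw [h2, Int.cast_neg, abs_le]
    constructor
    · linarith [Int.floor_le (x i)]
    · linarith [Int.lt_floor_add_one (x i)]
  rw [EuclideanSpace.norm_eq]
  have h2 : ∑ i, ‖(x + zv fun i => -⌊x i⌋) i‖ ^ 2 ≤ (n : ℝ) := by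
    calc ∑ i, ‖(x + zv fun i => -⌊x i⌋) i‖ ^ 2 ≤ ∑ _i : Fin n, (1 : ℝ) := by
          refine Finset.sum_le_sum fun i _ => ?_
          rw [Real.norm_eq_abs]
          exact pow_le_one₀ (abs_nonneg _) (h1 i)
      _ = n := by simp
  have h3 : (n : ℝ) ≤ (n : ℝ) ^ 2 := by
    rcases Nat.eq_zero_or_pos n with h | h
    · simp [h]
    · have : (1 : ℝ) ≤ n := by exact_mod_cast h
      nlinarith
  calc √(∑ i, ‖(x + zv fun i => -⌊x i⌋) i‖ ^ 2) ≤ √((n : ℝ) ^ 2) :=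
        Real.sqrt_le_sqrt (h2.trans h3)
    _ = n := Real.sqrt_sq (Nat.cast_nonneg n)

theorem Pr.bdd {G : Type*} [NormedAddCommGroup G] {F : Vec n × Vec n → G} (hp : Pr F)
    (hF : Continuous F) (R : ℝ) : ∃ C : ℝ, 0 ≤ C ∧ ∀ x v, ‖v‖ ≤ R → ‖F (x, v)‖ ≤ C := by
  have hK : IsCompact (Metric.closedBall (0 : Vec n) n ×ˢ Metric.closedBall (0 : Vec n) R) :=
    (isCompact_closedBall _ _).prod (isCompact_closedBall _ _)
  obtain ⟨C, hC⟩ := hK.exists_bound_of_continuousOn hF.continuousOn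
  refine ⟨max C 0, le_max_right _ _, fun x v hv => ?_⟩
  obtain ⟨l, hl⟩ := zv_sub' x
  rw [← hp x v l]
  exact (hC (x + zv l, v) ⟨mem_closedBall_zero_iff.2 hl, mem_closedBall_zero_iff.2 hv⟩).trans
    (le_max_left _ _)

theorem Pr.fderiv {G : Type*} [NormedAddCommGroup G] [NormedSpace ℝ G] {F : Vec n × Vec n → G}
    (hp : Pr F) : Pr (fderiv ℝ F) := by
  intro x v l
  have e2 : F = fun y => F (y + (zv l, 0)) := by
    funext y
    rw [← hp y.1 y.2 l]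
    congr 1
    ext <;> simp
  have e3 : _root_.fderiv ℝ (fun y => F (y + (zv l, 0))) (x, v) =
      _root_.fderiv ℝ F ((x, v) + (zv l, 0)) := fderiv_comp_add_right _
  rw [← e2] at e3
  rw [e3]
  congr 1
  ext <;> simp

theorem convex_strip (R : ℝ) : Convex ℝ {z : Vec n × Vec n | ‖z.2‖ ≤ R} := by
  have h1 : {z : Vec n × Vec n | ‖z.2‖ ≤ R} =
      (univ : Set (Vec n)) ×ˢ Metric.closedBall (0 : Vec n) R := by
    ext z
    simp
  rw [h1]
  exact convex_univ.prod (convex_closedBall _ _)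

/-- uniform Lipschitz bound on strips -/
theorem Pr.lip {G : Type*} [NormedAddCommGroup G] [NormedSpace ℝ G] {F : Vec n × Vec n → G}
    (hp : Pr F) (hF : ContDiff ℝ 1 F) (R : ℝ) : ∃ C : ℝ, 0 ≤ C ∧ ∀ z w : Vec n × Vec n,
      ‖z.2‖ ≤ R → ‖w.2‖ ≤ R → ‖F w - F z‖ ≤ C * ‖w - z‖ := by
  obtain ⟨C, hC0, hC⟩ := hp.fderiv.bdd (hF.continuous_fderiv (by simp)) R
  refine ⟨C, hC0, fun z w hz hw => ?_⟩
  exact (convex_strip R).norm_image_sub_le_of_norm_fderiv_le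
    (fun x _ => (hF.differentiable (by simp)) x) (fun x hx => hC x.1 x.2 hx) hz hw

/-- uniform Taylor formula on strips -/
theorem Pr.taylor {G : Type*} [NormedAddCommGroup G] [NormedSpace ℝ G] {F : Vec n × Vec n → G}
    (hp : Pr F) (hF : ContDiff ℝ 2 F) (R : ℝ) : ∃ C : ℝ, 0 ≤ C ∧ ∀ z w : Vec n × Vec n,
      ‖z.2‖ ≤ R → ‖w.2‖ ≤ R → ‖F w - F z - _root_.fderiv ℝ F z (w - z)‖ ≤ C * ‖w - z‖ ^ 2 := by
  obtain ⟨C, hC0, hC⟩ := hp.fderiv.lip (hF.fderiv_right (m := 1) (by norm_num)) R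
  refine ⟨C, hC0, fun z w hz hw => ?_⟩
  have hconv : Convex ℝ ({y : Vec n × Vec n | ‖y.2‖ ≤ R} ∩ Metric.closedBall z ‖w - z‖) :=
    (convex_strip R).inter (convex_closedBall _ _)
  have h1 := hconv.norm_image_sub_le_of_norm_hasFDerivWithin_le' (f := F)
    (f' := _root_.fderiv ℝ F) (φ := _root_.fderiv ℝ F z) (C := C * ‖w - z‖) (x := z) (y := w)
    (fun x _ => ((hF.differentiable (by simp)) x).hasFDerivAt.hasFDerivWithinAt)
    (fun x hx => by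
      refine (hC z x hz hx.1).trans (mul_le_mul_of_nonneg_left ?_ hC0)
      have := hx.2
      rwa [Metric.mem_closedBall, dist_eq_norm] at this)
    ⟨hz, Metric.mem_closedBall_self (norm_nonneg _)⟩
    ⟨hw, by rw [Metric.mem_closedBall, dist_eq_norm]⟩
  calc _ ≤ C * ‖w - z‖ * ‖w - z‖ := h1
    _ = _ := by ring

variable {ℓ : Vec n × Vec n → ℝ}

theorem Pr.pm (hp : Pr ℓ) : Pr (pm ℓ) := by
  intro x v l
  unfold DF.pm
  congr 1
  funext w
  exact hp x w l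

theorem Pr.gx (hp : Pr ℓ) : Pr (gx ℓ) := by
  intro x v l
  unfold DF.gx
  rw [hp.fderiv x v l]

theorem Pr.en (hp : Pr ℓ) : Pr (en ℓ) := by
  intro x v l
  unfold DF.en
  rw [hp.pm x v l, hp x v l]

theorem gx_smooth (h : Lag ℓ) : ContDiff ℝ ∞ (gx ℓ) := by
  have h1 : ContDiff ℝ ∞ (fderiv ℝ ℓ) := h.sm.fderiv_right (by simp)
  have h2 : ContDiff ℝ ∞ fun z => (fderiv ℝ ℓ z).comp
      (ContinuousLinearMap.inl ℝ (Vec n) (Vec n)) := h1.clm_comp contDiff_const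
  exact ((InnerProductSpace.toDual ℝ (Vec n)).symm.toContinuousLinearEquiv.contDiff).comp h2

/-- the derivative of `ℓ` -/
theorem der_eq (h : Lag ℓ) (z u : Vec n × Vec n) :
    fderiv ℝ ℓ z u = ⟪gx ℓ z, u.1⟫ + ⟪pm ℓ z, u.2⟫ := by
  rw [h.pm_inner', gx_inner, ← map_add]
  congr 1
  ext <;> simp

/-- the momentum along a segment -/
theorem seg_der (h : Lag ℓ) (x v u : Vec n) (s : ℝ) :
    HasDerivAt (fun s : ℝ => ⟪pm ℓ (x, v + s • u), u⟫)
      (fderiv ℝ (fderiv ℝ fun u : Vec n => ℓ (x, u)) (v + s • u) u u) s := by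
  have h1 : HasDerivAt (fun s : ℝ => ((x, v + s • u) : Vec n × Vec n)) (0, u) s := by
    have h2 : HasDerivAt (fun s : ℝ => v + s • u) u s := by
      have := ((hasDerivAt_id s).smul_const u).const_add v
      simpa using this
    exact (hasDerivAt_const s x).prodMk h2
  have h2 := ((h.pm_smooth.differentiable (by simp)) (x, v + s • u)).hasFDerivAt.comp_hasDerivAt
    s h1
  have h3 : HasDerivAt (fun s : ℝ => ⟪pm ℓ (x, v + s • u), u⟫) _ s :=
    h2.inner ℝ (hasDerivAt_const s u)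
  rw [inner_zero_right, zero_add, h.pm_dv] at h3
  exact h3

/-- uniform convexity on strips -/
theorem conv_unif (h : Lag ℓ) (hp : Pr ℓ) (R : ℝ) : ∃ κ : ℝ, 0 < κ ∧ ∀ x v u : Vec n, ‖v‖ ≤ R →
    κ * ‖u‖ ^ 2 ≤ ⟪fderiv ℝ (pm ℓ) (x, v) (0, u), u⟫ := by
  have hK : IsCompact (Metric.closedBall (0 : Vec n) n ×ˢ Metric.closedBall (0 : Vec n) R ×ˢ
      Metric.sphere (0 : Vec n) 1) :=
    (isCompact_closedBall _ _).prod ((isCompact_closedBall _ _).prod (isCompact_sphere _ _))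
  have hc : Continuous fun q : Vec n × Vec n × Vec n =>
      ⟪fderiv ℝ (pm ℓ) (q.1, q.2.1) (0, q.2.2), q.2.2⟫ := by
    have h1 : Continuous (fderiv ℝ (pm ℓ)) := h.pm_smooth.continuous_fderiv (by simp)
    have h2 : Continuous fun q : Vec n × Vec n × Vec n => fderiv ℝ (pm ℓ) (q.1, q.2.1) (0, q.2.2) :=
      (h1.comp (by fun_prop : Continuous fun q : Vec n × Vec n × Vec n => (q.1, q.2.1))).clm_apply
        (by fun_prop)
    exact h2.inner (by fun_prop)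
  have hper : Pr (fderiv ℝ (pm ℓ)) := hp.pm.fderiv
  have hscale : ∀ κ : ℝ, (∀ x v u : Vec n, ‖v‖ ≤ R → ‖u‖ = 1 →
      κ ≤ ⟪fderiv ℝ (pm ℓ) (x, v) (0, u), u⟫) → ∀ x v u : Vec n, ‖v‖ ≤ R →
      κ * ‖u‖ ^ 2 ≤ ⟪fderiv ℝ (pm ℓ) (x, v) (0, u), u⟫ := by
    intro κ hκ x v u hv
    by_cases hu : u = 0
    · subst hu
      simp
    have hu' : ‖u‖ ≠ 0 := norm_ne_zero_iff.2 hu
    have h1 := hκ x v (‖u‖⁻¹ • u) hv (by
      rw [norm_smul, norm_inv, norm_norm, inv_mul_cancel₀ hu'])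
    have h2 : ((0, ‖u‖⁻¹ • u) : Vec n × Vec n) = ‖u‖⁻¹ • (0, u) := by
      ext <;> simp
    rw [h2, map_smul, inner_smul_left, inner_smul_right] at h1
    simp only [conj_trivial] at h1
    calc κ * ‖u‖ ^ 2 ≤ (‖u‖⁻¹ * (‖u‖⁻¹ * ⟪fderiv ℝ (pm ℓ) (x, v) (0, u), u⟫)) * ‖u‖ ^ 2 :=
          mul_le_mul_of_nonneg_right h1 (sq_nonneg _)
      _ = (‖u‖⁻¹ * ‖u‖) ^ 2 * ⟪fderiv ℝ (pm ℓ) (x, v) (0, u), u⟫ := by ring
      _ = _ := by rw [inv_mul_cancel₀ hu', one_pow, one_mul]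
  by_cases hne : (Metric.closedBall (0 : Vec n) n ×ˢ Metric.closedBall (0 : Vec n) R ×ˢ
      Metric.sphere (0 : Vec n) 1).Nonempty
  · obtain ⟨⟨x₀, v₀, u₀⟩, ⟨-, -, hu₀⟩, hmin⟩ := hK.exists_isMinOn hne hc.continuousOn
    have hu0 : u₀ ≠ 0 := by
      intro h0
      rw [mem_sphere_zero_iff_norm, h0, norm_zero] at hu₀
      exact zero_ne_one hu₀
    refine ⟨⟪fderiv ℝ (pm ℓ) (x₀, v₀) (0, u₀), u₀⟫, ?_, hscale _ fun x v u hv hu => ?_⟩
    · rw [h.pm_dv]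
      exact h.conv _ _ _ hu0
    · obtain ⟨l, hl⟩ := zv_sub' x
      rw [← hper x v l]
      have h1 : ⟪fderiv ℝ (pm ℓ) (x₀, v₀) (0, u₀), u₀⟫ ≤
          ⟪fderiv ℝ (pm ℓ) (x + zv l, v) (0, u), u⟫ :=
        hmin (show (x + zv l, v, u) ∈ Metric.closedBall (0 : Vec n) n ×ˢ
            Metric.closedBall (0 : Vec n) R ×ˢ Metric.sphere (0 : Vec n) 1 from
          ⟨mem_closedBall_zero_iff.2 hl, mem_closedBall_zero_iff.2 hv,
            mem_sphere_zero_iff_norm.2 hu⟩)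
      exact h1
  · refine ⟨1, one_pos, hscale 1 fun x v u hv hu => (hne ?_).elim⟩
    obtain ⟨l, hl⟩ := zv_sub' x
    exact ⟨(x + zv l, v, u), mem_closedBall_zero_iff.2 hl, mem_closedBall_zero_iff.2 hv,
      mem_sphere_zero_iff_norm.2 hu⟩

/-- strict monotonicity of the momentum, uniform on strips -/
theorem mono_unif (h : Lag ℓ) (hp : Pr ℓ) (R : ℝ) : ∃ κ : ℝ, 0 < κ ∧ ∀ x v w : Vec n, ‖v‖ ≤ R →
    ‖w‖ ≤ R → κ * ‖v - w‖ ^ 2 ≤ ⟪pm ℓ (x, v) - pm ℓ (x, w), v - w⟫ := by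
  obtain ⟨κ, hκ, hc⟩ := conv_unif h hp R
  refine ⟨κ, hκ, fun x v w hv hw => ?_⟩
  have hd := seg_der h x w (v - w)
  have h1 : κ * ‖v - w‖ ^ 2 * (1 - 0) ≤ ⟪pm ℓ (x, w + (1 : ℝ) • (v - w)), v - w⟫ -
      ⟪pm ℓ (x, w + (0 : ℝ) • (v - w)), v - w⟫ := by
    refine Convex.mul_sub_le_image_sub_of_le_deriv (convex_Icc (0 : ℝ) 1)
      (f := fun s : ℝ => ⟪pm ℓ (x, w + s • (v - w)), v - w⟫)
      (fun s _ => (hd s).continuousAt.continuousWithinAt)
      (fun s _ => (hd s).differentiableAt.differentiableWithinAt) (fun s hs => ?_) 0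
      (by simp) 1 (by simp) zero_le_one
    rw [interior_Icc] at hs
    rw [(hd s).deriv, ← h.pm_dv]
    refine hc x _ _ ?_
    have h2 : w + s • (v - w) = (1 - s) • w + s • v := by
      rw [smul_sub, sub_smul, one_smul]
      abel
    rw [h2]
    calc ‖(1 - s) • w + s • v‖ ≤ ‖(1 - s) • w‖ + ‖s • v‖ := norm_add_le _ _
      _ = (1 - s) * ‖w‖ + s * ‖v‖ := by
          rw [norm_smul, norm_smul, Real.norm_of_nonneg (by linarith [hs.2]),
            Real.norm_of_nonneg hs.1.le]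
      _ ≤ (1 - s) * R + s * R := by
          have h3 := hs.1
          have h4 := hs.2
          gcongr
      _ = R := by ring
  rw [sub_zero, mul_one, one_smul, zero_smul, add_zero, add_sub_cancel] at h1
  rw [inner_sub_left]
  exact h1

/-- the momentum separates velocities, uniformly -/
theorem sep_unif (h : Lag ℓ) (hp : Pr ℓ) (R : ℝ) : ∃ κ : ℝ, 0 < κ ∧ ∀ x v w : Vec n, ‖v‖ ≤ R →
    ‖w‖ ≤ R → κ * ‖v - w‖ ≤ ‖pm ℓ (x, v) - pm ℓ (x, w)‖ := by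
  obtain ⟨κ, hκ, hc⟩ := mono_unif h hp R
  refine ⟨κ, hκ, fun x v w hv hw => ?_⟩
  by_cases h0 : ‖v - w‖ = 0
  · rw [h0, mul_zero]
    exact norm_nonneg _
  have h1 : 0 < ‖v - w‖ := lt_of_le_of_ne (norm_nonneg _) (Ne.symm h0)
  have h2 := (hc x v w hv hw).trans (real_inner_le_norm _ _)
  have h3 : (κ * ‖v - w‖) * ‖v - w‖ ≤ ‖pm ℓ (x, v) - pm ℓ (x, w)‖ * ‖v - w‖ := by
    calc _ = κ * ‖v - w‖ ^ 2 := by ring
      _ ≤ _ := h2
  exact le_of_mul_le_mul_right h3 h1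

/-- convexity in the velocity -/
theorem conv_ineq (h : Lag ℓ) (x v w : Vec n) :
    ℓ (x, v) + ⟪pm ℓ (x, v), w - v⟫ ≤ ℓ (x, w) := by
  have hmono : Monotone fun s : ℝ => ⟪pm ℓ (x, v + s • (w - v)), w - v⟫ :=
    monotone_of_deriv_nonneg (fun s => (seg_der h x v (w - v) s).differentiableAt) fun s => by
      rw [(seg_der h x v (w - v) s).deriv]
      by_cases h0 : w - v = 0
      · rw [h0]
        simp
      · exact (h.conv _ _ _ h0).le
  have hd : ∀ s : ℝ, HasDerivAt (fun s : ℝ => ℓ (x, v + s • (w - v)))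
      ⟪pm ℓ (x, v + s • (w - v)), w - v⟫ s := by
    intro s
    have h1 : HasDerivAt (fun s : ℝ => ((x, v + s • (w - v)) : Vec n × Vec n)) (0, w - v) s := by
      have h2 : HasDerivAt (fun s : ℝ => v + s • (w - v)) (w - v) s := by
        have := ((hasDerivAt_id s).smul_const (w - v)).const_add v
        simpa using this
      exact (hasDerivAt_const s x).prodMk h2
    have h2 := (h.diff (x, v + s • (w - v))).hasFDerivAt.comp_hasDerivAt s h1
    rw [h.pm_inner']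
    exact h2
  have h1 : ⟪pm ℓ (x, v), w - v⟫ * (1 - 0) ≤ ℓ (x, v + (1 : ℝ) • (w - v)) -
      ℓ (x, v + (0 : ℝ) • (w - v)) := by
    refine Convex.mul_sub_le_image_sub_of_le_deriv (convex_Icc (0 : ℝ) 1)
      (f := fun s : ℝ => ℓ (x, v + s • (w - v)))
      (fun s _ => (hd s).continuousAt.continuousWithinAt)
      (fun s _ => (hd s).differentiableAt.differentiableWithinAt) (fun s hs => ?_) 0
      (by simp) 1 (by simp) zero_le_one
    rw [interior_Icc] at hs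
    rw [(hd s).deriv]
    have h2 := hmono hs.1.le
    simp only [zero_smul, add_zero] at h2
    exact h2
  rw [sub_zero, mul_one, one_smul, zero_smul, add_zero, add_sub_cancel] at h1
  linarith

/-- the energy along a ray -/
theorem en_ray (h : Lag ℓ) (x v : Vec n) (s : ℝ) :
    HasDerivAt (fun s : ℝ => en ℓ (x, s • v)) (s * ⟪fderiv ℝ (pm ℓ) (x, s • v) (0, v), v⟫) s := by
  have h1 : HasDerivAt (fun s : ℝ => ((x, s • v) : Vec n × Vec n)) (0, v) s := by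
    have h2 : HasDerivAt (fun s : ℝ => s • v) v s := by
      have := (hasDerivAt_id s).smul_const v
      simpa using this
    exact (hasDerivAt_const s x).prodMk h2
  have h2 := ((h.en_smooth.differentiable (by simp)) (x, s • v)).hasFDerivAt.comp_hasDerivAt s h1
  rw [h.en_der] at h2
  have e : ⟪fderiv ℝ (pm ℓ) (x, s • v) (0, v), (x, s • v).2⟫ - ⟪gx ℓ (x, s • v), (0, v).1⟫ =
      s * ⟪fderiv ℝ (pm ℓ) (x, s • v) (0, v), v⟫ := by
    change ⟪fderiv ℝ (pm ℓ) (x, s • v) (0, v), s • v⟫ - ⟪gx ℓ (x, s • v), (0 : Vec n)⟫ = _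
    rw [inner_zero_right, sub_zero, inner_smul_right]
  rw [e] at h2
  exact h2

theorem en_mono (h : Lag ℓ) (x : Vec n) {v : Vec n} (hv : v ≠ 0) :
    StrictMonoOn (fun s : ℝ => en ℓ (x, s • v)) (Ici 0) := by
  refine strictMonoOn_of_deriv_pos (convex_Ici 0)
    (fun s _ => (en_ray h x v s).continuousAt.continuousWithinAt) fun s hs => ?_
  rw [interior_Ici] at hs
  rw [(en_ray h x v s).deriv, h.pm_dv]
  exact mul_pos hs (h.conv _ _ _ hv)

theorem en_zero_lt (h : Lag ℓ) (x : Vec n) {v : Vec n} (hv : v ≠ 0) : en ℓ (x, 0) < en ℓ (x, v) := by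
  have h1 := en_mono h x hv (mem_Ici.2 le_rfl) (mem_Ici.2 zero_le_one) zero_lt_one
  simpa using h1

theorem en_zero_le (h : Lag ℓ) (x v : Vec n) : en ℓ (x, 0) ≤ en ℓ (x, v) := by
  by_cases hv : v = 0
  · rw [hv]
  · exact (en_zero_lt h x hv).le

theorem en_zero (ℓ : Vec n × Vec n → ℝ) (x : Vec n) : en ℓ (x, 0) = -ℓ (x, 0) := by
  unfold en
  rw [inner_zero_right, zero_sub]

/-- energy bounds the velocity -/
theorem en_bdd (h : Lag ℓ) (hp : Pr ℓ) (R : ℝ) : ∃ Ω : ℝ, 0 < Ω ∧ ∀ x v : Vec n,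
    en ℓ (x, v) ≤ R → ‖v‖ ≤ Ω := by
  obtain ⟨C, hC0, hC⟩ := hp.bdd h.sm.continuous 1
  obtain ⟨r, hr⟩ := h.sup (|R| + 2 * C + 1)
  refine ⟨max r 2, lt_of_lt_of_le two_pos (le_max_right _ _), fun x v he => ?_⟩
  by_contra hcon
  push Not at hcon
  have h2 : 2 < ‖v‖ := (le_max_right r 2).trans_lt hcon
  have hv0 : 0 < ‖v‖ := two_pos.trans h2
  have h3 := hr x v ((le_max_left r 2).trans hcon.le)
  have hu : ‖(‖v‖⁻¹ • v)‖ ≤ 1 := by
    rw [norm_smul, norm_inv, norm_norm, inv_mul_cancel₀ hv0.ne']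
  have h4 := conv_ineq h x v (‖v‖⁻¹ • v)
  have h5 := hC x (‖v‖⁻¹ • v) hu
  rw [Real.norm_eq_abs] at h5
  have h6 := (abs_le.1 h5).2
  have e1 : ⟪pm ℓ (x, v), ‖v‖⁻¹ • v - v⟫ = (‖v‖⁻¹ - 1) * ⟪pm ℓ (x, v), v⟫ := by
    rw [inner_sub_right, inner_smul_right]
    ring
  rw [e1] at h4
  have e2 : en ℓ (x, v) = ⟪pm ℓ (x, v), v⟫ - ℓ (x, v) := rfl
  set P := ⟪pm ℓ (x, v), v⟫ with hP
  set N := ‖v‖ with hN
  -- `(1 - 1/N) P ≥ ℓ - C`
  have h7 : ℓ (x, v) - C ≤ (1 - N⁻¹) * P := by linarith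
  have h8 : (N - 1) * P ≥ N * (ℓ (x, v) - C) := by
    have h9 : N * ((1 - N⁻¹) * P) = (N - 1) * P := by
      field_simp
    rw [← h9]
    exact mul_le_mul_of_nonneg_left h7 hv0.le
  have h10 : (N - 1) * en ℓ (x, v) ≥ ℓ (x, v) - N * C := by
    rw [e2]
    nlinarith
  have h11 : (N - 1) * en ℓ (x, v) ≤ (N - 1) * R :=
    mul_le_mul_of_nonneg_left he (by linarith)
  have h12 : (N - 1) * R ≥ (|R| + 2 * C + 1) * N - N * C := by linarith
  have h13 : 0 ≤ C * N := by positivity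
  rcases abs_cases R with ⟨h14, h15⟩ | ⟨h14, h15⟩
  · rw [h14] at h12
    nlinarith
  · rw [h14] at h12
    nlinarith

end Pool.Agent.DV
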