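import Pool.Agent.DV.VDef

/-!
# MP_74f563_an (D2), block V, file DV/Exi: existence of short solutions with given end points

PROOF of `vel_small`.  `K (t, z) = (fl ℓ t z).2 - z.2` is analytic, hence `C²` (`fl_ana`,
`AnalyticOnNhd.contDiff`), `K (0, z) = 0` (`Ton.zero`), `ℤⁿ`-periodic (`Ton.shift`).  Its partial
derivative `D_z K (t, z)` (`= fderiv ℝ (fun z => K (t, z)) z = (fderiv ℝ K (t,z)).comp (inr)`) is
continuous
in `(t, z)` and vanishes for `t = 0`.  On the compact set `B = closedBall 0 n × closedBall 0 R` both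
`K (0, ·)` and `D_z K (0, ·)` are `0`, so by compactness (tube lemma `generalized_tube_lemma`, or
`IsCompact.eventually_forall_of_forall_eventually`) there is `τ > 0` with `‖K (t, z)‖ ≤ ε`,
`‖D_z K (t, z)‖ ≤ ε` for `|t| ≤ τ`, `z ∈ B`; by periodicity (`zv_sub'` and the periodicity of `K`,
`D_z K`)
for all `z` with `‖z.2‖ ≤ R`.  The Lipschitz estimate in `v` follows from the mean value inequality
on the convex ball `‖v‖ ≤ R` (`Convex.norm_image_sub_le_of_norm_fderiv_le` or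
`..._of_norm_hasFDerivWithin_le`).

PROOF of `exi`.  `τ` from `vel_small` for `R + 1`, `ε = 1/2`.  Let `q = h⁻¹ • (y - x)`, `‖q‖ ≤ R`.
`Θ v = q - h⁻¹ • ∫_0^h ((fl ℓ t (x, v)).2 - v) dt` maps `closedBall q (1/2)` into itself and is a
`1/2`-Lipschitz map there (norms of integrals), so it has a fixed point `v` (Banach:
`ContractingWith.exists_fixedPoint'` for the complete set `closedBall q (1/2)`, or `ContractingWith`
on the subtype).  `‖v‖ ≤ R + 1`.  As `(fl ℓ h (x,v)).1 = x + ∫_0^h (fl ℓ t (x,v)).2 dt` (fundamental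
theorem, `Sol.dx`), `(fl ℓ h (x,v)).1 = x + h • v + h • (q - v) = y`.  Velocity:
`‖W t - q‖ ≤ ‖W t - v‖ + ‖v - q‖ ≤ 1/2 + 1/2`.
-/

set_option autoImplicit false

namespace Pool.Agent.DV

open Set Filter Topology MeasureTheory Pool.Agent.MechAlpha Pool.Agent.DF Pool.Agent.LRig
open scoped ContDiff RealInnerProductSpace

variable {n : ℕ} {ℓ : Vec n × Vec n → ℝ}

/-- the velocity increment -/
private noncomputable def vG (ℓ : Vec n × Vec n → ℝ) (q : ℝ × Vec n × Vec n) : Vec n :=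
  (fl ℓ q.1 q.2).2 - q.2.2

/-- inclusion of the velocities -/
private noncomputable def vJ : Vec n →L[ℝ] ℝ × Vec n × Vec n :=
  (ContinuousLinearMap.inr ℝ ℝ (Vec n × Vec n)).comp (ContinuousLinearMap.inr ℝ (Vec n) (Vec n))

private theorem vG_ana (hT : Ton ℓ) : AnalyticOnNhd ℝ (vG ℓ) univ := by
  intro q hq
  have h1 := fl_ana hT.lag hT.ana hT.cpl q hq
  have h2 : AnalyticAt ℝ (fun q : ℝ × Vec n × Vec n => (fl ℓ q.1 q.2).2) q :=
    AnalyticAt.comp (g := Prod.snd) analyticAt_snd h1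
  have h3 : AnalyticAt ℝ (fun q : ℝ × Vec n × Vec n => q.2.2) q :=
    AnalyticAt.comp (g := Prod.snd) analyticAt_snd analyticAt_snd
  exact h2.sub h3

private theorem vG_smooth (hT : Ton ℓ) : ContDiff ℝ 1 (vG ℓ) := (vG_ana hT).contDiff

private theorem vG_der (hT : Ton ℓ) (t : ℝ) (x v : Vec n) :
    HasFDerivAt (fun v' => vG ℓ (t, x, v')) ((fderiv ℝ (vG ℓ) (t, x, v)).comp vJ) v := by
  have h1 : HasFDerivAt (vG ℓ) (fderiv ℝ (vG ℓ) (t, x, v)) (t, x, v) :=
    ((vG_smooth hT).differentiable (by simp) _).hasFDerivAt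
  have h2 : HasFDerivAt (fun v' : Vec n => ((t, x, v') : ℝ × Vec n × Vec n)) vJ v := by
    have e : (fun v' : Vec n => ((t, x, v') : ℝ × Vec n × Vec n)) =
        fun v' => ((t, x, 0) : ℝ × Vec n × Vec n) + vJ v' := by
      funext v'
      simp [vJ]
    rw [e]
    exact (vJ (n := n)).hasFDerivAt.const_add _
  exact h1.comp v h2

private theorem vG_zero (hT : Ton ℓ) (z : Vec n × Vec n) : vG ℓ (0, z) = 0 := by
  change (fl ℓ 0 z).2 - z.2 = 0
  rw [hT.zero, sub_self]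

private theorem vG_per (hT : Ton ℓ) (t : ℝ) (x v : Vec n) (l : Fin n → ℤ) :
    vG ℓ (t, x + zv l, v) = vG ℓ (t, x, v) := by
  change (fl ℓ t (x + zv l, v)).2 - v = (fl ℓ t (x, v)).2 - v
  rw [hT.shift t (x, v) l]

theorem vel_small (hT : Ton ℓ) (R : ℝ) {ε : ℝ} (hε : 0 < ε) : ∃ τ : ℝ, 0 < τ ∧ ∀ t : ℝ, |t| ≤ τ →
    ∀ x v w : Vec n, ‖v‖ ≤ R → ‖w‖ ≤ R → ‖(fl ℓ t (x, v)).2 - v‖ ≤ ε ∧
      ‖((fl ℓ t (x, v)).2 - v) - ((fl ℓ t (x, w)).2 - w)‖ ≤ ε * ‖v - w‖ := by
  have hK : IsCompact (Metric.closedBall (0 : Vec n) n ×ˢ Metric.closedBall (0 : Vec n) R) :=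
    (isCompact_closedBall _ _).prod (isCompact_closedBall _ _)
  have hc : Continuous (vG ℓ) := (vG_smooth hT).continuous
  have hd : Continuous fun q => (fderiv ℝ (vG ℓ) q).comp (vJ (n := n)) :=
    ((vG_smooth hT).continuous_fderiv (by simp)).clm_comp continuous_const
  have hev : ∀ᶠ t in 𝓝 (0 : ℝ),
      ∀ z ∈ Metric.closedBall (0 : Vec n) n ×ˢ Metric.closedBall (0 : Vec n) R,
      ‖vG ℓ (t, z)‖ < ε ∧ ‖(fderiv ℝ (vG ℓ) (t, z)).comp (vJ (n := n))‖ < ε := by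
    refine hK.eventually_forall_of_forall_eventually
      (P := fun t z => ‖vG ℓ (t, z)‖ < ε ∧ ‖(fderiv ℝ (vG ℓ) (t, z)).comp (vJ (n := n))‖ < ε) ?_
    rintro ⟨x, v⟩ -
    have h1 : ‖vG ℓ (0, x, v)‖ < ε := by
      rw [vG_zero hT, norm_zero]
      exact hε
    have h2 : ‖(fderiv ℝ (vG ℓ) (0, x, v)).comp (vJ (n := n))‖ < ε := by
      have h3 := vG_der hT 0 x v
      have h4 : (fun v' => vG ℓ ((0 : ℝ), x, v')) = fun _ => (0 : Vec n) :=
        funext fun v' => vG_zero hT _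
      rw [h4] at h3
      rw [h3.unique (hasFDerivAt_const 0 v), norm_zero]
      exact hε
    exact ((hc.norm.continuousAt (x := ((0 : ℝ), x, v))).eventually_lt_const h1).and
      ((hd.norm.continuousAt (x := ((0 : ℝ), x, v))).eventually_lt_const h2)
  obtain ⟨δ, hδ, hδ'⟩ := Metric.eventually_nhds_iff.1 hev
  refine ⟨δ / 2, by positivity, fun t ht x v w hv hw => ?_⟩
  obtain ⟨l, hl⟩ := zv_sub' x
  have htd : dist t 0 < δ := by
    rw [Real.dist_0_eq_abs]
    linarith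
  have hb := hδ' htd
  have hx' : x + zv l ∈ Metric.closedBall (0 : Vec n) n := mem_closedBall_zero_iff.2 hl
  constructor
  · have h1 := (hb (x + zv l, v) ⟨hx', mem_closedBall_zero_iff.2 hv⟩).1
    rw [vG_per hT] at h1
    exact h1.le
  · have h1 := (convex_closedBall (0 : Vec n) R).norm_image_sub_le_of_norm_hasFDerivWithin_le
      (f := fun v' => vG ℓ (t, x + zv l, v'))
      (f' := fun v' => (fderiv ℝ (vG ℓ) (t, x + zv l, v')).comp (vJ (n := n))) (C := ε)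
      (fun v' _ => (vG_der hT t (x + zv l) v').hasFDerivWithinAt)
      (fun v' hv' => (hb (x + zv l, v') ⟨hx', hv'⟩).2.le)
      (mem_closedBall_zero_iff.2 hw) (mem_closedBall_zero_iff.2 hv)
    simp only [vG_per hT] at h1
    exact h1

theorem exi (hT : Ton ℓ) (R : ℝ) : ∃ τ : ℝ, 0 < τ ∧ ∀ h : ℝ, 0 < h → h ≤ τ → ∀ x y : Vec n,
    ‖y - x‖ ≤ R * h → ∃ v : Vec n, (fl ℓ h (x, v)).1 = y ∧
      ∀ t ∈ Icc 0 h, ‖(fl ℓ t (x, v)).2 - h⁻¹ • (y - x)‖ ≤ 1 := by
  obtain ⟨τ, hτ, hs⟩ := vel_small hT (R + 1) (ε := 1 / 2) (by norm_num)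
  refine ⟨τ, hτ, fun h h0 hh x y hxy => ?_⟩
  set q : Vec n := h⁻¹ • (y - x) with hq
  have hqR : ‖q‖ ≤ R := by
    rw [hq, norm_smul, norm_inv, Real.norm_of_nonneg h0.le, inv_mul_le_iff₀ h0, mul_comm]
    exact hxy
  have htab : ∀ t ∈ Icc 0 h, |t| ≤ τ := fun t ht => by
    rw [abs_of_nonneg ht.1]
    exact ht.2.trans hh
  have hball : ∀ v ∈ Metric.closedBall q (1 / 2), ‖v‖ ≤ R + 1 := by
    intro v hv
    rw [mem_closedBall_iff_norm] at hv
    have h1 := norm_add_le (v - q) q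
    rw [sub_add_cancel] at h1
    linarith
  -- displacement of the solution from the straight line
  have hder : ∀ v : Vec n, ∀ t : ℝ, HasDerivAt (fun t : ℝ => (fl ℓ t (x, v)).1 - t • v)
      ((fl ℓ t (x, v)).2 - v) t := by
    intro v t
    have h1 := ((hT.sol (x, v)).dx t).sub ((hasDerivAt_id t).smul_const v)
    rw [one_smul] at h1
    exact h1
  have hz : ∀ v : Vec n, (fl ℓ 0 (x, v)).1 - (0 : ℝ) • v = x := by
    intro v
    rw [hT.zero, zero_smul, sub_zero]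
  have hd1 : ∀ v ∈ Metric.closedBall q (1 / 2), ‖(fl ℓ h (x, v)).1 - h • v - x‖ ≤ 1 / 2 * h := by
    intro v hv
    have h1 := norm_image_sub_le_of_norm_deriv_le_segment' (a := 0) (b := h) (C := 1 / 2)
      (f := fun t : ℝ => (fl ℓ t (x, v)).1 - t • v)
      (fun t _ => (hder v t).hasDerivWithinAt)
      (fun t ht => (hs t (htab t ⟨ht.1, ht.2.le⟩) x v v (hball v hv) (hball v hv)).1)
      h ⟨h0.le, le_rfl⟩
    rw [sub_zero, hz] at h1
    exact h1
  have hd2 : ∀ v ∈ Metric.closedBall q (1 / 2), ∀ w ∈ Metric.closedBall q (1 / 2),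
      ‖((fl ℓ h (x, v)).1 - h • v) - ((fl ℓ h (x, w)).1 - h • w)‖ ≤ 1 / 2 * ‖v - w‖ * h := by
    intro v hv w hw
    have h1 := norm_image_sub_le_of_norm_deriv_le_segment' (a := 0) (b := h)
      (C := 1 / 2 * ‖v - w‖)
      (f := fun t : ℝ => ((fl ℓ t (x, v)).1 - t • v) - ((fl ℓ t (x, w)).1 - t • w))
      (fun t _ => ((hder v t).sub (hder w t)).hasDerivWithinAt)
      (fun t ht => (hs t (htab t ⟨ht.1, ht.2.le⟩) x v w (hball v hv) (hball w hw)).2)
      h ⟨h0.le, le_rfl⟩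
    rw [sub_zero, hz, hz, sub_self, sub_zero] at h1
    exact h1
  let Θ : Vec n → Vec n := fun v => q - h⁻¹ • ((fl ℓ h (x, v)).1 - h • v - x)
  have hmaps : MapsTo Θ (Metric.closedBall q (1 / 2)) (Metric.closedBall q (1 / 2)) := by
    intro v hv
    rw [mem_closedBall_iff_norm]
    change ‖q - h⁻¹ • ((fl ℓ h (x, v)).1 - h • v - x) - q‖ ≤ 1 / 2
    rw [sub_sub_cancel_left, norm_neg, norm_smul, norm_inv, Real.norm_of_nonneg h0.le,
      inv_mul_le_iff₀ h0, mul_comm h]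
    exact hd1 v hv
  have hcontr : ContractingWith (1 / 2) (hmaps.restrict Θ _ _) := by
    refine ⟨?_, LipschitzWith.of_dist_le_mul ?_⟩
    · exact NNReal.half_lt_self one_ne_zero
    · rintro ⟨v, hv⟩ ⟨w, hw⟩
      change dist (Θ v) (Θ w) ≤ ((1 / 2 : NNReal) : ℝ) * dist v w
      rw [dist_eq_norm, dist_eq_norm]
      have e1 : Θ v - Θ w = - (h⁻¹ • (((fl ℓ h (x, v)).1 - h • v) -
          ((fl ℓ h (x, w)).1 - h • w))) := by
        change q - h⁻¹ • ((fl ℓ h (x, v)).1 - h • v - x) -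
          (q - h⁻¹ • ((fl ℓ h (x, w)).1 - h • w - x)) = _
        module
      rw [e1, norm_neg, norm_smul, norm_inv, Real.norm_of_nonneg h0.le, inv_mul_le_iff₀ h0]
      have h3 := hd2 v hv w hw
      have e2 : ((1 / 2 : NNReal) : ℝ) = 1 / 2 := by push_cast; rfl
      rw [e2]
      linarith
  obtain ⟨v, hv, hfix, -, -⟩ := hcontr.exists_fixedPoint' (s := Metric.closedBall q (1 / 2))
    Metric.isClosed_closedBall.isComplete hmaps
    (x := q) (Metric.mem_closedBall_self (by norm_num)) (edist_ne_top _ _)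
  refine ⟨v, ?_, fun t ht => ?_⟩
  · have h1 : q - h⁻¹ • ((fl ℓ h (x, v)).1 - h • v - x) = v := hfix
    have h2 : h • (q - h⁻¹ • ((fl ℓ h (x, v)).1 - h • v - x)) = h • v := by rw [h1]
    rw [smul_sub, smul_inv_smul₀ h0.ne', smul_inv_smul₀ h0.ne'] at h2
    have h3 : (fl ℓ h (x, v)).1 = y - (y - x - ((fl ℓ h (x, v)).1 - h • v - x)) + h • v := by
      abel
    rw [h3, h2]
    abel
  · have h1 := (hs t (htab t ht) x v v (hball v hv) (hball v hv)).1
    have h2 := hv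
    rw [mem_closedBall_iff_norm] at h2
    have h3 := norm_add_le ((fl ℓ t (x, v)).2 - v) (v - q)
    rw [sub_add_sub_cancel] at h3
    linarith

end Pool.Agent.DV
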