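import Pool.Agent.DV.Arc
import Pool.Agent.DV.Exi

/-!
# MP_74f563_an (D2), block V, file DV/Chn: minimal closed chains of short solutions

`Chain ℓ h R l Y`: the solutions with initial data `Y i` (`i` in the cyclic index set
`Fin (N + 2)`) on
`[0, h]`; the end point of the `i`-th one is the starting point of the `(i+1)`-st one, up to the
integer vector `l i`; the steps are at most `R h` and the velocities are `1`-close to the mean
velocity.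

PROOF of `exists_min_chain`.  Every chain may be translated by one integer vector so that
`‖(Y 0).1‖ ≤ n` (`zv_sub'`); the conditions and the sum of actions do not change (`Ton.shift`,
`Ton.ax_shift`).  The set of chains with `‖(Y 0).1‖ ≤ n` is closed (`Ton.cont`; `vel` is a
conjunction
of closed conditions) and bounded: `‖(Y (i+1)).1‖ ≤ ‖(Y i).1‖ + R h + ‖zv (l i)‖` (induction on
`i.val`,
`Fin.induction`), `‖(Y i).2‖ ≤ 1 + R` (`vel` at `t = 0`, `Ton.zero`, `step`), so it is compact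
(`Metric.isCompact_of_isClosed_isBounded` in `Fin (N+2) → Vec n × Vec n`); the sum of the actions is
continuous (`Ton.ax_cont`): `IsCompact.exists_isMinOn`.

PROOF of `node`.  Put `x = (Y k).1`, `y = (fl ℓ h (Y k)).1`, `x' = (Y (k+1)).1`,
`y' = (fl ℓ h (Y (k+1))).1`,
`M = R + 1` (velocities of both arcs, by `step` and `vel`), `C` from `first_var hl hp M`.  Let
`q = max 1 h⁻¹` and `0 < ε ≤ ε₀` so small that `δ = ε ‖ν‖ q ≤ 1`.  By `exi` (hypothesis `hexi`)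
there
are
arcs `v₁` from `x` to `y + ε ν` and `v₂` from `x' + ε ν` to `y'` (the displacements are
`Δ_k + ε ν`, `Δ_{k+1} - ε ν`, of norm `≤ R h` by hypothesis); their velocities are bounded by
`R + 1`, so
by
`arc_min` (hypothesis `harc`) their actions are at most the actions of the curves
`X t + (t/h) ε ν` and `X' t + ((h-t)/h) ε ν` (`var_vcv`), which by `first_var` are at most
`Ax h (Y k) + ε ⟪pm (fl h (Y k)), ν⟫ + C δ² h` and `Ax h (Y (k+1)) - ε ⟪pm (Y (k+1)), ν⟫ + C δ² h`.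
Let `Y'` be `Y` with `Y k` replaced by `(x, v₁)` and `Y (k+1)` by `(x' + ε ν, v₂)`
(`Function.update`
twice;
`k ≠ k + 1` in `Fin (N + 2)`): it is a chain (`join` at `k`: `y + ε ν = x' + zv (l k) + ε ν`; at
`k+1`:
unchanged end point, and `(Y' (k+2)).1 = (Y (k+2)).1` also if `k + 2 = k`; at other `i`: if
`i + 1 = k`
then
`(Y' k).1 = (Y k).1`; `i + 1 ≠ k + 1`).  Minimality: `0 ≤ ε ⟪P⁺ - P⁻, ν⟫ + 2 C q² ‖ν‖² h ε²`;
divide by
`ε` and let `ε → 0`.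
-/

set_option autoImplicit false

namespace Pool.Agent.DV

open Set Filter Topology MeasureTheory Pool.Agent.MechAlpha Pool.Agent.DF Pool.Agent.LRig
open scoped ContDiff RealInnerProductSpace

variable {n : ℕ} {ℓ : Vec n × Vec n → ℝ}

/-- closed chains of short solutions -/
structure Chain (ℓ : Vec n × Vec n → ℝ) {N : ℕ} (h R : ℝ) (l : Fin (N + 2) → Fin n → ℤ)
    (Y : Fin (N + 2) → Vec n × Vec n) : Prop where
  join : ∀ i, (fl ℓ h (Y i)).1 = (Y (i + 1)).1 + zv (l i)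
  step : ∀ i, ‖(fl ℓ h (Y i)).1 - (Y i).1‖ ≤ R * h
  vel : ∀ i, ∀ t ∈ Icc 0 h, ‖(fl ℓ t (Y i)).2 - h⁻¹ • ((fl ℓ h (Y i)).1 - (Y i).1)‖ ≤ 1

/-- the velocities of a chain are bounded -/
private theorem chn_vel {h R : ℝ} (h0 : 0 < h) {D w : Vec n} (h1 : ‖D‖ ≤ R * h)
    (h2 : ‖w - h⁻¹ • D‖ ≤ 1) : ‖w‖ ≤ R + 1 := by
  have h3 : ‖h⁻¹ • D‖ ≤ R := by
    rw [norm_smul, norm_inv, Real.norm_of_nonneg h0.le]
    calc h⁻¹ * ‖D‖ ≤ h⁻¹ * (R * h) := by gcongr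
      _ = R := by field_simp
  calc ‖w‖ = ‖(w - h⁻¹ • D) + h⁻¹ • D‖ := by rw [sub_add_cancel]
    _ ≤ ‖w - h⁻¹ • D‖ + ‖h⁻¹ • D‖ := norm_add_le _ _
    _ ≤ R + 1 := by linarith

/-- translation of a chain -/
private theorem chn_shift (hT : Ton ℓ) {N : ℕ} {h R : ℝ} {l : Fin (N + 2) → Fin n → ℤ}
    {Y : Fin (N + 2) → Vec n × Vec n} (hY : Chain ℓ h R l Y) (m : Fin n → ℤ) :
    Chain ℓ h R l fun i => ((Y i).1 + zv m, (Y i).2) := by
  have e : ∀ (t : ℝ) (i : Fin (N + 2)), fl ℓ t ((Y i).1 + zv m, (Y i).2) =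
      ((fl ℓ t (Y i)).1 + zv m, (fl ℓ t (Y i)).2) := fun t i => hT.shift t (Y i) m
  refine ⟨?_, ?_, ?_⟩
  · intro i
    rw [e, hY.join i]
    exact add_right_comm _ _ _
  · intro i
    rw [e]
    change ‖(fl ℓ h (Y i)).1 + zv m - ((Y i).1 + zv m)‖ ≤ R * h
    rw [add_sub_add_right_eq_sub]
    exact hY.step i
  · intro i t ht
    rw [e, e]
    change ‖(fl ℓ t (Y i)).2 - h⁻¹ • ((fl ℓ h (Y i)).1 + zv m - ((Y i).1 + zv m))‖ ≤ 1
    rw [add_sub_add_right_eq_sub]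
    exact hY.vel i t ht

/-- the points of a chain are bounded -/
private theorem chn_bdd {N : ℕ} {h R : ℝ} {l : Fin (N + 2) → Fin n → ℤ}
    {Y : Fin (N + 2) → Vec n × Vec n} (hY : Chain ℓ h R l Y) (hn : ‖(Y 0).1‖ ≤ n) (k : ℕ)
    (hk : k < N + 2) : ‖(Y ⟨k, hk⟩).1‖ ≤ n + k * (R * h + ∑ j, ‖zv (l j)‖) := by
  induction k with
  | zero =>
    have e : (⟨0, hk⟩ : Fin (N + 2)) = 0 := rfl
    rw [e]
    simpa using hn
  | succ k ih =>
    have hk' : k < N + 2 := by omega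
    have h1 := ih hk'
    have h2 := hY.join ⟨k, hk'⟩
    have h3 := hY.step ⟨k, hk'⟩
    have e : (⟨k, hk'⟩ + 1 : Fin (N + 2)) = ⟨k + 1, hk⟩ := by
      apply Fin.ext
      rw [Fin.val_add, Fin.val_one]
      exact Nat.mod_eq_of_lt hk
    rw [e] at h2
    have h4 : ‖zv (l ⟨k, hk'⟩)‖ ≤ ∑ j, ‖zv (l j)‖ :=
      Finset.single_le_sum (f := fun j => ‖zv (l j)‖) (fun j _ => norm_nonneg _)
        (Finset.mem_univ _)
    have h5 : (Y ⟨k + 1, hk⟩).1 = ((fl ℓ h (Y ⟨k, hk'⟩)).1 - (Y ⟨k, hk'⟩).1) +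
        (Y ⟨k, hk'⟩).1 - zv (l ⟨k, hk'⟩) := by
      rw [h2]
      abel
    rw [h5]
    calc ‖((fl ℓ h (Y ⟨k, hk'⟩)).1 - (Y ⟨k, hk'⟩).1) + (Y ⟨k, hk'⟩).1 - zv (l ⟨k, hk'⟩)‖
        ≤ ‖((fl ℓ h (Y ⟨k, hk'⟩)).1 - (Y ⟨k, hk'⟩).1) + (Y ⟨k, hk'⟩).1‖ +
          ‖zv (l ⟨k, hk'⟩)‖ := norm_sub_le _ _
      _ ≤ ‖(fl ℓ h (Y ⟨k, hk'⟩)).1 - (Y ⟨k, hk'⟩).1‖ + ‖(Y ⟨k, hk'⟩).1‖ +
          ‖zv (l ⟨k, hk'⟩)‖ := by
          have := norm_add_le ((fl ℓ h (Y ⟨k, hk'⟩)).1 - (Y ⟨k, hk'⟩).1) (Y ⟨k, hk'⟩).1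
          linarith
      _ ≤ R * h + (n + k * (R * h + ∑ j, ‖zv (l j)‖)) + ∑ j, ‖zv (l j)‖ := by linarith
      _ = _ := by
          push_cast
          ring

theorem exists_min_chain (hT : Ton ℓ) {N : ℕ} {h R : ℝ} (h0 : 0 < h)
    {l : Fin (N + 2) → Fin n → ℤ} (hne : ∃ Y, Chain ℓ h R l Y) :
    ∃ Y, Chain ℓ h R l Y ∧ ∀ Y', Chain ℓ h R l Y' → ∑ i, Ax ℓ h (Y i) ≤ ∑ i, Ax ℓ h (Y' i) := by
  classical
  have hc : ∀ (t : ℝ) (i : Fin (N + 2)),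
      Continuous fun Y : Fin (N + 2) → Vec n × Vec n => fl ℓ t (Y i) := by
    intro t i
    exact hT.cont.comp (continuous_const.prodMk (continuous_apply i))
  have hc1 : ∀ i : Fin (N + 2), Continuous fun Y : Fin (N + 2) → Vec n × Vec n => (Y i).1 :=
    fun i => continuous_fst.comp (continuous_apply i)
  set K : Set (Fin (N + 2) → Vec n × Vec n) := {Y | Chain ℓ h R l Y ∧ ‖(Y 0).1‖ ≤ n} with hK
  have hclosed : IsClosed K := by
    have e : K = (((⋂ i, {Y : Fin (N + 2) → Vec n × Vec n |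
          (fl ℓ h (Y i)).1 = (Y (i + 1)).1 + zv (l i)}) ∩
        (⋂ i, {Y : Fin (N + 2) → Vec n × Vec n | ‖(fl ℓ h (Y i)).1 - (Y i).1‖ ≤ R * h})) ∩
        (⋂ i, ⋂ t ∈ Icc 0 h, {Y : Fin (N + 2) → Vec n × Vec n |
          ‖(fl ℓ t (Y i)).2 - h⁻¹ • ((fl ℓ h (Y i)).1 - (Y i).1)‖ ≤ 1})) ∩
        {Y : Fin (N + 2) → Vec n × Vec n | ‖(Y 0).1‖ ≤ n} := by
      ext Y
      constructor
      · rintro ⟨hY, hn⟩
        refine ⟨⟨⟨mem_iInter.2 hY.join, mem_iInter.2 hY.step⟩, mem_iInter.2 fun i =>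
          mem_iInter₂.2 fun t ht => hY.vel i t ht⟩, hn⟩
      · rintro ⟨⟨⟨h1, h2⟩, h3⟩, h4⟩
        exact ⟨⟨fun i => mem_iInter.1 h1 i, fun i => mem_iInter.1 h2 i, fun i t ht =>
          mem_iInter₂.1 (mem_iInter.1 h3 i) t ht⟩, h4⟩
    rw [e]
    refine IsClosed.inter (IsClosed.inter (IsClosed.inter ?_ ?_) ?_) ?_
    · refine isClosed_iInter fun i => isClosed_eq ?_ ?_
      · exact continuous_fst.comp (hc h i)
      · exact (hc1 (i + 1)).add continuous_const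
    · refine isClosed_iInter fun i => isClosed_le ?_ continuous_const
      exact ((continuous_fst.comp (hc h i)).sub (hc1 i)).norm
    · refine isClosed_iInter fun i => isClosed_biInter fun t _ => isClosed_le ?_ continuous_const
      exact ((continuous_snd.comp (hc t i)).sub
        (((continuous_fst.comp (hc h i)).sub (hc1 i)).const_smul h⁻¹)).norm
    · exact isClosed_le (hc1 0).norm continuous_const
  set B : ℝ := R * h + ∑ j, ‖zv (l j)‖ with hB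
  have hsub : K ⊆ Set.pi univ fun _ : Fin (N + 2) =>
      Metric.closedBall (0 : Vec n) (n + (N + 2) * B) ×ˢ Metric.closedBall (0 : Vec n) (R + 1) := by
    rintro Y ⟨hY, hn⟩ i _
    have hRh : 0 ≤ R * h := (norm_nonneg _).trans (hY.step 0)
    have hB0 : 0 ≤ B := add_nonneg hRh (Finset.sum_nonneg fun j _ => norm_nonneg _)
    refine ⟨?_, ?_⟩
    · rw [mem_closedBall_zero_iff]
      have h1 := chn_bdd hY hn i.1 i.2
      have h2 : ((i : ℕ) : ℝ) * B ≤ (N + 2) * B := by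
        have h3 : ((i : ℕ) : ℝ) ≤ N + 2 := by exact_mod_cast i.2.le
        gcongr
      calc ‖(Y i).1‖ ≤ _ := h1
        _ ≤ n + (N + 2) * B := by linarith
    · rw [mem_closedBall_zero_iff]
      have h1 := hY.vel i 0 ⟨le_rfl, h0.le⟩
      rw [hT.zero] at h1
      exact chn_vel h0 (hY.step i) h1
  have hcomp : IsCompact K := IsCompact.of_isClosed_subset
    (isCompact_univ_pi fun _ => (isCompact_closedBall _ _).prod (isCompact_closedBall _ _))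
    hclosed hsub
  have hF : Continuous fun Y : Fin (N + 2) → Vec n × Vec n => ∑ i, Ax ℓ h (Y i) :=
    continuous_finsetSum _ fun i _ =>
      hT.ax_cont.comp (continuous_const.prodMk (continuous_apply i))
  have hmove : ∀ Y', Chain ℓ h R l Y' → ∃ Y ∈ K, ∑ i, Ax ℓ h (Y i) = ∑ i, Ax ℓ h (Y' i) := by
    intro Y' hY'
    obtain ⟨m, hm⟩ := zv_sub' (Y' 0).1
    refine ⟨fun i => ((Y' i).1 + zv m, (Y' i).2), ⟨chn_shift hT hY' m, hm⟩, ?_⟩
    exact Finset.sum_congr rfl fun i _ => hT.ax_shift h (Y' i) m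
  have hKne : K.Nonempty := by
    obtain ⟨Y, hY⟩ := hne
    obtain ⟨Y', hY', -⟩ := hmove Y hY
    exact ⟨Y', hY'⟩
  obtain ⟨Y, hY, hmin⟩ := hcomp.exists_isMinOn hKne hF.continuousOn
  refine ⟨Y, hY.1, fun Y' hY' => ?_⟩
  obtain ⟨Y'', h1, h2⟩ := hmove Y' hY'
  rw [← h2]
  exact hmin h1

/-- comparison of the actions of two arcs with close end points -/
private theorem chn_arc (hT : Ton ℓ) {h M C : ℝ} (h0 : 0 < h)
    (hC : ∀ X W : ℝ → Vec n,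
    Sol ℓ X W → ∀ a b : ℝ, a ≤ b → (∀ t ∈ Icc a b, ‖W t‖ ≤ M) → ∀ (lam mu : ℝ → Vec n) (δ : ℝ),
    Continuous mu → (∀ t, HasDerivAt lam (mu t) t) → δ ≤ 1 →
    (∀ t ∈ Icc a b, ‖lam t‖ ≤ δ ∧ ‖mu t‖ ≤ δ) →
    |act ℓ (fun t => X t + lam t) (fun t => W t + mu t) a b - act ℓ X W a b -
      (⟪pm ℓ (X b, W b), lam b⟫ - ⟪pm ℓ (X a, W a), lam a⟫)| ≤ C * δ ^ 2 * (b - a))
    (harc : ∀ (X W z u : ℝ → Vec n) (a b : ℝ), Sol ℓ X W → VCv z u a b → b - a ≤ h →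
      (∀ t ∈ Icc a b, ‖W t‖ ≤ M) → z a = X a → z b = X b → act ℓ X W a b ≤ act ℓ z u a b)
    {z0 z1 : Vec n × Vec n} {a b : Vec n} {δ : ℝ}
    (hv0 : ∀ t ∈ Icc 0 h, ‖(fl ℓ t z0).2‖ ≤ M) (hv1 : ∀ t ∈ Icc 0 h, ‖(fl ℓ t z1).2‖ ≤ M)
    (e0 : z1.1 = z0.1 + a) (e1 : (fl ℓ h z1).1 = (fl ℓ h z0).1 + b) (hδ : δ ≤ 1)
    (ha : ‖a‖ ≤ δ) (hb : ‖b‖ ≤ δ) (hab : ‖h⁻¹ • (b - a)‖ ≤ δ) :
    Ax ℓ h z1 ≤ Ax ℓ h z0 + ⟪pm ℓ (fl ℓ h z0), b⟫ - ⟪pm ℓ z0, a⟫ + C * δ ^ 2 * h := by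
  set lam : ℝ → Vec n := fun t => a + t • (h⁻¹ • (b - a)) with hlam
  set mu : ℝ → Vec n := fun _ => h⁻¹ • (b - a) with hmu
  have hder : ∀ t, HasDerivAt lam (mu t) t := by
    intro t
    have h1 : HasDerivAt (fun t : ℝ => a + t • (h⁻¹ • (b - a)))
        ((1 : ℝ) • (h⁻¹ • (b - a))) t :=
      ((hasDerivAt_id t).smul_const (h⁻¹ • (b - a))).const_add a
    rw [one_smul] at h1
    exact h1
  have hmuc : Continuous mu := continuous_const
  have l0 : lam 0 = a := by simp [hlam]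
  have lh : lam h = b := by
    simp only [hlam]
    rw [smul_smul, mul_inv_cancel₀ h0.ne', one_smul, add_sub_cancel]
  have hbd : ∀ t ∈ Icc 0 h, ‖lam t‖ ≤ δ ∧ ‖mu t‖ ≤ δ := by
    intro t ht
    refine ⟨?_, hab⟩
    have h1 : lam t = (1 - t * h⁻¹) • a + (t * h⁻¹) • b := by
      simp only [hlam]
      rw [smul_smul, smul_sub, sub_smul, one_smul]
      abel
    have h2 : 0 ≤ t * h⁻¹ := mul_nonneg ht.1 (inv_nonneg.2 h0.le)
    have h3 : t * h⁻¹ ≤ 1 := by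
      rw [← div_eq_mul_inv, div_le_one h0]
      exact ht.2
    rw [h1]
    calc ‖(1 - t * h⁻¹) • a + (t * h⁻¹) • b‖ ≤ ‖(1 - t * h⁻¹) • a‖ + ‖(t * h⁻¹) • b‖ :=
          norm_add_le _ _
      _ = (1 - t * h⁻¹) * ‖a‖ + (t * h⁻¹) * ‖b‖ := by
          rw [norm_smul, norm_smul, Real.norm_of_nonneg (by linarith), Real.norm_of_nonneg h2]
      _ ≤ (1 - t * h⁻¹) * δ + (t * h⁻¹) * δ := by
          have h4 : 0 ≤ 1 - t * h⁻¹ := by linarith
          gcongr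
      _ = δ := by ring
  have h1 := hC _ _ (hT.sol z0) 0 h h0.le hv0 lam mu δ hmuc hder hδ hbd
  have h2 := harc _ _ _ _ 0 h (hT.sol z1) (var_vcv hT.lag (hT.sol z0) hmuc hder h0.le)
    (by linarith) hv1 (by rw [hT.zero, hT.zero, l0, e0]) (by rw [lh, e1])
  rw [← Ax_eq, l0, lh] at h1
  rw [← Ax_eq] at h2
  simp only [Prod.mk.eta] at h1
  rw [hT.zero, sub_zero] at h1
  have h3 := (abs_le.1 h1).2
  linarith

theorem node (hT : Ton ℓ) {N : ℕ} {h R : ℝ} (h0 : 0 < h) (hR : 0 ≤ R)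
    (hexi : ∀ x y : Vec n, ‖y - x‖ ≤ R * h → ∃ v : Vec n, (fl ℓ h (x, v)).1 = y ∧
      ∀ t ∈ Icc 0 h, ‖(fl ℓ t (x, v)).2 - h⁻¹ • (y - x)‖ ≤ 1)
    (harc : ∀ (X W z u : ℝ → Vec n) (a b : ℝ), Sol ℓ X W → VCv z u a b → b - a ≤ h →
      (∀ t ∈ Icc a b, ‖W t‖ ≤ R + 1) → z a = X a → z b = X b → act ℓ X W a b ≤ act ℓ z u a b)
    {l : Fin (N + 2) → Fin n → ℤ} {Y : Fin (N + 2) → Vec n × Vec n} (hY : Chain ℓ h R l Y)
    (hmin : ∀ Y', Chain ℓ h R l Y' → ∑ i, Ax ℓ h (Y i) ≤ ∑ i, Ax ℓ h (Y' i))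
    (k : Fin (N + 2)) {ν : Vec n} {ε₀ : ℝ} (hε : 0 < ε₀)
    (h1 : ∀ ε : ℝ, 0 < ε → ε ≤ ε₀ → ‖(fl ℓ h (Y k)).1 - (Y k).1 + ε • ν‖ ≤ R * h)
    (h2 : ∀ ε : ℝ, 0 < ε → ε ≤ ε₀ →
      ‖(fl ℓ h (Y (k + 1))).1 - (Y (k + 1)).1 - ε • ν‖ ≤ R * h) :
    0 ≤ ⟪pm ℓ (fl ℓ h (Y k)) - pm ℓ (Y (k + 1)), ν⟫ := by
  classical
  obtain ⟨C, hC0, hC⟩ := first_var hT.lag hT.per (R + 1)
  have hkk : k ≠ k + 1 := by
    intro h3
    have h4 : (1 : Fin (N + 2)) = 0 := by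
      have h5 : k + 1 = k + 0 := by rw [add_zero]; exact h3.symm
      exact add_left_cancel h5
    exact absurd h4 (by simp)
  have hvY : ∀ i, ∀ t ∈ Icc 0 h, ‖(fl ℓ t (Y i)).2‖ ≤ R + 1 := fun i t ht =>
    chn_vel h0 (hY.step i) (hY.vel i t ht)
  set q : ℝ := max 1 h⁻¹ with hq
  have hq1 : 1 ≤ q := le_max_left _ _
  have hqh : h⁻¹ ≤ q := le_max_right _ _
  have hq0 : 0 < q := by linarith
  -- the inequality for small `ε`
  have key : ∀ ε : ℝ, 0 < ε → ε ≤ ε₀ → ε * (‖ν‖ * q) ≤ 1 →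
      0 ≤ ⟪pm ℓ (fl ℓ h (Y k)) - pm ℓ (Y (k + 1)), ν⟫ +
        2 * C * (‖ν‖ * q) ^ 2 * h * ε := by
    intro ε hε0 hεε hεq
    set δ : ℝ := ε * (‖ν‖ * q) with hδ
    obtain ⟨v1, hv1a, hv1b⟩ := hexi (Y k).1 ((fl ℓ h (Y k)).1 + ε • ν) (by
      have h3 := h1 ε hε0 hεε
      rwa [add_sub_right_comm])
    obtain ⟨v2, hv2a, hv2b⟩ := hexi ((Y (k + 1)).1 + ε • ν) (fl ℓ h (Y (k + 1))).1 (by
      have h3 := h2 ε hε0 hεε
      rwa [sub_add_eq_sub_sub])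
    have hs1 : ‖(fl ℓ h (Y k)).1 + ε • ν - (Y k).1‖ ≤ R * h := by
      rw [add_sub_right_comm]
      exact h1 ε hε0 hεε
    have hs2 : ‖(fl ℓ h (Y (k + 1))).1 - ((Y (k + 1)).1 + ε • ν)‖ ≤ R * h := by
      rw [sub_add_eq_sub_sub]
      exact h2 ε hε0 hεε
    have hn1 : ‖ε • ν‖ ≤ δ := by
      rw [norm_smul, Real.norm_of_nonneg hε0.le, hδ]
      have h3 : ‖ν‖ ≤ ‖ν‖ * q := le_mul_of_one_le_right (norm_nonneg _) hq1
      gcongr
    have hn2 : ‖h⁻¹ • (ε • ν)‖ ≤ δ := by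
      rw [norm_smul, norm_smul, norm_inv, Real.norm_of_nonneg h0.le,
        Real.norm_of_nonneg hε0.le, hδ]
      calc h⁻¹ * (ε * ‖ν‖) = ε * (‖ν‖ * h⁻¹) := by ring
        _ ≤ ε * (‖ν‖ * q) := by gcongr
    have hδ0 : 0 ≤ δ := (norm_nonneg _).trans hn1
    have hA1 := chn_arc hT h0 hC harc (z0 := Y k) (z1 := ((Y k).1, v1)) (a := 0) (b := ε • ν)
      (δ := δ) (hvY k) (fun t ht => chn_vel h0 hs1 (hv1b t ht)) (by simp) hv1a hεq
      (by rwa [norm_zero]) hn1 (by rwa [sub_zero])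
    have hA2 := chn_arc hT h0 hC harc (z0 := Y (k + 1)) (z1 := ((Y (k + 1)).1 + ε • ν, v2))
      (a := ε • ν) (b := 0) (δ := δ) (hvY (k + 1)) (fun t ht => chn_vel h0 hs2 (hv2b t ht)) rfl
      (by rw [hv2a, add_zero]) hεq hn1 (by rwa [norm_zero])
      (by rwa [zero_sub, smul_neg, norm_neg])
    -- the modified chain
    obtain ⟨Y', hY'⟩ : ∃ Y' : Fin (N + 2) → Vec n × Vec n, Y' =
      Function.update (Function.update Y k ((Y k).1, v1)) (k + 1) ((Y (k + 1)).1 + ε • ν, v2) :=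
      ⟨_, rfl⟩
    have g1 : Y' (k + 1) = ((Y (k + 1)).1 + ε • ν, v2) := by rw [hY', Function.update_self]
    have g0 : Y' k = ((Y k).1, v1) := by
      rw [hY', Function.update_of_ne hkk, Function.update_self]
    have g2 : ∀ j, j ≠ k → j ≠ k + 1 → Y' j = Y j := by
      intro j hj hj'
      rw [hY', Function.update_of_ne hj', Function.update_of_ne hj]
    have g3 : ∀ j, j ≠ k + 1 → (Y' j).1 = (Y j).1 := by
      intro j hj'
      by_cases hj : j = k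
      · rw [hj, g0]
      · rw [g2 j hj hj']
    have hk2 : ∀ i, i ≠ k → i + 1 ≠ k + 1 := fun i hi h3 => hi (add_right_cancel h3)
    have hch : Chain ℓ h R l Y' := by
      refine ⟨?_, ?_, ?_⟩
      · intro i
        by_cases hi : i = k
        · rw [hi, g0, g1, hv1a, hY.join k]
          exact add_right_comm _ _ _
        · rw [g3 (i + 1) (hk2 i hi)]
          by_cases hi' : i = k + 1
          · rw [hi', g1, hv2a]
            exact hY.join (k + 1)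
          · rw [g2 i hi hi']
            exact hY.join i
      · intro i
        by_cases hi : i = k
        · rw [hi, g0, hv1a]
          exact hs1
        · by_cases hi' : i = k + 1
          · rw [hi', g1, hv2a]
            exact hs2
          · rw [g2 i hi hi']
            exact hY.step i
      · intro i t ht
        by_cases hi : i = k
        · rw [hi, g0, hv1a]
          exact hv1b t ht
        · by_cases hi' : i = k + 1
          · rw [hi', g1, hv2a]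
            exact hv2b t ht
          · rw [g2 i hi hi']
            exact hY.vel i t ht
    have hsum := hmin Y' hch
    have hdiff : ∑ i, (Ax ℓ h (Y' i) - Ax ℓ h (Y i)) =
        (Ax ℓ h (Y' k) - Ax ℓ h (Y k)) + (Ax ℓ h (Y' (k + 1)) - Ax ℓ h (Y (k + 1))) := by
      rw [← Finset.sum_pair (f := fun i => Ax ℓ h (Y' i) - Ax ℓ h (Y i)) hkk]
      refine (Finset.sum_subset (Finset.subset_univ _) ?_).symm
      intro i _ hi
      rw [Finset.mem_insert, Finset.mem_singleton, not_or] at hi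
      rw [g2 i hi.1 hi.2, sub_self]
    rw [Finset.sum_sub_distrib] at hdiff
    rw [g0, g1] at hdiff
    rw [inner_zero_right, inner_smul_right] at hA1 hA2
    have h3 : 0 ≤ ε * (⟪pm ℓ (fl ℓ h (Y k)) - pm ℓ (Y (k + 1)), ν⟫ +
        2 * C * (‖ν‖ * q) ^ 2 * h * ε) := by
      have h4 : ε * (⟪pm ℓ (fl ℓ h (Y k)) - pm ℓ (Y (k + 1)), ν⟫ +
          2 * C * (‖ν‖ * q) ^ 2 * h * ε) =
          ε * ⟪pm ℓ (fl ℓ h (Y k)), ν⟫ - ε * ⟪pm ℓ (Y (k + 1)), ν⟫ +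
            2 * (C * δ ^ 2 * h) := by
        rw [inner_sub_left, hδ]
        ring
      rw [h4]
      linarith
    exact nonneg_of_mul_nonneg_right h3 hε0
  by_contra hneg
  push Not at hneg
  set A : ℝ := ⟪pm ℓ (fl ℓ h (Y k)) - pm ℓ (Y (k + 1)), ν⟫ with hA
  set B : ℝ := 2 * C * (‖ν‖ * q) ^ 2 * h with hB
  have hB0 : 0 ≤ B := by positivity
  set ε : ℝ := min ε₀ (min (1 / (‖ν‖ * q + 1)) (-A / (2 * (B + 1)))) with hεd
  have hνq : 0 ≤ ‖ν‖ * q := by positivity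
  have he1 : ε ≤ ε₀ := min_le_left _ _
  have he2 : ε ≤ 1 / (‖ν‖ * q + 1) := (min_le_right _ _).trans (min_le_left _ _)
  have he3 : ε ≤ -A / (2 * (B + 1)) := (min_le_right _ _).trans (min_le_right _ _)
  have he0 : 0 < ε := by
    refine lt_min hε (lt_min (by positivity) ?_)
    exact div_pos (by linarith) (by positivity)
  have he4 : ε * (‖ν‖ * q) ≤ 1 := by
    calc ε * (‖ν‖ * q) ≤ 1 / (‖ν‖ * q + 1) * (‖ν‖ * q + 1) := by
          gcongr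
          linarith
      _ = 1 := by field_simp
  have h3 := key ε he0 he1 he4
  have h4 : B * ε ≤ -A / 2 := by
    calc B * ε ≤ (B + 1) * (-A / (2 * (B + 1))) := by
          gcongr
          linarith
      _ = -A / 2 := by field_simp
  linarith

end Pool.Agent.DV
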