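import Pool.Agent.DV.Chn

/-!
# MP_74f563_an (D2), block V, file DV/Clo: minimal closed curves of fixed duration are closed orbits

PROOF of `slow`.  `C₁` from `sup_bound` with `B = 1`: `‖W‖ ≤ ℓ + C₁`, so
`∫_0^h ‖(fl t z).2‖ dt ≤ A h + C₁ h`; if `‖(fl t z).2‖ > A + C₁` for all `t ∈ [0,h]` the integral
would be
larger (continuity, `h > 0`).  So `‖(fl t z).2‖ ≤ A + C₁` for some `t`, and `en ℓ z = en ℓ (fl t
z) ≤ e₀`,
the bound of `|en|` on `‖v‖ ≤ A + C₁` (`Pr.en`, `Pr.bdd`, `Lag.en_smooth`, `Ton.en_fl`).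

PROOF of `closed_orbit`.  `M` a bound of `‖u‖` on `[0,T]` (`M ≥ 0`), `A = act ℓ z u 0 T / T`, `e₀`
from `slow`
for this `A`, `Ω` from `en_bdd` for `e₀`, `Q` a bound of `‖pm‖` on `‖v‖ ≤ Ω` (`Pr.bdd`, `Q ≥ 0`),
`C_B` from
`sup_bound` with `B = Q + 1`, `C₂` a bound of `|ℓ|` on `‖v‖ ≤ 1`.  Let
`R = max M (max Ω (Q + 1 + C_B + C₂)) + 1`,
`τ` = the minimum of the `τ`'s of `exi hT R` and `arc_min hl hp (R + 1)`; choose `N` with
`h = T/(N+2) ≤ τ`.
`l i = m` for the last index (`i.val = N + 1`), `0` otherwise.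
CHAIN: `x_i = z (i h)`, `‖x_{i+1} - x_i‖ ≤ M h` (mean value inequality for `VCv`: `VCv.ftc` on the
restriction
and the norm of the integral), `Y i = (x_i, v_i)` with `v_i` from `exi`: a chain (`zv 0 = 0`; at the
last index `z T = z 0 + zv m`), and `Ax h (Y i) ≤ act ℓ z u (i h) ((i+1) h)` (`arc_min` after the
time
shift `Sol.shift0`, or for the shifted curve `vcv_shift0`, `act_shift0`; `Ton.act_sol`), so the
sum is
`≤ act ℓ z u 0 T` (`act_add`, induction).  Let `Y` be a minimal chain (`exists_min_chain`).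
START: some `j` has `Ax h (Y j) ≤ A h` (the sum of the `N+2` terms is `≤ A T = (N+2) A h`), so
`en (Y j) ≤ e₀` (`slow`); velocities on this arc `≤ Ω`, so `‖Δ_j‖ ≤ Ω h < R h`.
STEP (`step_on`): if `en (Y i) ≤ e₀` and `‖Δ_i‖ < R h` then `‖Δ_{i+1}‖ < R h`,
`fl h (Y i) = ((Y (i+1)).1 + zv (l i), (Y (i+1)).2)` and `en (Y (i+1)) ≤ e₀`.
 Suppose `‖Δ_{i+1}‖ = R h`; `ν = Δ_{i+1}/(R h)`.  `node` for small `ε₀`: `‖Δ_i + ε ν‖ ≤ ‖Δ_i‖ + ε`,
 `‖Δ_{i+1} - ε ν‖ = R h - ε`.  So `⟪pm (Y (i+1)), ν⟫ ≤ ⟪pm (fl h (Y i)), ν⟫ ≤ Q` (`en (fl h (Y i))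
≤ e₀`,
 `en_bdd`).  `v = (Y (i+1)).2` satisfies `‖v - R ν‖ ≤ 1` (`vel` at `t = 0`); `conv_ineq` with
 `w = v - R ν`: `ℓ(x,v) - R ⟪pm, ν⟫ ≤ ℓ(x,w) ≤ C₂`, and `ℓ(x,v) ≥ (Q+1)(R - 1) - C_B`; so
 `(Q+1)(R-1) - C_B - C₂ ≤ R Q`, `R ≤ Q + 1 + C_B + C₂`: contradiction.
 So `‖Δ_{i+1}‖ < R h`; now `node` holds for all `ν` (`ε₀` small), so (`ν` and `-ν`, or
 `ν = -(P⁺ - P⁻)`) `pm (fl h (Y i)) = pm (Y (i+1))`; `pm` is periodic, `Lag.lam_inj`: velocities
 agree.  `en` is periodic.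
CONCLUSION: by induction on `t : ℕ` the step holds at all indices `j + t`, so at all `i : Fin
(N+2)`.
Then for `t ≤ N + 2`: `fl (t h) (Y 0) = ((Y t).1 + zv (∑_{s<t} l s), (Y t).2)` and
`Ax (t h) (Y 0) = ∑_{s<t} Ax h (Y s)` (`Ton.add`, `Ton.shift`, `Ton.ax_add`, `Ton.ax_shift`); at
`t = N + 2`:
`fl T (Y 0) = ((Y 0).1 + zv m, (Y 0).2)`.
-/

set_option autoImplicit false

namespace Pool.Agent.DV

open Set Filter Topology MeasureTheory Pool.Agent.MechAlpha Pool.Agent.DF Pool.Agent.LRig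
open scoped ContDiff RealInnerProductSpace

variable {n : ℕ} {ℓ : Vec n × Vec n → ℝ}

private theorem zv_add' (m m' : Fin n → ℤ) : (zv (m + m') : Vec n) = zv m + zv m' := by
  ext i
  simp [zv]

private theorem zv_zero' : (zv (0 : Fin n → ℤ) : Vec n) = 0 := by
  ext i
  simp [zv]

theorem slow (hT : Ton ℓ) (A : ℝ) : ∃ e₀ : ℝ, ∀ (z : Vec n × Vec n) (h : ℝ), 0 < h →
    Ax ℓ h z ≤ A * h → en ℓ z ≤ e₀ := by
  obtain ⟨C₁, -, hC₁⟩ := sup_bound hT.lag hT.per 1
  obtain ⟨C, -, hC⟩ := hT.per.en.bdd hT.lag.en_smooth.continuous (A + C₁)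
  refine ⟨C, fun z h h0 hA => ?_⟩
  have hex : ∃ t ∈ Icc 0 h, ‖(fl ℓ t z).2‖ ≤ A + C₁ := by
    by_contra hcon
    push Not at hcon
    have hlow : ∀ t ∈ Icc 0 h, A < ℓ (fl ℓ t z) := by
      intro t ht
      have h1 := hC₁ (fl ℓ t z).1 (fl ℓ t z).2
      have h2 := hcon t ht
      simp only [Prod.mk.eta] at h1
      linarith
    have hc : Continuous fun t : ℝ => ℓ (fl ℓ t z) :=
      hT.cl.comp (hT.cont.comp (Continuous.prodMk_left z))
    have h3 : ∫ _t in (0 : ℝ)..h, A < ∫ t in (0 : ℝ)..h, ℓ (fl ℓ t z) :=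
      intervalIntegral.integral_lt_integral_of_continuousOn_of_le_of_exists_lt h0
        continuousOn_const hc.continuousOn (fun t ht => (hlow t (Ioc_subset_Icc_self ht)).le)
        ⟨0, left_mem_Icc.2 h0.le, hlow 0 (left_mem_Icc.2 h0.le)⟩
    rw [intervalIntegral.integral_const, smul_eq_mul, sub_zero] at h3
    unfold Ax at hA
    linarith
  obtain ⟨t, -, ht⟩ := hex
  have h4 := hC (fl ℓ t z).1 (fl ℓ t z).2 ht
  simp only [Prod.mk.eta] at h4
  rw [hT.en_fl] at h4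
  exact (le_abs_self _).trans h4

/-- displacement and velocity -/
private theorem disp_le (hT : Ton ℓ) {Ω h : ℝ} (h0 : 0 ≤ h) {z : Vec n × Vec n}
    (hv : ∀ t, ‖(fl ℓ t z).2‖ ≤ Ω) : ‖(fl ℓ h z).1 - z.1‖ ≤ Ω * h := by
  have h1 := (hT.vcv z h0).ftc
  rw [hT.zero] at h1
  rw [← h1]
  have h2 := intervalIntegral.norm_integral_le_of_norm_le_const (a := (0 : ℝ)) (b := h)
    (f := fun t => (fl ℓ t z).2) (C := Ω) fun t _ => hv t
  rwa [sub_zero, abs_of_nonneg h0] at h2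

/-- a chain inscribed in a curve -/
private theorem chain_of_curve (hT : Ton ℓ) {z u : ℝ → Vec n} {T : ℝ} (h0 : 0 < T)
    (hz : VCv z u 0 T) {m : Fin n → ℤ} (hm : z T = z 0 + zv m) {N : ℕ} {h R M : ℝ}
    (hh : 0 < h) (hN : ((N : ℝ) + 2) * h = T) (hM : ∀ t ∈ Icc 0 T, ‖u t‖ ≤ M) (hMR : M ≤ R)
    (hexi : ∀ x y : Vec n, ‖y - x‖ ≤ R * h → ∃ v : Vec n, (fl ℓ h (x, v)).1 = y ∧
      ∀ t ∈ Icc 0 h, ‖(fl ℓ t (x, v)).2 - h⁻¹ • (y - x)‖ ≤ 1)
    (harc : ∀ (X W z u : ℝ → Vec n) (a b : ℝ), Sol ℓ X W → VCv z u a b → b - a ≤ h →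
      (∀ t ∈ Icc a b, ‖W t‖ ≤ R + 1) → z a = X a → z b = X b → act ℓ X W a b ≤ act ℓ z u a b) :
    ∃ Y : Fin (N + 2) → Vec n × Vec n,
      Chain ℓ h R (fun i : Fin (N + 2) => if i.val = N + 1 then m else 0) Y ∧
      ∑ i, Ax ℓ h (Y i) ≤ act ℓ z u 0 T := by
  have hmem : ∀ k : ℕ, k ≤ N + 2 → (k : ℝ) * h ∈ Icc 0 T := by
    intro k hk
    have hk' : (k : ℝ) ≤ (N : ℝ) + 2 := by exact_mod_cast hk
    refine ⟨by positivity, ?_⟩
    rw [← hN]
    exact mul_le_mul_of_nonneg_right hk' hh.le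
  have hstep : ∀ k : ℕ, k < N + 2 → ‖z (((k : ℝ) + 1) * h) - z (k * h)‖ ≤ R * h := by
    intro k hk
    have h1 := hmem k hk.le
    have h2 := hmem (k + 1) hk
    push_cast at h2
    have hle : (k : ℝ) * h ≤ ((k : ℝ) + 1) * h := by nlinarith
    have h3 := (hz.restrict h1.1 hle h2.2).ftc
    rw [← h3]
    have h4 := intervalIntegral.norm_integral_le_of_norm_le_const (a := (k : ℝ) * h)
      (b := ((k : ℝ) + 1) * h) (f := u) (C := M) fun t ht => by
        rw [uIoc_of_le hle] at ht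
        exact hM t ⟨h1.1.trans ht.1.le, ht.2.trans h2.2⟩
    refine h4.trans ?_
    have h5 : |((k : ℝ) + 1) * h - k * h| = h := by
      rw [abs_of_nonneg (by linarith)]
      ring
    rw [h5]
    exact mul_le_mul_of_nonneg_right hMR hh.le
  have hv : ∀ k : ℕ, k < N + 2 → ∃ v : Vec n, (fl ℓ h (z (k * h), v)).1 = z (((k : ℝ) + 1) * h) ∧
      ∀ t ∈ Icc 0 h, ‖(fl ℓ t (z (k * h), v)).2 -
        h⁻¹ • (z (((k : ℝ) + 1) * h) - z (k * h))‖ ≤ 1 := fun k hk => hexi _ _ (hstep k hk)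
  choose! v hv1 hv2 using hv
  refine ⟨fun i => (z ((i.val : ℝ) * h), v i.val), ⟨?_, ?_, ?_⟩, ?_⟩
  · intro i
    rw [hv1 i.val i.isLt]
    by_cases hi : i.val = N + 1
    · have hi1 : (i + 1).val = 0 := by
        have h1 : i = Fin.last (N + 1) := Fin.ext hi
        rw [h1, Fin.last_add_one]
        rfl
      simp only [hi1, hi, if_true]
      push_cast
      rw [zero_mul, ← hm, ← hN]
      congr 1
      ring
    · have hi1 : (i + 1).val = i.val + 1 := by
        refine Fin.val_add_one_of_lt ?_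
        rw [Fin.lt_def, Fin.val_last]
        have := i.isLt
        omega
      simp only [hi1, hi, if_false]
      push_cast
      rw [zv_zero', add_zero]
  · intro i
    rw [hv1 i.val i.isLt]
    exact hstep i.val i.isLt
  · intro i t ht
    rw [hv1 i.val i.isLt]
    exact hv2 i.val i.isLt t ht
  · -- the actions
    have hle : ∀ k : ℕ, k < N + 2 → Ax ℓ h (z ((k : ℝ) * h), v k) ≤
        act ℓ z u (k * h) (((k : ℝ) + 1) * h) := by
      intro k hk
      have h1 := hmem k hk.le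
      have h2 := hmem (k + 1) hk
      push_cast at h2
      have hle' : (k : ℝ) * h ≤ ((k : ℝ) + 1) * h := by nlinarith
      have hS := (hT.sol (z ((k : ℝ) * h), v k)).shift0 ((k : ℝ) * h)
      have e1 : ((k : ℝ) + 1) * h - k * h = h := by ring
      have h3 := harc _ _ z u ((k : ℝ) * h) (((k : ℝ) + 1) * h) hS (hz.restrict h1.1 hle' h2.2)
        (by rw [e1]) (by
          intro t ht
          have ht' : t - (k : ℝ) * h ∈ Icc 0 h := by
            refine ⟨by linarith [ht.1], ?_⟩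
            have := ht.2
            linarith
          have h4 := hv2 k hk _ ht'
          have h5 : ‖h⁻¹ • (z (((k : ℝ) + 1) * h) - z (k * h))‖ ≤ R := by
            rw [norm_smul, norm_inv, Real.norm_of_nonneg hh.le, inv_mul_le_iff₀ hh,
              mul_comm h R]
            exact hstep k hk
          have h6 : (fl ℓ (t - (k : ℝ) * h) (z ((k : ℝ) * h), v k)).2 =
            ((fl ℓ (t - (k : ℝ) * h) (z ((k : ℝ) * h), v k)).2 -
              h⁻¹ • (z (((k : ℝ) + 1) * h) - z (k * h))) +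
              h⁻¹ • (z (((k : ℝ) + 1) * h) - z (k * h)) := by abel
          rw [h6]
          refine (norm_add_le _ _).trans ?_
          linarith)
        (by
          simp only [sub_self]
          rw [hT.zero])
        (by
          simp only [e1]
          rw [hv1 k hk])
      have h4 := act_shift0 ℓ (fun s => (fl ℓ s (z ((k : ℝ) * h), v k)).1)
        (fun s => (fl ℓ s (z ((k : ℝ) * h), v k)).2) 0 h ((k : ℝ) * h)
      have e2 : h + (k : ℝ) * h = ((k : ℝ) + 1) * h := by ring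
      rw [zero_add, e2] at h4
      rw [Ax_eq, ← h4]
      exact h3
    have hsum : ∀ k : ℕ, k ≤ N + 2 → ∑ i ∈ Finset.range k,
        act ℓ z u ((i : ℝ) * h) (((i : ℝ) + 1) * h) = act ℓ z u 0 (k * h) := by
      intro k
      induction k with
      | zero =>
        intro _
        simp [act_self]
      | succ k ih =>
        intro hk
        have h1 := hmem k (by omega)
        have h2 := hmem (k + 1) hk
        push_cast at h2
        have hle' : (k : ℝ) * h ≤ ((k : ℝ) + 1) * h := by nlinarith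
        rw [Finset.sum_range_succ, ih (by omega)]
        push_cast
        exact act_add hT.cl (hz.restrict le_rfl (h1.1.trans hle') h2.2) h1.1 hle'
    have h1 : ∑ i : Fin (N + 2), Ax ℓ h (z ((i.val : ℝ) * h), v i.val) =
        ∑ i ∈ Finset.range (N + 2), Ax ℓ h (z ((i : ℝ) * h), v i) :=
      (Finset.sum_range fun i : ℕ => Ax ℓ h (z ((i : ℝ) * h), v i)).symm
    have h2 : ∑ i ∈ Finset.range (N + 2), Ax ℓ h (z ((i : ℝ) * h), v i) ≤
        ∑ i ∈ Finset.range (N + 2), act ℓ z u ((i : ℝ) * h) (((i : ℝ) + 1) * h) :=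
      Finset.sum_le_sum fun i hi => hle i (Finset.mem_range.1 hi)
    have h3 := hsum (N + 2) le_rfl
    push_cast at h3
    rw [hN] at h3
    change ∑ i : Fin (N + 2), Ax ℓ h (z ((i.val : ℝ) * h), v i.val) ≤ _
    rw [h1]
    linarith

private def ix (N t : ℕ) : Fin (N + 2) := ⟨t % (N + 2), Nat.mod_lt _ (by omega)⟩

private theorem ix_succ (N t : ℕ) : ix N (t + 1) = ix N t + 1 := by
  refine Fin.ext ?_
  rw [Fin.val_add, Fin.val_one]
  change (t + 1) % (N + 2) = (t % (N + 2) + 1) % (N + 2)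
  rw [Nat.mod_add_mod]

private theorem ix_zero (N : ℕ) : ix N 0 = 0 := Fin.ext (Nat.zero_mod _)

private theorem ix_val {N : ℕ} (i : Fin (N + 2)) : ix N i.val = i :=
  Fin.ext (Nat.mod_eq_of_lt i.isLt)

private theorem ix_self (N : ℕ) : ix N (N + 2) = 0 := Fin.ext (Nat.mod_self _)

/-- the chain of solutions closes up to a solution -/
private theorem link_up (hT : Ton ℓ) {N : ℕ} {h : ℝ} {l : Fin (N + 2) → Fin n → ℤ}
    {Y : Fin (N + 2) → Vec n × Vec n}
    (hl : ∀ i, fl ℓ h (Y i) = ((Y (i + 1)).1 + zv (l i), (Y (i + 1)).2)) (t : ℕ) :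
    fl ℓ (t * h) (Y 0) = ((Y (ix N t)).1 +
      zv (∑ s ∈ Finset.range t, l (ix N s)), (Y (ix N t)).2) ∧
    Ax ℓ (t * h) (Y 0) = ∑ s ∈ Finset.range t, Ax ℓ h (Y (ix N s)) := by
  induction t with
  | zero =>
    simp only [Nat.cast_zero, zero_mul, Finset.range_zero, Finset.sum_empty]
    refine ⟨?_, ?_⟩
    · rw [hT.zero, zv_zero', add_zero, ix_zero]
    · unfold Ax
      exact intervalIntegral.integral_same
  | succ t ih =>
    obtain ⟨ih1, ih2⟩ := ih
    have e1 : ((t + 1 : ℕ) : ℝ) * h = h + t * h := by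
      push_cast
      ring
    have e2 : ((t + 1 : ℕ) : ℝ) * h = t * h + h := by
      push_cast
      ring
    refine ⟨?_, ?_⟩
    · rw [e1, hT.add, ih1, hT.shift, hl, Finset.sum_range_succ, ix_succ, zv_add']
      refine Prod.ext ?_ rfl
      simp only
      abel
    · rw [e2, hT.ax_add, ih1, ih2, hT.ax_shift, Finset.sum_range_succ]

theorem closed_orbit (hT : Ton ℓ) {z u : ℝ → Vec n} {T : ℝ} (h0 : 0 < T) (hz : VCv z u 0 T)
    {m : Fin n → ℤ} (hm : z T = z 0 + zv m) :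
    ∃ y : Vec n × Vec n, fl ℓ T y = (y.1 + zv m, y.2) ∧ Ax ℓ T y ≤ act ℓ z u 0 T := by
  obtain ⟨M₀, hM₀⟩ := hz.bdd
  set M : ℝ := max M₀ 0 with hMdef
  have hM : ∀ t ∈ Icc 0 T, ‖u t‖ ≤ M := fun t ht => (hM₀ t ht).trans (le_max_left _ _)
  set A : ℝ := act ℓ z u 0 T / T with hA
  obtain ⟨e₀, he₀⟩ := slow hT A
  obtain ⟨Ω, hΩ0, hΩ⟩ := en_bdd hT.lag hT.per e₀
  obtain ⟨Q, hQ0, hQ⟩ := hT.per.pm.bdd hT.lag.pm_smooth.continuous Ω
  obtain ⟨CB, hCB0, hCB⟩ := sup_bound hT.lag hT.per (Q + 1)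
  obtain ⟨C₂, hC₂0, hC₂⟩ := hT.per.bdd hT.cl 1
  set R : ℝ := max M (max Ω (Q + 1 + CB + C₂)) + 1 with hR
  have hRM : M ≤ R := (le_max_left _ _).trans (by linarith [le_refl R])
  have hRΩ : Ω + 1 ≤ R := by
    have := (le_max_left Ω (Q + 1 + CB + C₂)).trans (le_max_right M _)
    linarith
  have hRQ : Q + 1 + CB + C₂ + 1 ≤ R := by
    have := (le_max_right Ω (Q + 1 + CB + C₂)).trans (le_max_right M _)
    linarith
  have hR0 : 0 < R := by linarith
  obtain ⟨τ₁, hτ₁, hexi⟩ := exi hT R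
  obtain ⟨τ₂, hτ₂, harc⟩ := arc_min hT.lag hT.per (R + 1)
  set τ : ℝ := min τ₁ τ₂ with hτ
  have hτ0 : 0 < τ := lt_min hτ₁ hτ₂
  obtain ⟨N, hN⟩ := exists_nat_ge (T / τ)
  set h : ℝ := T / ((N : ℝ) + 2) with hh
  have hN2 : (0 : ℝ) < (N : ℝ) + 2 := by positivity
  have hh0 : 0 < h := div_pos h0 hN2
  have hNh : ((N : ℝ) + 2) * h = T := mul_div_cancel₀ _ hN2.ne'
  have hhτ : h ≤ τ := by
    rw [hh, div_le_iff₀ hN2]
    rw [div_le_iff₀ hτ0] at hN
    nlinarith
  have hexi' := hexi h hh0 (hhτ.trans (min_le_left _ _))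
  have harc' : ∀ (X W z u : ℝ → Vec n) (a b : ℝ), Sol ℓ X W → VCv z u a b → b - a ≤ h →
      (∀ t ∈ Icc a b, ‖W t‖ ≤ R + 1) → z a = X a → z b = X b → act ℓ X W a b ≤ act ℓ z u a b :=
    fun X W z u a b h1 h2 h3 h4 h5 h6 => harc X W z u a b h1 h2
      (h3.trans (hhτ.trans (min_le_right _ _))) h4 h5 h6
  set l : Fin (N + 2) → Fin n → ℤ := fun i => if i.val = N + 1 then m else 0 with hl
  obtain ⟨Y₀, hY₀, hs₀⟩ := chain_of_curve hT h0 hz hm hh0 hNh hM hRM hexi' harc'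
  obtain ⟨Y, hY, hmin⟩ := exists_min_chain hT hh0 (l := l) ⟨Y₀, hY₀⟩
  have hsum : ∑ i, Ax ℓ h (Y i) ≤ act ℓ z u 0 T := (hmin Y₀ hY₀).trans hs₀
  -- the start
  obtain ⟨j, hj⟩ : ∃ j, Ax ℓ h (Y j) ≤ A * h := by
    have h1 : ∑ i, Ax ℓ h (Y i) ≤ ∑ _i : Fin (N + 2), A * h := by
      rw [Finset.sum_const, Finset.card_univ, Fintype.card_fin, nsmul_eq_mul]
      push_cast
      have e : ((N : ℝ) + 2) * (A * h) = act ℓ z u 0 T := by
        calc ((N : ℝ) + 2) * (A * h) = A * (((N : ℝ) + 2) * h) := by ring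
          _ = A * T := by rw [hNh]
          _ = act ℓ z u 0 T := div_mul_cancel₀ _ h0.ne'
      rw [e]
      exact hsum
    obtain ⟨j, -, hj⟩ := Finset.exists_le_of_sum_le Finset.univ_nonempty h1
    exact ⟨j, hj⟩
  have hj0 : en ℓ (Y j) ≤ e₀ := he₀ _ _ hh0 hj
  -- small displacement
  have hvel : ∀ y : Vec n × Vec n, en ℓ y ≤ e₀ → ∀ t, ‖(fl ℓ t y).2‖ ≤ Ω := by
    intro y hy t
    have h1 := hT.en_fl t y
    exact hΩ (fl ℓ t y).1 (fl ℓ t y).2 (by
      simp only [Prod.mk.eta]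
      rw [h1]
      exact hy)
  have hdisp : ∀ y : Vec n × Vec n, en ℓ y ≤ e₀ → ‖(fl ℓ h y).1 - y.1‖ < R * h := by
    intro y hy
    refine (disp_le hT hh0.le (hvel y hy)).trans_lt ?_
    exact mul_lt_mul_of_pos_right (by linarith) hh0
  -- the step
  have hstep : ∀ i, en ℓ (Y i) ≤ e₀ →
      fl ℓ h (Y i) = ((Y (i + 1)).1 + zv (l i), (Y (i + 1)).2) ∧ en ℓ (Y (i + 1)) ≤ e₀ := by
    intro i hi
    have hd1 := hdisp _ hi
    have hd2 : ‖(fl ℓ h (Y (i + 1))).1 - (Y (i + 1)).1‖ < R * h := by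
      by_contra hcon
      have heq : ‖(fl ℓ h (Y (i + 1))).1 - (Y (i + 1)).1‖ = R * h :=
        le_antisymm (hY.step _) (not_lt.1 hcon)
      have hRh : 0 < R * h := mul_pos hR0 hh0
      set Δ : Vec n := (fl ℓ h (Y (i + 1))).1 - (Y (i + 1)).1 with hΔ
      set ν : Vec n := (R * h)⁻¹ • Δ with hν
      have hνn : ‖ν‖ = 1 := by
        rw [hν, norm_smul, norm_inv, Real.norm_of_nonneg hRh.le, heq, inv_mul_cancel₀ hRh.ne']
      have hΔν : Δ = (R * h) • ν := by
        rw [hν, smul_smul, mul_inv_cancel₀ hRh.ne', one_smul]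
      have hnode := node hT hh0 hR0.le hexi' harc' hY hmin i (ν := ν)
        (ε₀ := min (R * h - ‖(fl ℓ h (Y i)).1 - (Y i).1‖) (R * h))
        (lt_min (by linarith) hRh)
        (by
          intro ε hε hε'
          have h1 := hε'.trans (min_le_left _ _)
          refine (norm_add_le _ _).trans ?_
          rw [norm_smul, Real.norm_of_nonneg hε.le, hνn]
          linarith)
        (by
          intro ε hε hε'
          have h1 := hε'.trans (min_le_right _ _)
          have h2 : (fl ℓ h (Y (i + 1))).1 - (Y (i + 1)).1 - ε • ν = (R * h - ε) • ν := by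
            rw [← hΔ, hΔν, sub_smul]
          rw [h2, norm_smul, hνn, mul_one, Real.norm_of_nonneg (by linarith)]
          linarith)
      rw [inner_sub_left] at hnode
      -- the momentum at the end of the previous arc
      have h1 : ⟪pm ℓ (fl ℓ h (Y i)), ν⟫ ≤ Q := by
        refine (real_inner_le_norm _ _).trans ?_
        rw [hνn, mul_one]
        exact hQ (fl ℓ h (Y i)).1 (fl ℓ h (Y i)).2 (hvel _ hi h)
      set x : Vec n := (Y (i + 1)).1 with hx
      set v : Vec n := (Y (i + 1)).2 with hv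
      have hYxv : Y (i + 1) = (x, v) := rfl
      have h2 : ‖v - R • ν‖ ≤ 1 := by
        have h3 := hY.vel (i + 1) 0 (left_mem_Icc.2 hh0.le)
        rw [hT.zero, ← hΔ] at h3
        have h4 : h⁻¹ • Δ = R • ν := by
          rw [hν, smul_smul]
          congr 1
          field_simp
        rw [h4] at h3
        exact h3
      have h3 := conv_ineq hT.lag x v (v - R • ν)
      have h4 : v - R • ν - v = -(R • ν) := by abel
      rw [h4, inner_neg_right, inner_smul_right] at h3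
      have h5 := hC₂ x (v - R • ν) h2
      have h6 := (le_abs_self _).trans h5
      have h7 := hCB x v
      have h8 : R - 1 ≤ ‖v‖ := by
        have h9 : ‖R • ν‖ = R := by
          rw [norm_smul, hνn, mul_one, Real.norm_of_nonneg hR0.le]
        have h10 : ‖R • ν‖ ≤ ‖v‖ + ‖v - R • ν‖ := by
          have h11 : R • ν = v - (v - R • ν) := by abel
          calc ‖R • ν‖ = ‖v - (v - R • ν)‖ := by rw [← h11]
            _ ≤ _ := norm_sub_le _ _
        rw [h9] at h10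
        linarith
      have h9 : ⟪pm ℓ (x, v), ν⟫ ≤ Q := by
        rw [hYxv] at hnode
        linarith
      have h10 : (Q + 1) * (R - 1) ≤ (Q + 1) * ‖v‖ :=
        mul_le_mul_of_nonneg_left h8 (by linarith)
      have h11 : R * ⟪pm ℓ (x, v), ν⟫ ≤ R * Q := mul_le_mul_of_nonneg_left h9 hR0.le
      nlinarith
    set P : Vec n := pm ℓ (fl ℓ h (Y i)) - pm ℓ (Y (i + 1)) with hP
    have hP0 : P = 0 := by
      set g : ℝ := min (R * h - ‖(fl ℓ h (Y i)).1 - (Y i).1‖)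
        (R * h - ‖(fl ℓ h (Y (i + 1))).1 - (Y (i + 1)).1‖) with hg
      have hg0 : 0 < g := lt_min (by linarith) (by linarith)
      have hP1 : 0 < ‖P‖ + 1 := by positivity
      have hsm : ∀ ε : ℝ, 0 < ε → ε ≤ g / (‖P‖ + 1) → ‖ε • (-P)‖ ≤ g := by
        intro ε hε hε'
        rw [norm_smul, norm_neg, Real.norm_of_nonneg hε.le]
        rw [le_div_iff₀ hP1] at hε'
        nlinarith [norm_nonneg P]
      have hnode := node hT hh0 hR0.le hexi' harc' hY hmin i (ν := -P)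
        (ε₀ := g / (‖P‖ + 1)) (div_pos hg0 hP1)
        (by
          intro ε hε hε'
          have h1 := (hsm ε hε hε').trans (min_le_left _ _)
          refine (norm_add_le _ _).trans ?_
          linarith)
        (by
          intro ε hε hε'
          have h1 := (hsm ε hε hε').trans (min_le_right _ _)
          refine (norm_sub_le _ _).trans ?_
          linarith)
      rw [← hP, inner_neg_right, real_inner_self_eq_norm_sq] at hnode
      have h1 : ‖P‖ ^ 2 = 0 := le_antisymm (by linarith) (sq_nonneg _)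
      exact norm_eq_zero.1 (pow_eq_zero_iff two_ne_zero |>.1 h1)
    have hfl : fl ℓ h (Y i) = ((Y (i + 1)).1 + zv (l i), (Y (i + 1)).2) := by
      apply hT.lag.lam_inj
      refine Prod.ext (hY.join i) ?_
      change pm ℓ (fl ℓ h (Y i)) = pm ℓ ((Y (i + 1)).1 + zv (l i), (Y (i + 1)).2)
      rw [hT.per.pm (Y (i + 1)).1 (Y (i + 1)).2 (l i), Prod.mk.eta]
      exact sub_eq_zero.1 hP0
    refine ⟨hfl, ?_⟩
    have h1 := hT.en_fl h (Y i)
    rw [hfl, hT.per.en (Y (i + 1)).1 (Y (i + 1)).2 (l i), Prod.mk.eta] at h1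
    rw [h1]
    exact hi
  -- all indices
  have hall : ∀ t : ℕ, en ℓ (Y (j + ix N t)) ≤ e₀ := by
    intro t
    induction t with
    | zero =>
      rw [ix_zero, add_zero]
      exact hj0
    | succ t ih =>
      have h1 := (hstep _ ih).2
      rw [add_assoc] at h1
      rw [ix_succ]
      exact h1
  have hall' : ∀ i, en ℓ (Y i) ≤ e₀ := by
    intro i
    have h1 := hall (i - j).val
    rw [ix_val, add_sub_cancel] at h1
    exact h1
  have hlink : ∀ i, fl ℓ h (Y i) = ((Y (i + 1)).1 + zv (l i), (Y (i + 1)).2) :=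
    fun i => (hstep i (hall' i)).1
  obtain ⟨h1, h2⟩ := link_up hT hlink (N + 2)
  have e1 : (((N + 2 : ℕ) : ℝ)) * h = T := by
    push_cast
    exact hNh
  have e2 : ix N (N + 2) = 0 := ix_self N
  have e3 : ∑ s ∈ Finset.range (N + 2), l (ix N s) = m := by
    rw [Finset.sum_range fun s : ℕ => l (ix N s)]
    simp only [ix_val]
    rw [Fin.sum_univ_castSucc]
    have h3 : ∀ i : Fin (N + 1), l i.castSucc = 0 := by
      intro i
      have h4 : (i.castSucc : Fin (N + 2)).val ≠ N + 1 := by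
        rw [Fin.val_castSucc]
        have := i.isLt
        omega
      simp only [hl]
      rw [if_neg h4]
    have h4 : l (Fin.last (N + 1)) = m := by
      simp only [hl, Fin.val_last, if_true]
    simp only [h3, h4, Finset.sum_const_zero, zero_add]
  have e4 : ∑ s ∈ Finset.range (N + 2), Ax ℓ h (Y (ix N s)) = ∑ i, Ax ℓ h (Y i) := by
    rw [Finset.sum_range fun s : ℕ => Ax ℓ h (Y (ix N s))]
    simp only [ix_val]
  rw [e1, e2, e3] at h1
  rw [e1, e4] at h2
  exact ⟨Y 0, h1, by rw [h2]; exact hsum⟩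

end Pool.Agent.DV
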