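import Pool.Agent.DV.DisA

/-!
# MP_74f563_an (D2), block V, file DV/Dis: the minimal cost (V1), (V2), (V4)

`h0 : Clr ℓ c E₀` throughout.

PROOFS.  `dx_self`: `≥ 0` from `rch_low'` (closed curves; `(E - E₀) T ≥ 0`) and `le_dx`; `≤`: constant
curves with `T → 0`: cost `(ℓ(x,0) + E) T → 0` (`dx_le`).
`dx_tri`: for all `r, r'`: `Dx x z ≤ r + r'` (`rch_trans`, `dx_le`), then infimum over both (`le_dx`).
`dx_shift`: the two sets of costs agree (`rch_shift` for `m` and `-m`).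
`dx_le_line`: `Dx E x y ≤ C (1 + |E|) ‖y - x‖`, unit speed segment (and `dx_self` for `x = y`).
`dx_lip`: `dx_tri` and `dx_le_line`.
`dx_cont`: in `(x, y)` by `dx_lip`.  In `E`: for `E₀ < E ≤ E'`: `Dx E ≤ Dx E'` (monotone: `T > 0`) and a
curve with `act + E T ≤ Dx E x y + ε`, `ε ≤ 1`, has `T ≤ K/(E - E₀)`,
`K = 1 + Dx E x y - ⟪c, y-x⟫ + C` (`rch_low`), so `Dx E' x y ≤ Dx E x y + ε + (E'-E) K/(E-E₀)`; so
`|Dx E' x y - Dx E x y| ≤ (E' - E) K'/(E₁ - E₀)` for `E₁ ≤ E ≤ E'`, `K'` locally uniform.  Together: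
continuity on `Ioi E₀ ×ˢ univ`.
(Or: for fixed `x, y` the function `E ↦ Dx ℓ E x y` is concave on `Ioi E₀` as an infimum of affine
functions, hence continuous there, `ConcaveOn.continuousOn`; then `dx_lip`.)
`dur_bdd` (V4): if `act + E T ≤ Dx E x y + 1` for a curve then `(E - E₀) T ≤ 1 + Dx E x y - ⟪c, y-x⟫ + C`
(`rch_low`) `≤ C' (1 + ‖y - x‖)` (`dx_le_line`).
-/

set_option autoImplicit false

namespace Pool.Agent.DV

open Set Filter Topology MeasureTheory Pool.Agent.MechAlpha Pool.Agent.DF Pool.Agent.LRig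
open scoped ContDiff RealInnerProductSpace

variable {n : ℕ} {ℓ : Vec n × Vec n → ℝ} {c : Vec n} {E₀ : ℝ}

private theorem dis_zv_neg (m : Fin n → ℤ) : (zv (-m) : Vec n) = -zv m := by
  ext i
  simp [zv]

theorem dx_self (hT : Ton ℓ) (h0 : Clr ℓ c E₀) {E : ℝ} (hE : E₀ ≤ E) (x : Vec n) :
    Dx ℓ E x x = 0 := by
  obtain ⟨C, hC, hlow⟩ := rch_low' hT h0
  refine le_antisymm ?_ ?_
  · obtain ⟨C', hC', hline⟩ := rch_line hT
    by_contra hcon
    rw [not_le] at hcon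
    have hpos : 0 < |C' + E| + 1 := by positivity
    have hTpos : 0 < Dx ℓ E x x / (2 * (|C' + E| + 1)) := by positivity
    obtain ⟨r, hr, hr'⟩ := hline E x x _ hTpos (by rw [sub_self, norm_zero]; exact hTpos.le)
    have h1 := dx_le hT h0 hE hr
    have h2 : (C' + E) * (Dx ℓ E x x / (2 * (|C' + E| + 1))) ≤
        (|C' + E| + 1) * (Dx ℓ E x x / (2 * (|C' + E| + 1))) := by
      refine mul_le_mul_of_nonneg_right ?_ hTpos.le
      linarith [le_abs_self (C' + E)]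
    have h3 : (|C' + E| + 1) * (Dx ℓ E x x / (2 * (|C' + E| + 1))) = Dx ℓ E x x / 2 := by
      field_simp
    linarith
  · refine le_dx hT fun r hr => ?_
    obtain ⟨z, u, T, hT0, hz, hz0, hzT, rfl⟩ := hr
    have h1 := hlow E z u T hT0 hz
    rw [hz0, hzT, sub_self, norm_zero, mul_zero, sub_zero] at h1
    have h2 : 0 ≤ (E - E₀) * T := mul_nonneg (by linarith) hT0.le
    linarith

theorem dx_tri (hT : Ton ℓ) (h0 : Clr ℓ c E₀) {E : ℝ} (hE : E₀ ≤ E) (x y z : Vec n) :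
    Dx ℓ E x z ≤ Dx ℓ E x y + Dx ℓ E y z := by
  have h1 : Dx ℓ E x z - Dx ℓ E y z ≤ Dx ℓ E x y := by
    refine le_dx hT fun r hr => ?_
    have h2 : Dx ℓ E x z - r ≤ Dx ℓ E y z := by
      refine le_dx hT fun r' hr' => ?_
      have h3 := dx_le hT h0 hE (rch_trans hT hr hr')
      linarith
    linarith
  linarith

theorem dx_shift (hT : Ton ℓ) (E : ℝ) (x y : Vec n) (m : Fin n → ℤ) :
    Dx ℓ E (x + zv m) (y + zv m) = Dx ℓ E x y := by
  unfold Dx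
  congr 1
  ext r
  constructor
  · intro h
    have h1 := rch_shift hT h (-m)
    rw [dis_zv_neg, add_neg_cancel_right, add_neg_cancel_right] at h1
    exact h1
  · intro h
    exact rch_shift hT h m

theorem dx_le_line (hT : Ton ℓ) (h0 : Clr ℓ c E₀) : ∃ C : ℝ, 0 ≤ C ∧ ∀ E : ℝ, E₀ ≤ E →
    ∀ x y : Vec n, Dx ℓ E x y ≤ C * (1 + |E|) * ‖y - x‖ := by
  obtain ⟨C, hC, hline⟩ := rch_line hT
  refine ⟨C + 1, by linarith, fun E hE x y => ?_⟩
  by_cases hxy : y = x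
  · subst hxy
    rw [dx_self hT h0 hE, sub_self, norm_zero, mul_zero]
  · have hpos : 0 < ‖y - x‖ := norm_pos_iff.2 (sub_ne_zero.2 hxy)
    obtain ⟨r, hr, hr'⟩ := hline E x y _ hpos le_rfl
    refine (dx_le hT h0 hE hr).trans (hr'.trans ?_)
    refine mul_le_mul_of_nonneg_right ?_ hpos.le
    have h1 := le_abs_self E
    have h2 := abs_nonneg E
    nlinarith [mul_nonneg hC h2]

theorem dx_lip (hT : Ton ℓ) (h0 : Clr ℓ c E₀) : ∃ C : ℝ, 0 ≤ C ∧ ∀ E : ℝ, E₀ ≤ E →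
    ∀ x y x' y' : Vec n,
    |Dx ℓ E x' y' - Dx ℓ E x y| ≤ C * (1 + |E|) * (‖x' - x‖ + ‖y' - y‖) := by
  obtain ⟨C, hC, hline⟩ := dx_le_line hT h0
  refine ⟨C, hC, fun E hE x y x' y' => ?_⟩
  have a1 := dx_tri hT h0 hE x' x y'
  have a2 := dx_tri hT h0 hE x y y'
  have a3 := hline E hE x' x
  have a4 := hline E hE y y'
  have b1 := dx_tri hT h0 hE x x' y
  have b2 := dx_tri hT h0 hE x' y' y
  have b3 := hline E hE x x'
  have b4 := hline E hE y' y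
  rw [norm_sub_rev x x'] at a3
  rw [norm_sub_rev y y'] at b4
  rw [abs_le, mul_add]
  constructor <;> linarith

/-- lower bound -/
private theorem dis_low (hT : Ton ℓ) (h0 : Clr ℓ c E₀) : ∃ C : ℝ, 0 ≤ C ∧
    ∀ E E' : ℝ, E₀ < E → E ≤ E' → ∀ x y : Vec n, Dx ℓ E x y ≤ Dx ℓ E' x y ∧
      Dx ℓ E' x y ≤ Dx ℓ E x y + (E' - E) / (E - E₀) * (Dx ℓ E x y + C * ‖y - x‖) := by
  obtain ⟨C, hC, hlow⟩ := rch_low' hT h0
  refine ⟨C, hC, fun E E' hE hE' x y => ⟨?_, ?_⟩⟩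
  · refine le_dx hT fun r hr => ?_
    obtain ⟨z, u, T, hT0, hz, hz0, hzT, rfl⟩ := hr
    have h1 := dx_le hT h0 hE.le ⟨z, u, T, hT0, hz, hz0, hzT, rfl⟩
    have h2 : E * T ≤ E' * T := mul_le_mul_of_nonneg_right hE' hT0.le
    linarith
  · have hd : 0 < E - E₀ := sub_pos.2 hE
    have ha : 0 ≤ (E' - E) / (E - E₀) := div_nonneg (by linarith) hd.le
    set a := (E' - E) / (E - E₀) with hadef
    have ha' : a * (E - E₀) = E' - E := by
      rw [hadef]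
      field_simp
    have h1 : (Dx ℓ E' x y - a * (C * ‖y - x‖)) / (1 + a) ≤ Dx ℓ E x y := by
      refine le_dx hT fun r hr => ?_
      obtain ⟨z, u, T, hT0, hz, hz0, hzT, rfl⟩ := hr
      rw [div_le_iff₀ (by linarith)]
      have h2 := dx_le hT h0 (hE.le.trans hE') ⟨z, u, T, hT0, hz, hz0, hzT, rfl⟩
      have h3 := hlow E z u T hT0 hz
      rw [hz0, hzT] at h3
      have h4 : a * ((E - E₀) * T - C * ‖y - x‖) ≤ a * (act ℓ z u 0 T + E * T) :=
        mul_le_mul_of_nonneg_left h3 ha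
      have h5 : a * ((E - E₀) * T) = (E' - E) * T := by rw [← ha']; ring
      nlinarith
    rw [div_le_iff₀ (by linarith)] at h1
    nlinarith

theorem dx_cont (hT : Ton ℓ) (h0 : Clr ℓ c E₀) :
    ContinuousOn (fun q : ℝ × Vec n × Vec n => Dx ℓ q.1 q.2.1 q.2.2) (Ioi E₀ ×ˢ univ) := by
  obtain ⟨C, hC, hlip⟩ := dx_lip hT h0
  obtain ⟨K, hK, hlow⟩ := dis_low hT h0
  obtain ⟨C', hC', hline⟩ := dx_le_line hT h0
  rintro ⟨Es, xs, ys⟩ ⟨hEs, -⟩
  have hEs' : E₀ < Es := hEs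
  refine ContinuousAt.continuousWithinAt ?_
  obtain ⟨δ, hδ, hδ'⟩ : ∃ δ : ℝ, 0 < δ ∧ E₀ + δ < Es := ⟨(Es - E₀) / 2, by linarith, by linarith⟩
  have key : ∀ E E' : ℝ, E₀ + δ ≤ E → E ≤ E' →
      |Dx ℓ E' xs ys - Dx ℓ E xs ys| ≤ (E' - E) / δ *
        ((C' * (1 + |E|) + K) * ‖ys - xs‖) := by
    intro E E' h1 h2
    obtain ⟨h3, h4⟩ := hlow E E' (by linarith) h2 xs ys
    have h5 := hline E (by linarith) xs ys
    rw [abs_of_nonneg (by linarith)]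
    have h6 : Dx ℓ E xs ys + K * ‖ys - xs‖ ≤ (C' * (1 + |E|) + K) * ‖ys - xs‖ := by
      rw [add_mul]
      linarith
    have h7 : 0 ≤ (C' * (1 + |E|) + K) * ‖ys - xs‖ := by positivity
    have h8 : (E' - E) / (E - E₀) ≤ (E' - E) / δ :=
      div_le_div_of_nonneg_left (by linarith) hδ (by linarith)
    have h9 : 0 ≤ (E' - E) / (E - E₀) := div_nonneg (by linarith) (by linarith)
    calc Dx ℓ E' xs ys - Dx ℓ E xs ys
        ≤ (E' - E) / (E - E₀) * (Dx ℓ E xs ys + K * ‖ys - xs‖) := by linarith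
      _ ≤ (E' - E) / (E - E₀) * ((C' * (1 + |E|) + K) * ‖ys - xs‖) :=
        mul_le_mul_of_nonneg_left h6 h9
      _ ≤ _ := mul_le_mul_of_nonneg_right h8 h7
  have key2 : ∀ E : ℝ, E₀ + δ ≤ E →
      |Dx ℓ E xs ys - Dx ℓ Es xs ys| ≤ |E - Es| / δ *
        ((C' * (1 + (|E| + |Es|)) + K) * ‖ys - xs‖) := by
    intro E hE
    rcases le_total E Es with h | h
    · have h1 := key E Es hE h
      rw [abs_sub_comm] at h1
      refine h1.trans ?_
      rw [abs_sub_comm E Es, abs_of_nonneg (sub_nonneg.2 h)]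
      refine mul_le_mul_of_nonneg_left ?_ (div_nonneg (sub_nonneg.2 h) hδ.le)
      refine mul_le_mul_of_nonneg_right ?_ (norm_nonneg _)
      have : 0 ≤ C' * |Es| := by positivity
      nlinarith
    · have h1 := key Es E hδ'.le h
      refine h1.trans ?_
      rw [abs_of_nonneg (sub_nonneg.2 h)]
      refine mul_le_mul_of_nonneg_left ?_ (div_nonneg (sub_nonneg.2 h) hδ.le)
      refine mul_le_mul_of_nonneg_right ?_ (norm_nonneg _)
      have : 0 ≤ C' * |E| := by positivity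
      nlinarith
  have hcont : Continuous (fun q : ℝ × Vec n × Vec n =>
      C * (1 + |q.1|) * (‖q.2.1 - xs‖ + ‖q.2.2 - ys‖) +
      |q.1 - Es| / δ * ((C' * (1 + (|q.1| + |Es|)) + K) * ‖ys - xs‖)) := by
    fun_prop
  have hlim := hcont.tendsto (Es, xs, ys)
  simp only [sub_self, norm_zero, add_zero, mul_zero, abs_zero, zero_div, zero_mul] at hlim
  have hev : ∀ᶠ q : ℝ × Vec n × Vec n in 𝓝 (Es, xs, ys), E₀ + δ < q.1 :=
    (continuous_fst.tendsto (Es, xs, ys)).eventually (lt_mem_nhds hδ')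
  change Tendsto (fun q : ℝ × Vec n × Vec n => Dx ℓ q.1 q.2.1 q.2.2) (𝓝 (Es, xs, ys))
    (𝓝 (Dx ℓ Es xs ys))
  rw [tendsto_iff_dist_tendsto_zero]
  refine squeeze_zero' (Eventually.of_forall fun q => dist_nonneg) ?_ hlim
  filter_upwards [hev] with q hq
  rw [Real.dist_eq]
  have h1 := hlip q.1 (by linarith) xs ys q.2.1 q.2.2
  have h2 := key2 q.1 hq.le
  have h3 : Dx ℓ q.1 q.2.1 q.2.2 - Dx ℓ Es xs ys =
      (Dx ℓ q.1 q.2.1 q.2.2 - Dx ℓ q.1 xs ys) + (Dx ℓ q.1 xs ys - Dx ℓ Es xs ys) := by ring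
  rw [h3]
  exact (abs_add_le _ _).trans (add_le_add h1 h2)

/-- (V4): the duration of almost minimal curves -/
theorem dur_bdd (hT : Ton ℓ) (h0 : Clr ℓ c E₀) {E₁ E₂ : ℝ} (h1 : E₀ < E₁) : ∃ C : ℝ, 0 ≤ C ∧
    ∀ E ∈ Icc E₁ E₂, ∀ (z u : ℝ → Vec n) (T : ℝ), 0 < T → VCv z u 0 T →
    act ℓ z u 0 T + E * T ≤ Dx ℓ E (z 0) (z T) + 1 → T ≤ C * (1 + ‖z T - z 0‖) := by
  obtain ⟨C1, hC1, hlow⟩ := rch_low' hT h0
  obtain ⟨C2, hC2, hline⟩ := dx_le_line hT h0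
  have hd : 0 < E₁ - E₀ := sub_pos.2 h1
  refine ⟨(C1 + C2 * (1 + (|E₁| + |E₂|)) + 1) / (E₁ - E₀), by positivity, ?_⟩
  intro E hE z u T hT0 hz hle
  have h2 := hlow E z u T hT0 hz
  have h3 := hline E (h1.le.trans hE.1) (z 0) (z T)
  have h4 : |E| ≤ |E₁| + |E₂| := by
    rw [abs_le]
    have := neg_abs_le E₁
    have := le_abs_self E₂
    have := abs_nonneg E₁
    have := abs_nonneg E₂
    constructor
    · linarith [hE.1]
    · linarith [hE.2]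
  have hn : 0 ≤ ‖z T - z 0‖ := norm_nonneg _
  have h5 : C2 * (1 + |E|) * ‖z T - z 0‖ ≤ C2 * (1 + (|E₁| + |E₂|)) * ‖z T - z 0‖ := by
    refine mul_le_mul_of_nonneg_right ?_ hn
    exact mul_le_mul_of_nonneg_left (by linarith) hC2
  have h6 : (E₁ - E₀) * T ≤ (E - E₀) * T :=
    mul_le_mul_of_nonneg_right (by linarith [hE.1]) hT0.le
  have h7 : 0 ≤ C2 * (1 + (|E₁| + |E₂|)) := by positivity
  rw [div_mul_eq_mul_div, le_div_iff₀ hd]
  nlinarith

end Pool.Agent.DV
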