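import Pool.Agent.DV.Low

/-!
# MP_74f563_an (D2), block V, file DV/DisA: costs of curves, the lower bound

`h0 : Clr ℓ c E₀` throughout.

PROOFS.  `rch_line`: the segment `z t = x + t v`, `0 ≤ t ≤ T` (`VCv.line`), speed `‖v‖ ≤ 1`:
`|ℓ| ≤ C` for speeds `≤ 1` (`Pr.bdd`).
`rch_trans`: `VCv.glue`, `act_glue`, `vcv_shift0`, `act_shift0`.
`rch_shift`: translation of the curve by `zv m` (`VCv.shift _ 0 (zv m)`, `act_shift`).
`rch_low` (lower bound, the main inequality): let `(z, u)` be a curve from `x` to `y`, duration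
`T`.  Choose `m` with `‖(y - x) - zv m‖ ≤ n` (`zv_sub'` applied to `y - x`: an integer vector `l`
with `‖y - x + zv l‖ ≤ n`, `m = -l`).  Close the curve by the segment from `y` to `x + zv m` of
duration `n + 1` (`rch_line`, `rch_trans`): cost at level `E₀` at most `(C + |E₀|) (n+1)`; `Clr`
at level `E₀`: `⟪c, zv m⟫ ≤ act + E₀ T + C'`, so `⟪c, y - x⟫ - C'' ≤ act + E₀ T` with
`C'' = C' + ‖c‖ n`; add `(E - E₀) T`.
`rch_low'` (short version): close by the segment from `y` to `x + zv 0 = x` of duration `‖y - x‖`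
(if `y ≠ x`; unit speed; if `y = x` the curve is closed): cost at most `(C + |E₀|) ‖y - x‖`.
`dx_le`: `csInf_le`, bounded below by `rch_low` (`(E - E₀) T ≥ 0`).  `le_dx`: `le_csInf`
(nonempty: `exists_rch`, a segment of duration `‖y - x‖ + 1`).
-/

set_option autoImplicit false

namespace Pool.Agent.DV

open Set Filter Topology MeasureTheory Pool.Agent.MechAlpha Pool.Agent.DF Pool.Agent.LRig
open scoped ContDiff RealInnerProductSpace

variable {n : ℕ} {ℓ : Vec n × Vec n → ℝ} {c : Vec n} {E₀ : ℝ}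

private theorem zvneg (m : Fin n → ℤ) : zv (-m) = -zv m := by
  ext i
  change ((-m) i : ℝ) = -((m i : ℤ) : ℝ)
  rw [Pi.neg_apply, Int.cast_neg]

private theorem zvzero : zv (0 : Fin n → ℤ) = 0 := by
  ext i
  change (((0 : Fin n → ℤ) i : ℤ) : ℝ) = 0
  simp

/-- straight segments of speed at most one -/
theorem rch_line (hT : Ton ℓ) : ∃ C : ℝ, 0 ≤ C ∧ ∀ (E : ℝ) (x y : Vec n) (T : ℝ), 0 < T →
    ‖y - x‖ ≤ T → ∃ r, Rch ℓ E x y r ∧ r ≤ (C + E) * T := by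
  obtain ⟨C, hC0, hC⟩ := hT.per.bdd hT.cl 1
  refine ⟨C, hC0, fun E x y T h1 h2 => ?_⟩
  have hv : ‖T⁻¹ • (y - x)‖ ≤ 1 := by
    rw [norm_smul, norm_inv, Real.norm_of_nonneg h1.le]
    calc T⁻¹ * ‖y - x‖ ≤ T⁻¹ * T := mul_le_mul_of_nonneg_left h2 (inv_nonneg.2 h1.le)
      _ = 1 := inv_mul_cancel₀ h1.ne'
  refine ⟨_, ⟨fun t => x + (t - 0) • (T⁻¹ • (y - x)), fun _ => T⁻¹ • (y - x), T, h1,
    VCv.line x _ h1.le, ?_, ?_, rfl⟩, ?_⟩
  · simp
  · show x + (T - 0) • (T⁻¹ • (y - x)) = y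
    rw [sub_zero, smul_smul, mul_inv_cancel₀ h1.ne', one_smul, add_sub_cancel]
  · have h3 : ‖act ℓ (fun t => x + (t - 0) • (T⁻¹ • (y - x))) (fun _ => T⁻¹ • (y - x)) 0 T‖ ≤
        C * |T - 0| :=
      intervalIntegral.norm_integral_le_of_norm_le_const fun t _ => hC _ _ hv
    rw [sub_zero, abs_of_pos h1, Real.norm_eq_abs] at h3
    have h4 := (abs_le.1 h3).2
    linarith [add_mul C E T]

theorem rch_trans (hT : Ton ℓ) {E : ℝ} {x y z : Vec n} {r r' : ℝ} (h : Rch ℓ E x y r)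
    (h' : Rch ℓ E y z r') : Rch ℓ E x z (r + r') := by
  obtain ⟨p, u, T, hT0, hp, hx, hy, hr⟩ := h
  obtain ⟨p', u', T', hT0', hp', hx', hy', hr'⟩ := h'
  have hs := vcv_shift0 hp' T
  rw [zero_add] at hs
  have hb : p T = p' (T - T) := by rw [sub_self, hx', hy]
  have hg := hp.glue hs hb
  have ha := act_glue hT.cl hp hs hb
  have has := act_shift0 ℓ p' u' 0 T' T
  rw [zero_add] at has
  refine ⟨_, _, T' + T, by linarith, hg, ?_, ?_, ?_⟩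
  · show (if (0 : ℝ) ≤ T then p 0 else p' (0 - T)) = x
    rw [if_pos hT0.le, hx]
  · show (if T' + T ≤ T then p (T' + T) else p' (T' + T - T)) = z
    rw [if_neg (by linarith), add_sub_cancel_right, hy']
  · rw [ha, has, ← hr, ← hr']
    ring

theorem rch_shift (hT : Ton ℓ) {E : ℝ} {x y : Vec n} {r : ℝ} (h : Rch ℓ E x y r)
    (m : Fin n → ℤ) : Rch ℓ E (x + zv m) (y + zv m) r := by
  obtain ⟨p, u, T, hT0, hp, hx, hy, hr⟩ := h
  have hs := hp.shift 0 (zv m)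
  have ha := act_shift hT.per p u 0 T 0 m
  simp only [sub_zero, add_zero] at hs ha
  refine ⟨_, _, T, hT0, hs, ?_, ?_, ?_⟩
  · show p 0 + zv m = _
    rw [hx]
  · show p T + zv m = _
    rw [hy]
  · rw [ha, hr]

/-- the lower bound of the cost -/
theorem rch_low (hT : Ton ℓ) (h0 : Clr ℓ c E₀) : ∃ C : ℝ, 0 ≤ C ∧ ∀ (E : ℝ) (z u : ℝ → Vec n)
    (T : ℝ), 0 < T → VCv z u 0 T → ⟪c, z T - z 0⟫ + (E - E₀) * T - C ≤ act ℓ z u 0 T + E * T := by
  obtain ⟨C, hC0, hC⟩ := rch_line hT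
  refine ⟨(C + |E₀|) * (n + 1) + ‖c‖ * n, by positivity, fun E z u T h1 hz => ?_⟩
  obtain ⟨l, hl⟩ := zv_sub' (z T - z 0)
  have hn : (0 : ℝ) ≤ n := Nat.cast_nonneg n
  have e1 : z 0 + zv (-l) - z T = -(z T - z 0 + zv l) := by
    rw [zvneg]
    abel
  obtain ⟨r, hr, hr2⟩ := hC E₀ (z T) (z 0 + zv (-l)) (n + 1) (by linarith) (by
    rw [e1, norm_neg]
    linarith)
  have h2 : Rch ℓ E₀ (z 0) (z T) (act ℓ z u 0 T + E₀ * T) := ⟨z, u, T, h1, hz, rfl, rfl, rfl⟩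
  have h3 := h0 _ _ _ (rch_trans hT h2 hr)
  have h4 : ⟪c, z T - z 0⟫ = ⟪c, zv (-l)⟫ + ⟪c, z T - z 0 + zv l⟫ := by
    rw [← inner_add_right, zvneg]
    congr 1
    abel
  have h5 : ⟪c, z T - z 0 + zv l⟫ ≤ ‖c‖ * n :=
    (real_inner_le_norm _ _).trans (mul_le_mul_of_nonneg_left hl (norm_nonneg _))
  have h6 : (C + E₀) * ((n : ℝ) + 1) ≤ (C + |E₀|) * (n + 1) :=
    mul_le_mul_of_nonneg_right (by linarith [le_abs_self E₀]) (by linarith)
  rw [h4]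
  linarith [sub_mul E E₀ T]

theorem rch_low' (hT : Ton ℓ) (h0 : Clr ℓ c E₀) : ∃ C : ℝ, 0 ≤ C ∧ ∀ (E : ℝ) (z u : ℝ → Vec n)
    (T : ℝ), 0 < T → VCv z u 0 T →
    (E - E₀) * T - C * ‖z T - z 0‖ ≤ act ℓ z u 0 T + E * T := by
  obtain ⟨C, hC0, hC⟩ := rch_line hT
  refine ⟨C + |E₀|, by positivity, fun E z u T h1 hz => ?_⟩
  have h2 : Rch ℓ E₀ (z 0) (z T) (act ℓ z u 0 T + E₀ * T) := ⟨z, u, T, h1, hz, rfl, rfl, rfl⟩
  by_cases he : z T = z 0
  · have h3 : Rch ℓ E₀ (z 0) (z 0 + zv 0) (act ℓ z u 0 T + E₀ * T) := by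
      rw [zvzero, add_zero]
      rw [he] at h2
      exact h2
    have h4 := h0 _ _ _ h3
    rw [zvzero, inner_zero_right] at h4
    rw [he, sub_self, norm_zero, mul_zero]
    linarith [sub_mul E E₀ T]
  · have h5 : 0 < ‖z T - z 0‖ := norm_pos_iff.2 (sub_ne_zero.2 he)
    obtain ⟨r, hr, hr2⟩ := hC E₀ (z T) (z 0 + zv 0) ‖z T - z 0‖ h5 (by
      rw [zvzero, add_zero, norm_sub_rev])
    have h3 := h0 _ _ _ (rch_trans hT h2 hr)
    rw [zvzero, inner_zero_right] at h3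
    have h6 : (C + E₀) * ‖z T - z 0‖ ≤ (C + |E₀|) * ‖z T - z 0‖ :=
      mul_le_mul_of_nonneg_right (by linarith [le_abs_self E₀]) h5.le
    linarith [sub_mul E E₀ T]

theorem dx_le (hT : Ton ℓ) (h0 : Clr ℓ c E₀) {E : ℝ} (hE : E₀ ≤ E) {x y : Vec n} {r : ℝ}
    (h : Rch ℓ E x y r) : Dx ℓ E x y ≤ r := by
  obtain ⟨C, hC0, hC⟩ := rch_low hT h0
  refine csInf_le ⟨⟪c, y - x⟫ - C, ?_⟩ h
  rintro s ⟨z, u, T, h1, hz, hx, hy, hs⟩
  have h2 := hC E z u T h1 hz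
  rw [hx, hy, hs] at h2
  have h3 : 0 ≤ (E - E₀) * T := mul_nonneg (by linarith) h1.le
  linarith

theorem exists_rch (hT : Ton ℓ) (E : ℝ) (x y : Vec n) : ∃ r, Rch ℓ E x y r := by
  obtain ⟨C, hC0, hC⟩ := rch_line hT
  obtain ⟨r, hr, -⟩ := hC E x y (‖y - x‖ + 1) (by positivity) (by linarith)
  exact ⟨r, hr⟩

theorem le_dx (hT : Ton ℓ) {E : ℝ} {x y : Vec n} {s : ℝ} (h : ∀ r, Rch ℓ E x y r → s ≤ r) :
    s ≤ Dx ℓ E x y :=
  le_csInf (exists_rch hT E x y) h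

end Pool.Agent.DV
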