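import Pool.Agent.DV.Var
import Pool.Agent.NOne.BFlow

/-!
# MP_74f563_an, n = 2 autonomous (D2), file DV/Flow: the analytic flow (any n)

`fl hex t z`: position and velocity at time `t` of the solution with initial data `z`.
-/

set_option autoImplicit false

namespace Pool.Agent.DV

open Set Filter Topology MeasureTheory Pool.Agent.MechAlpha Pool.Agent.DF Pool.Agent.LRig
open scoped ContDiff RealInnerProductSpace

/-- The inverse of an analytic bijection with injective derivatives is analytic. -/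
theorem inv_ana {E : Type} [NormedAddCommGroup E] [NormedSpace ℝ E] [FiniteDimensional ℝ E]
    {Λ : E → E} (hΛ : AnalyticOnNhd ℝ Λ univ) (hb : Function.Bijective Λ)
    (hd : ∀ z, Function.Injective (fderiv ℝ Λ z)) :
    AnalyticOnNhd ℝ (Function.invFun Λ) univ := by
  have : CompleteSpace E := FiniteDimensional.complete ℝ E
  have hn : (ω : WithTop ℕ∞) ≠ 0 := by simp
  intro y _
  obtain ⟨z, rfl⟩ := hb.2 y
  obtain ⟨L, hL⟩ : ∃ L : E ≃L[ℝ] E, (L : E →L[ℝ] E) = fderiv ℝ Λ z := by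
    have hs : Function.Surjective (fderiv ℝ Λ z) :=
      LinearMap.surjective_of_injective (f := (fderiv ℝ Λ z : E →ₗ[ℝ] E)) (hd z)
    refine ⟨ContinuousLinearEquiv.ofBijective _ (LinearMap.ker_eq_bot.2 (hd z))
      (LinearMap.range_eq_top.2 hs), ?_⟩
    exact ContinuousLinearEquiv.coe_ofBijective _ _ _
  have hz : ContDiffAt ℝ ω Λ z := (hΛ z (mem_univ z)).contDiffAt
  have hD : HasFDerivAt Λ (L : E →L[ℝ] E) z := by
    rw [hL]
    exact (hz.differentiableAt hn).hasFDerivAt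
  have hst := hz.hasStrictFDerivAt' hD hn
  have h1 : ContDiffAt ℝ ω (hz.localInverse hD hn) (Λ z) := hz.to_localInverse hD hn
  have h3 : ∀ᶠ y in 𝓝 (Λ z), Λ (hz.localInverse hD hn y) = y := hst.eventually_right_inverse
  have h5 : ContDiffAt ℝ ω (Function.invFun Λ) (Λ z) := by
    refine h1.congr_of_eventuallyEq ?_
    filter_upwards [h3] with y hy
    have h4 := Function.leftInverse_invFun hb.1 (hz.localInverse hD hn y)
    rw [hy] at h4
    exact h4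
  exact h5.analyticAt

variable {n : ℕ} {ℓ : Vec n × Vec n → ℝ}

/-- the Riesz isomorphism as a continuous linear map -/
noncomputable def rsz : (Vec n →L[ℝ] ℝ) →L[ℝ] Vec n :=
  LinearMap.toContinuousLinearMap
    { toFun := fun f => (InnerProductSpace.toDual ℝ (Vec n)).symm f
      map_add' := fun f g => map_add _ f g
      map_smul' := fun r f => by
        rw [map_smulₛₗ]
        rfl }

theorem rsz_apply (f : Vec n →L[ℝ] ℝ) : rsz f = (InnerProductSpace.toDual ℝ (Vec n)).symm f := rfl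

theorem pm_ana (h : Lag ℓ) (ha : AnalyticOnNhd ℝ ℓ univ) : AnalyticOnNhd ℝ (pm ℓ) univ := by
  let T : (Vec n × Vec n →L[ℝ] ℝ) →L[ℝ] Vec n :=
    rsz.comp ((ContinuousLinearMap.compL ℝ (Vec n) (Vec n × Vec n) ℝ).flip
        (ContinuousLinearMap.inr ℝ (Vec n) (Vec n)))
  have e : pm ℓ = fun z => T (fderiv ℝ ℓ z) := by
    funext z
    refine ext_inner_right ℝ fun w => ?_
    rw [h.pm_inner']
    change _ = ⟪(InnerProductSpace.toDual ℝ (Vec n)).symm ((fderiv ℝ ℓ z).comp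
      (ContinuousLinearMap.inr ℝ (Vec n) (Vec n))), w⟫
    rw [InnerProductSpace.toDual_symm_apply]
    rfl
  rw [e]
  intro z hz
  have h1 : AnalyticAt ℝ (fderiv ℝ ℓ) z := (ha z hz).fderiv
  exact (T.analyticAt _).comp h1

theorem gx_ana (ha : AnalyticOnNhd ℝ ℓ univ) : AnalyticOnNhd ℝ (gx ℓ) univ := by
  let T : (Vec n × Vec n →L[ℝ] ℝ) →L[ℝ] Vec n :=
    rsz.comp ((ContinuousLinearMap.compL ℝ (Vec n) (Vec n × Vec n) ℝ).flip
        (ContinuousLinearMap.inl ℝ (Vec n) (Vec n)))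
  have e : gx ℓ = fun z => T (fderiv ℝ ℓ z) := rfl
  rw [e]
  intro z hz
  have h1 : AnalyticAt ℝ (fderiv ℝ ℓ) z := (ha z hz).fderiv
  exact (T.analyticAt _).comp h1

theorem lam_ana (h : Lag ℓ) (ha : AnalyticOnNhd ℝ ℓ univ) : AnalyticOnNhd ℝ (Lam ℓ) univ :=
  fun z hz => analyticAt_fst.prod (pm_ana h ha z hz)

theorem lai_ana (h : Lag ℓ) (ha : AnalyticOnNhd ℝ ℓ univ) : AnalyticOnNhd ℝ (Lai ℓ) univ :=
  inv_ana (lam_ana h ha) ⟨h.lam_inj, h.lam_surj⟩ h.lam_der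

/-- the Hamiltonian vector field -/
noncomputable def XH (ℓ : Vec n × Vec n → ℝ) (z : Vec n × Vec n) : Vec n × Vec n :=
  ((Lai ℓ z).2, gx ℓ (Lai ℓ z))

theorem xh_ana (h : Lag ℓ) (ha : AnalyticOnNhd ℝ ℓ univ) : AnalyticOnNhd ℝ (XH ℓ) univ := by
  intro z hz
  have h1 := lai_ana h ha z hz
  exact (AnalyticAt.comp (g := Prod.snd) analyticAt_snd h1).prod
    (AnalyticAt.comp (g := gx ℓ) (gx_ana ha _ (mem_univ _)) h1)

variable {X W X' W' : ℝ → Vec n}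

theorem Sol.ham (h : Lag ℓ) (hS : Sol ℓ X W) (t : ℝ) :
    HasDerivAt (fun t => Lam ℓ (X t, W t)) (XH ℓ (Lam ℓ (X t, W t))) t := by
  have e : XH ℓ (Lam ℓ (X t, W t)) = (W t, gx ℓ (X t, W t)) := by
    unfold XH
    rw [h.lai_lam]
  rw [e]
  exact (hS.dx t).prodMk (hS.dp t)

/-- uniqueness of solutions -/
theorem Sol.uniq (h : Lag ℓ) (ha : AnalyticOnNhd ℝ ℓ univ) (hS : Sol ℓ X W) (hS' : Sol ℓ X' W')
    {s : ℝ} (hx : X s = X' s) (hw : W s = W' s) : X = X' ∧ W = W' := by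
  have h1 := NOne.ode_unique (xh_ana h ha) (hS.ham h) (hS'.ham h) (t₀ := s) (by rw [hx, hw])
  have h2 : ∀ t, (X t, W t) = (X' t, W' t) := fun t => h.lam_inj (congrFun h1 t)
  exact ⟨funext fun t => congrArg Prod.fst (h2 t), funext fun t => congrArg Prod.snd (h2 t)⟩

/-- completeness of the flow -/
def Cpl (ℓ : Vec n × Vec n → ℝ) : Prop :=
  ∀ x v : Vec n, ∃ X W : ℝ → Vec n, Sol ℓ X W ∧ X 0 = x ∧ W 0 = v

open Classical in
/-- the flow in the tangent space -/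
noncomputable def fl (ℓ : Vec n × Vec n → ℝ) (t : ℝ) (z : Vec n × Vec n) : Vec n × Vec n :=
  if h : ∃ X W : ℝ → Vec n, Sol ℓ X W ∧ X 0 = z.1 ∧ W 0 = z.2 then
    (h.choose t, h.choose_spec.choose t) else z

theorem fl_spec (hc : Cpl ℓ) (z : Vec n × Vec n) :
    Sol ℓ (fun t => (fl ℓ t z).1) (fun t => (fl ℓ t z).2) ∧ fl ℓ 0 z = z := by
  have h : ∃ X W : ℝ → Vec n, Sol ℓ X W ∧ X 0 = z.1 ∧ W 0 = z.2 := hc z.1 z.2
  have h1 : ∀ t, fl ℓ t z = (h.choose t, h.choose_spec.choose t) := by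
    intro t
    unfold fl
    rw [dif_pos h]
  have h3 := h.choose_spec.choose_spec
  have h4 : (fun t => (fl ℓ t z).1) = h.choose := by
    funext t
    rw [h1]
  have h5 : (fun t => (fl ℓ t z).2) = h.choose_spec.choose := by
    funext t
    rw [h1]
  rw [h4, h5]
  refine ⟨h3.1, ?_⟩
  rw [h1]
  exact Prod.ext h3.2.1 h3.2.2

theorem fl_sol (hc : Cpl ℓ) (z : Vec n × Vec n) :
    Sol ℓ (fun t => (fl ℓ t z).1) (fun t => (fl ℓ t z).2) := (fl_spec hc z).1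

theorem fl_zero (hc : Cpl ℓ) (z : Vec n × Vec n) : fl ℓ 0 z = z := (fl_spec hc z).2

theorem Sol.eq_fl (h : Lag ℓ) (ha : AnalyticOnNhd ℝ ℓ univ) (hc : Cpl ℓ) (hS : Sol ℓ X W) (t : ℝ) :
    (X t, W t) = fl ℓ t (X 0, W 0) := by
  have h0 := fl_zero hc (X 0, W 0)
  obtain ⟨h1, h2⟩ := hS.uniq h ha (fl_sol hc (X 0, W 0)) (s := 0)
    (by rw [h0]) (by rw [h0])
  exact Prod.ext (congrFun h1 t) (congrFun h2 t)

theorem fl_add (h : Lag ℓ) (ha : AnalyticOnNhd ℝ ℓ univ) (hc : Cpl ℓ) (s t : ℝ)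
    (z : Vec n × Vec n) : fl ℓ (s + t) z = fl ℓ s (fl ℓ t z) := by
  have h1 := (fl_sol hc z).shift0 (-t)
  have h2 := h1.eq_fl h ha hc s
  simp only [sub_neg_eq_add, zero_add] at h2
  exact h2

theorem fl_per (h : Lag ℓ) (hp : Pr ℓ) (ha : AnalyticOnNhd ℝ ℓ univ) (hc : Cpl ℓ) (t : ℝ)
    (z : Vec n × Vec n) (l : Fin n → ℤ) :
    fl ℓ t (z.1 + zv l, z.2) = ((fl ℓ t z).1 + zv l, (fl ℓ t z).2) := by
  have h1 := (fl_sol hc z).shift hp 0 l
  have h2 := h1.eq_fl h ha hc t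
  simp only [sub_zero] at h2
  rw [fl_zero hc] at h2
  exact h2.symm

/-- the flow is analytic -/
theorem fl_ana (h : Lag ℓ) (ha : AnalyticOnNhd ℝ ℓ univ) (hc : Cpl ℓ) :
    AnalyticOnNhd ℝ (fun q : ℝ × Vec n × Vec n => fl ℓ q.1 q.2) univ := by
  let Ψ : ℝ → Vec n × Vec n → Vec n × Vec n := fun t z => Lam ℓ (fl ℓ t (Lai ℓ z))
  have h0 : ∀ z, Ψ 0 z = z := by
    intro z
    change Lam ℓ (fl ℓ 0 (Lai ℓ z)) = z
    rw [fl_zero hc, h.lam_lai]
  have hd : ∀ z t, HasDerivAt (fun t => Ψ t z) (XH ℓ (Ψ t z)) t := fun z t =>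
    (fl_sol hc (Lai ℓ z)).ham h t
  have h1 := NOne.flow_analytic (XH ℓ) (xh_ana h ha) Ψ h0 hd
  have e : (fun q : ℝ × Vec n × Vec n => fl ℓ q.1 q.2) =
      fun q => Lai ℓ (Ψ q.1 (Lam ℓ q.2)) := by
    funext q
    change _ = Lai ℓ (Lam ℓ (fl ℓ q.1 (Lai ℓ (Lam ℓ q.2))))
    rw [h.lai_lam, h.lai_lam]
  rw [e]
  rintro ⟨t, z⟩ -
  have h2 : AnalyticAt ℝ (fun q : ℝ × Vec n × Vec n => ((q.1, Lam ℓ q.2) : ℝ × Vec n × Vec n))
      (t, z) := by
    refine analyticAt_fst.prod ?_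
    exact AnalyticAt.comp_of_eq (g := Lam ℓ) (lam_ana h ha z (mem_univ z)) analyticAt_snd rfl
  have h3 : AnalyticAt ℝ (fun q : ℝ × Vec n × Vec n => Ψ q.1 (Lam ℓ q.2)) (t, z) :=
    AnalyticAt.comp_of_eq (g := fun p : ℝ × Vec n × Vec n => Ψ p.1 p.2)
      (h1 (t, Lam ℓ z) (mem_univ _)) h2 rfl
  exact AnalyticAt.comp_of_eq (g := Lai ℓ) (lai_ana h ha _ (mem_univ _)) h3 rfl

end Pool.Agent.DV
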