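import Pool.Agent.DV.Loc

/-!
# MP_74f563_an (D2), block V, file DV/Hr: minimal arcs between any two points (V3), corner gain (V5)

PROOF of `corner_dx`.  `corner` for `X t = (fl t (x,v)).1` etc. (`Ton.sol`, `Ton.act_sol`/`Ax_eq`,
`Ton.zero`), and `dx_le` for the curve (`Rch` with duration `t + s`).

PROOF of `split`.  `x ≠ y`, `0 < δ ≤ ‖y - x‖`: there is `p` with `‖p - x‖ = δ` and
`Dx x y = Dx x p + Dx p y`.  The function `p ↦ Dx x p + Dx p y` is continuous (`dx_lip`), the sphere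
`‖p - x‖ = δ` is compact and not empty (it contains a point of the segment; `x ≠ y`), so there is a
minimum at `p`.  `≥`: every curve `(z, u)` from `x` to `y` meets the sphere
(`t ↦ ‖z t - x‖` is continuous on `[0,T]`, `0` at `0`, `≥ δ` at `T`: intermediate value theorem) at some
time
`t₁ ∈ (0, T]`; its cost is `cost on [0,t₁] + cost on [t₁,T] ≥ Dx x (z t₁) + Dx (z t₁) y`
(`VCv.restrict`,
`vcv_shift0`, `act_add`; if `t₁ = T` then `z t₁ = y`, `Dx y y = 0` by `dx_self`); `le_dx`.  `≤`: `dx_tri`.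

PROOF of `arc_ex` (Hopf-Rinow).  `δ` from `loc_arc`.  CLAIM: for all `k : ℕ` and `x ≠ y` either the
conclusion holds for `(x, y)`, or there is a chain `x = x_0, x_1, ..., x_k`, `x_k ≠ y`,
`‖x_{i+1} - x_i‖ = δ`, with `Dx x y = ∑_{i<k} Dx x_i x_{i+1} + Dx x_k y`.  Better: prove by strong
induction the statement
 `P k : ∀ x ≠ y, Dx ℓ E x y - ⟪c, y - x⟫ ≤ k η - C → ∃ v T, Arc...`
where `C` is from `rch_low` and `η > 0` is a lower bound of `Dx ℓ E a b - ⟪c, b - a⟫` for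
`‖b - a‖ = δ`...
ATTENTION: the normalised cost of ONE short arc may be small or negative (only closed curves are
controlled), so use the total duration instead: every arc of energy `E` of displacement `δ` has
duration `≥ δ/Ω` (`en_bdd`), and for a chain of `k` arcs from `x` to `x_k` (a curve of duration
`T_k ≥ k δ/Ω`, glued) `rch_low` gives `cost ≥ ⟪c, x_k - x⟫ + (E - E₀) k δ/Ω - C`, while
`Dx x_k y ≥ ⟪c, y - x_k⟫ - C` (`rch_low`, `le_dx`): so `Dx x y ≥ ⟪c, y - x⟫ + (E - E₀) k δ/Ω - 2C`, `k`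
is
bounded.  Let `K` be such that this is violated for `k = K`.  Construction: define `x_{i+1}` from
`x_i` by `split` while `‖y - x_i‖ ≥ δ`; the arcs `x_i → x_{i+1}` from `loc_arc`.  INVARIANT `J k` (for
`k ≥ 1`): there are `v, T`, `T ≥ k δ/Ω`, such that the solution `(fl t (x,v))` on `[0,T]` has energy `E`, is
minimal (`Ax T (x,v) + E T = Dx x p`, `p = (fl T (x,v)).1`), and `Dx x y = Dx x p + Dx p y`.
 `J 1`: `split` and `loc_arc`.  `J k → J (k+1)` or conclusion: if `p = y` the conclusion holds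
 (`Dx y y = 0`).  If `0 < ‖y - p‖ ≤ δ` let `p' = y`, otherwise `split` `(p, y)` at distance `δ`: `p'` with
 `Dx p y = Dx p p' + Dx p' y` (`Dx y y = 0`).  `loc_arc` for `(p, p')`: `(v', T')`.  Then
 `Dx x y = Dx x p + Dx p p' + Dx p' y ≥ Dx x p' + Dx p' y ≥ Dx x y`, so
 `Dx x p' = Dx x p + Dx p p'`; NO CORNER: `corner_dx` with `τ = min T T'`, `R = E`:
 `Dx x p' ≤ Ax T (x,v) + Ax T' (p,v') + E (T + T') - κ ‖(fl T (x,v)).2 - v'‖²`, so
 `(fl T (x,v)).2 = v'`, `fl (T + T') (x,v) = fl T' (p,v')` (`Ton.add`), `Ax` adds (`Ton.ax_add`): the solution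
 on `[0, T + T']` is minimal from `x` to `p'`.  If `p' = y` done, else `J (k+1)` (`T' ≥ δ/Ω` since the
 speed is `≤ Ω`).
 For `k = K` the invariant contradicts the bound (the cost of the solution on `[0,T]` is
 `≥ ⟪c, p - x⟫ + (E - E₀) T - C`).  If `‖y - x‖ < δ` at the start: `loc_arc` directly.
-/

set_option autoImplicit false

namespace Pool.Agent.DV

open Set Filter Topology MeasureTheory Pool.Agent.MechAlpha Pool.Agent.DF Pool.Agent.LRig
open scoped ContDiff RealInnerProductSpace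

variable {n : ℕ} {ℓ : Vec n × Vec n → ℝ} {c : Vec n} {E₀ : ℝ}

/-- (V5) -/
theorem corner_dx (hT : Ton ℓ) (h0 : Clr ℓ c E₀) {τ : ℝ} (hτ : 0 < τ) (R : ℝ) : ∃ κ : ℝ, 0 < κ ∧
    ∀ (s t : ℝ) (x v w : Vec n) (E : ℝ), τ ≤ s → τ ≤ t → en ℓ (x, v) ≤ R →
    en ℓ ((fl ℓ t (x, v)).1, w) ≤ R → E₀ ≤ E →
    Dx ℓ E x (fl ℓ s ((fl ℓ t (x, v)).1, w)).1 ≤ Ax ℓ t (x, v) + Ax ℓ s ((fl ℓ t (x, v)).1, w) +
      E * (t + s) - κ * ‖(fl ℓ t (x, v)).2 - w‖ ^ 2 := by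
  obtain ⟨κ, hκ, H⟩ := corner hT.lag hT.per hτ R
  refine ⟨κ, hκ, ?_⟩
  intro s t x v w E hs ht hx hw hE
  have z1 := hT.zero (x, v)
  have z2 := hT.zero ((fl ℓ t (x, v)).1, w)
  obtain ⟨z, u, hz, e1, e2, ha⟩ := H _ _ _ _ (hT.sol (x, v)) (hT.sol ((fl ℓ t (x, v)).1, w))
    s t hs ht (by rw [z1]; exact hx) (by rw [z2]; exact hw) (by rw [z2])
  have e1' : z 0 = x := by
    rw [e1, z1]
  have h1 := dx_le hT h0 hE (x := x) (y := (fl ℓ s ((fl ℓ t (x, v)).1, w)).1)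
    ⟨z, u, t + s, by linarith, hz, e1', e2, rfl⟩
  rw [Ax_eq, Ax_eq]
  rw [z2] at ha
  linarith

theorem split (hT : Ton ℓ) (h0 : Clr ℓ c E₀) {E : ℝ} (hE : E₀ ≤ E) {x y : Vec n} {δ : ℝ}
    (hδ : 0 < δ) (hxy : δ ≤ ‖y - x‖) :
    ∃ p : Vec n, ‖p - x‖ = δ ∧ Dx ℓ E x y = Dx ℓ E x p + Dx ℓ E p y := by
  obtain ⟨C, hC, hlip⟩ := dx_lip hT h0
  have hf : Continuous fun p : Vec n => Dx ℓ E x p + Dx ℓ E p y := by
    have h1 : LipschitzWith (Real.toNNReal (2 * (C * (1 + |E|))))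
        fun p : Vec n => Dx ℓ E x p + Dx ℓ E p y := by
      refine LipschitzWith.of_dist_le' fun p q => ?_
      have h2 := hlip E hE x q x p
      have h3 := hlip E hE q y p y
      rw [sub_self, norm_zero, zero_add] at h2
      rw [sub_self, norm_zero, add_zero] at h3
      rw [Real.dist_eq, dist_eq_norm]
      have h4 : Dx ℓ E x p + Dx ℓ E p y - (Dx ℓ E x q + Dx ℓ E q y) =
          (Dx ℓ E x p - Dx ℓ E x q) + (Dx ℓ E p y - Dx ℓ E q y) := by ring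
      rw [h4]
      refine (abs_add_le _ _).trans ?_
      linarith
    exact h1.continuous
  have hne : (Metric.sphere x δ).Nonempty := by
    have hn : 0 < ‖y - x‖ := hδ.trans_le hxy
    refine ⟨x + (δ / ‖y - x‖) • (y - x), ?_⟩
    rw [mem_sphere_iff_norm, add_sub_cancel_left, norm_smul, Real.norm_of_nonneg (by positivity),
      div_mul_cancel₀ _ hn.ne']
  obtain ⟨p, hp, hmin⟩ := (isCompact_sphere x δ).exists_isMinOn hne hf.continuousOn
  rw [mem_sphere_iff_norm] at hp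
  refine ⟨p, hp, le_antisymm (dx_tri hT h0 hE x p y) ?_⟩
  refine le_dx hT fun r hr => ?_
  obtain ⟨z, u, T, hT0, hz, e1, e2, e3⟩ := hr
  have hcn : ContinuousOn (fun t => ‖z t - x‖) (Icc 0 T) :=
    (hz.cont.sub continuousOn_const).norm
  have hiv := intermediate_value_Icc hT0.le hcn
  have hδm : δ ∈ Icc ‖z 0 - x‖ ‖z T - x‖ := by
    rw [e1, e2, sub_self, norm_zero]
    exact ⟨hδ.le, hxy⟩
  obtain ⟨t₁, ht₁, ht₂⟩ := hiv hδm
  have ht₂' : ‖z t₁ - x‖ = δ := ht₂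
  have hpos : 0 < t₁ := by
    rcases ht₁.1.eq_or_lt with h | h
    · exfalso
      rw [← h, e1, sub_self, norm_zero] at ht₂'
      exact hδ.ne ht₂'
    · exact h
  have hmin' : Dx ℓ E x p + Dx ℓ E p y ≤ Dx ℓ E x (z t₁) + Dx ℓ E (z t₁) y :=
    hmin (mem_sphere_iff_norm.2 ht₂')
  refine hmin'.trans ?_
  have hz1 := hz.restrict le_rfl ht₁.1 ht₁.2
  have r1 := dx_le hT h0 hE (x := x) (y := z t₁) ⟨z, u, t₁, hpos, hz1, e1, rfl, rfl⟩
  rcases ht₁.2.eq_or_lt with h | h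
  · have e4 : z t₁ = y := by rw [h, e2]
    rw [e4, dx_self hT h0 hE, add_zero, ← e4]
    rw [h] at r1 ⊢
    rw [← e3]
    exact r1
  · have hz2 := vcv_shift0 (hz.restrict ht₁.1 h.le le_rfl) (-t₁)
    have a2 := act_shift0 ℓ z u t₁ T (-t₁)
    rw [add_neg_cancel] at hz2 a2
    have r2 := dx_le hT h0 hE (x := z t₁) (y := y)
      ⟨_, _, T + -t₁, by linarith, hz2, by simp, by
        rw [← e2]
        congr 1
        ring, rfl⟩
    rw [a2] at r2
    have a1 := act_add hT.cl hz ht₁.1 ht₁.2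
    rw [← e3]
    nlinarith

/-- adding a short arc to a minimal solution: no corner -/
private theorem extend (hT : Ton ℓ) (h0 : Clr ℓ c E₀) {E : ℝ} (hE : E₀ < E) {x y p p' v v' : Vec n}
    {T T' : ℝ} (hT0 : 0 < T) (hT0' : 0 < T') (e1 : en ℓ (x, v) = E) (e2 : (fl ℓ T (x, v)).1 = p)
    (e3 : Ax ℓ T (x, v) + E * T = Dx ℓ E x p) (e4 : Dx ℓ E x y = Dx ℓ E x p + Dx ℓ E p y)
    (e5 : Dx ℓ E p y = Dx ℓ E p p' + Dx ℓ E p' y) (f1 : en ℓ (p, v') = E)
    (f2 : (fl ℓ T' (p, v')).1 = p') (f3 : Ax ℓ T' (p, v') + E * T' = Dx ℓ E p p') :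
    (fl ℓ (T + T') (x, v)).1 = p' ∧ Ax ℓ (T + T') (x, v) + E * (T + T') = Dx ℓ E x p' ∧
      Dx ℓ E x y = Dx ℓ E x p' + Dx ℓ E p' y := by
  have t1 := dx_tri hT h0 hE.le x p p'
  have t2 := dx_tri hT h0 hE.le x p' y
  have g1 : Dx ℓ E x p' = Dx ℓ E x p + Dx ℓ E p p' := by linarith
  obtain ⟨κ, hκ, H⟩ := corner_dx hT h0 (lt_min hT0 hT0') E
  have h1 := H T' T x v v' E (min_le_right _ _) (min_le_left _ _) e1.le (by rw [e2]; exact f1.le)
    hE.le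
  rw [e2, f2] at h1
  have h2 : κ * ‖(fl ℓ T (x, v)).2 - v'‖ ^ 2 ≤ 0 := by
    have : E * (T + T') = E * T + E * T' := mul_add _ _ _
    linarith
  have h3 : ‖(fl ℓ T (x, v)).2 - v'‖ ^ 2 ≤ 0 := by
    by_contra hc
    have := mul_pos hκ (not_le.1 hc)
    linarith
  have h4 : (fl ℓ T (x, v)).2 = v' := by
    have h5 : ‖(fl ℓ T (x, v)).2 - v'‖ = 0 := by
      have := sq_nonneg ‖(fl ℓ T (x, v)).2 - v'‖
      exact pow_eq_zero_iff (two_ne_zero) |>.1 (le_antisymm h3 this)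
    exact sub_eq_zero.1 (norm_eq_zero.1 h5)
  have h6 : fl ℓ T (x, v) = (p, v') := Prod.ext e2 h4
  refine ⟨?_, ?_, ?_⟩
  · rw [add_comm, hT.add, h6, f2]
  · rw [hT.ax_add, h6]
    have : E * (T + T') = E * T + E * T' := mul_add _ _ _
    linarith
  · linarith

/-- the speed bound -/
private theorem displ (hT : Ton ℓ) {E Ω : ℝ} (hΩ : ∀ x v : Vec n, en ℓ (x, v) ≤ E → ‖v‖ ≤ Ω)
    {x v : Vec n} {T : ℝ} (hT0 : 0 ≤ T) (e1 : en ℓ (x, v) = E) :
    ‖(fl ℓ T (x, v)).1 - x‖ ≤ Ω * T := by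
  have h1 := (hT.vcv (x, v) hT0).ftc
  have z1 := hT.zero (x, v)
  have h2 : (fl ℓ T (x, v)).1 - x = ∫ t in (0 : ℝ)..T, (fl ℓ t (x, v)).2 := by
    rw [h1, z1]
  rw [h2]
  have h3 := intervalIntegral.norm_integral_le_of_norm_le_const (a := 0) (b := T) (C := Ω)
    (f := fun t => (fl ℓ t (x, v)).2) (fun t _ => by
      refine hΩ (fl ℓ t (x, v)).1 _ ?_
      have h4 := hT.en_fl t (x, v)
      rw [e1] at h4
      exact h4.le)
  rwa [sub_zero, abs_of_nonneg hT0] at h3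

/-- (V3) -/
theorem arc_ex (hT : Ton ℓ) (h0 : Clr ℓ c E₀) {E : ℝ} (hE : E₀ < E) {x y : Vec n} (hxy : x ≠ y) :
    ∃ (v : Vec n) (T : ℝ), 0 < T ∧ en ℓ (x, v) = E ∧ (fl ℓ T (x, v)).1 = y ∧
      Ax ℓ T (x, v) + E * T = Dx ℓ E x y := by
  obtain ⟨δ, hδ, hloc⟩ := loc_arc hT h0 hE
  obtain ⟨Ω, hΩ0, hΩ⟩ := en_bdd hT.lag hT.per E
  obtain ⟨C, hC, hlow⟩ := rch_low hT h0
  by_contra hcon
  -- the invariant
  have J : ∀ k : ℕ, ∃ (v p : Vec n) (T : ℝ), 0 < T ∧ (k + 1 : ℝ) * δ ≤ (Ω + 1) * T ∧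
      en ℓ (x, v) = E ∧ (fl ℓ T (x, v)).1 = p ∧ Ax ℓ T (x, v) + E * T = Dx ℓ E x p ∧
      Dx ℓ E x y = Dx ℓ E x p + Dx ℓ E p y ∧ p ≠ y := by
    intro k
    induction k with
    | zero =>
      rcases le_or_gt ‖y - x‖ δ with h | h
      · obtain ⟨v, T, h1, h2, h3, h4⟩ := hloc x y hxy h
        exact (hcon ⟨v, T, h1, h3, h2, h4⟩).elim
      · obtain ⟨p, hp1, hp2⟩ := split hT h0 hE.le hδ h.le
        have hxp : x ≠ p := by
          intro h5
          rw [h5, sub_self, norm_zero] at hp1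
          exact hδ.ne hp1
        obtain ⟨v, T, h1, h2, h3, h4⟩ := hloc x p hxp hp1.le
        refine ⟨v, p, T, h1, ?_, h3, h2, h4, hp2, ?_⟩
        · have h5 := displ hT hΩ h1.le h3
          rw [h2, hp1] at h5
          push_cast
          linarith
        · intro h5
          rw [h5] at hp1
          exact h.ne' hp1
    | succ k ih =>
      obtain ⟨v, p, T, hT0, i1, i2, i3, i4, i5, i6⟩ := ih
      rcases le_or_gt ‖y - p‖ δ with h | h
      · obtain ⟨v', T', h1, h2, h3, h4⟩ := hloc p y i6 h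
        have e5 : Dx ℓ E p y = Dx ℓ E p y + Dx ℓ E y y := by
          rw [dx_self hT h0 hE.le, add_zero]
        obtain ⟨g1, g2, -⟩ := extend hT h0 hE hT0 h1 i2 i3 i4 i5 e5 h3 h2 h4
        exact (hcon ⟨v, T + T', by linarith, i2, g1, g2⟩).elim
      · obtain ⟨p', hp1, hp2⟩ := split hT h0 hE.le hδ h.le
        have hpp : p ≠ p' := by
          intro h5
          rw [h5, sub_self, norm_zero] at hp1
          exact hδ.ne hp1
        obtain ⟨v', T', h1, h2, h3, h4⟩ := hloc p p' hpp hp1.le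
        obtain ⟨g1, g2, g3⟩ := extend hT h0 hE hT0 h1 i2 i3 i4 i5 hp2 h3 h2 h4
        refine ⟨v, p', T + T', by linarith, ?_, i2, g1, g2, g3, ?_⟩
        · have h5 := displ hT hΩ h1.le h3
          rw [h2, hp1] at h5
          push_cast
          linarith
        · intro h5
          rw [h5] at hp1
          exact h.ne' hp1
  -- the bound
  obtain ⟨K, hK⟩ := exists_nat_gt ((Dx ℓ E x y - ⟪c, y - x⟫ + 2 * C) * (Ω + 1) / ((E - E₀) * δ))
  obtain ⟨v, p, T, hT0, i1, i2, i3, i4, i5, i6⟩ := J K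
  have b1 := hlow E _ _ T hT0 (hT.vcv (x, v) hT0.le)
  have z1 := hT.zero (x, v)
  rw [z1, ← Ax_eq, i4] at b1
  have b1' : ⟪c, (fl ℓ T (x, v)).1 - x⟫ + (E - E₀) * T - C ≤ Dx ℓ E x p := b1
  rw [i3] at b1'
  have b2 : ⟪c, y - p⟫ - C ≤ Dx ℓ E p y := by
    refine le_dx hT fun r hr => ?_
    obtain ⟨z, u, S, hS0, hz, e1, e2, e3⟩ := hr
    have h1 := hlow E z u S hS0 hz
    rw [e1, e2, e3] at h1
    have h2 : 0 ≤ (E - E₀) * S := mul_nonneg (by linarith) hS0.le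
    linarith
  have b3 : ⟪c, y - x⟫ = ⟪c, p - x⟫ + ⟪c, y - p⟫ := by
    rw [← inner_add_right]
    congr 1
    abel
  have hpos : 0 < (E - E₀) * δ := mul_pos (by linarith) hδ
  rw [div_lt_iff₀ hpos] at hK
  have b4 : (E - E₀) * T ≤ Dx ℓ E x y - ⟪c, y - x⟫ + 2 * C := by linarith
  have b5 : (E - E₀) * ((K + 1 : ℝ) * δ) ≤ (E - E₀) * ((Ω + 1) * T) :=
    mul_le_mul_of_nonneg_left i1 (by linarith)
  have b6 : (E - E₀) * T * (Ω + 1) ≤ (Dx ℓ E x y - ⟪c, y - x⟫ + 2 * C) * (Ω + 1) :=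
    mul_le_mul_of_nonneg_right b4 (by linarith)
  nlinarith

end Pool.Agent.DV
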