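import Pool.Agent.DV.Arc
import Pool.Agent.DV.Exi
import Pool.Agent.DV.Dis

/-!
# MP_74f563_an (D2), block V, file DV/Loc: short minimal curves of free duration

`h0 : Clr ℓ c E₀`, `E₀ < E`.

PROOF of `en_of_min` (a solution which is minimal for free duration has energy `E`).  Let
`z = (x, v)`, `T > 0`, and suppose `Ax T z + E T ≤ r` for all `r` with `Rch ℓ E x (fl T z).1 r`.  For `s > 0`
consider `z_s t = (fl (s t) z).1`, `u_s t = s • (fl (s t) z).2` on `[0, T/s]` (a curve with the same end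
points; `VCv`: continuous velocity).  Its cost is
`Φ s = ∫_0^{T/s} ℓ((fl (s t) z).1, s • (fl (s t) z).2) dt + E T/s = s⁻¹ (∫_0^T ℓ(X, s • W) dt + E T)`
(substitution
`intervalIntegral.integral_comp_mul_left`).  `Φ 1 ≤ Φ s` for all `s > 0`, so `Φ' (1) = 0`; and
`Φ' (1) = ∫_0^T (⟪pm (X,W), W⟫ - ℓ (X,W) - E) dt = (en ℓ z - E) T`
(`hasDerivAt_integral_of_dominated...` or, simpler, the uniform Taylor estimate: for `|s - 1| ≤ 1/2`
`|ℓ(X, s W) - ℓ(X,W) - (s-1) ⟪pm (X,W), W⟫| ≤ C (s-1)²` by `Pr.taylor`, `der_eq`, so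
`|∫ ℓ(X, sW) - ∫ ℓ(X,W) - (s-1) ∫ ⟪pm, W⟫| ≤ C T (s-1)²`, and `Φ s - Φ 1 = (s-1)(en ℓ z - E) T + O((s-1)²)`
forces `en ℓ z = E`).  `Ton.en_fl`.

PROOF of `loc_arc`.  `C₁` from `rch_low'`: `(E - E₀) T - C₁ ‖y - x‖ ≤ cost`; `C₂` from `rch_line`:
there is a
curve of duration `ρ = ‖y - x‖` with cost `≤ K ρ`, `K = |C₂ + E|`.  So a curve of cost `≤ K ρ` has
`T ≤ K₂ ρ`, `K₂ = (K + C₁)/(E - E₀) + 1`.  `B = K + |E| K₂ + 1`, `C_B` from `sup_bound`; for every curve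
`act ≥ B ρ - C_B T` (`∫ ‖u‖ ≥ ‖z T - z 0‖ = ρ` by `VCv.ftc`).  If its cost is `≤ K ρ` then
`K ρ ≥ B ρ - C_B T - |E| T`, `T ≤ K₂ ρ`, so `T ≥ κ₃ ρ` with `κ₃ = 1/(C_B + |E| + 1) > 0`
(`(C_B + |E|) T ≥ (B - K) ρ ≥ ρ`).  Let `R = 1/κ₃`, `τ` the minimum of the `τ`'s of
`exi hT R`, `arc_min hl hp (R + 1)`; `δ = τ/K₂`.
Let `0 < ρ ≤ δ`.  `S = {(T, v) | κ₃ ρ ≤ T ≤ K₂ ρ, ‖v‖ ≤ R + 1, ‖(fl t (x,v)).2‖ ≤ R + 1 for t ∈ [0, T],
(fl T (x,v)).1 = y}` is compact (closed and bounded; for closedness write `t = s T`, `s ∈ [0,1]`), and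
not
empty: the line of duration `ρ` shows that some curve has cost `≤ K ρ`; its `T` is in `[κ₃ρ, K₂ρ]`,
`‖y - x‖ = ρ ≤ R T`, `T ≤ τ`: `exi`.  `(T, v) ↦ Ax T (x,v) + E T` has a minimum on `S` at `(T*, v*)`
(`Ton.ax_cont`).  It is minimal among ALL curves: a curve `(z,u)` of duration `T` of cost `≤ K ρ`
(others cost more than the line... compare with the line curve, which is itself one of them) has
`T ∈ [κ₃ρ, K₂ρ]`; `exi` gives a solution arc with the same end points and duration, velocities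
`≤ R + 1`, action `≤ act z u` (`arc_min`), and `(T, v) ∈ S`.
`en_of_min`: energy `E`.
-/

set_option autoImplicit false

namespace Pool.Agent.DV

open Set Filter Topology MeasureTheory Pool.Agent.MechAlpha Pool.Agent.DF Pool.Agent.LRig
open scoped ContDiff RealInnerProductSpace

variable {n : ℕ} {ℓ : Vec n × Vec n → ℝ} {c : Vec n} {E₀ : ℝ}

private theorem scale_rch (hT : Ton ℓ) {E T : ℝ} (h0 : 0 < T) (z : Vec n × Vec n) {s : ℝ}
    (hs : 0 < s) : Rch ℓ E z.1 (fl ℓ T z).1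
      (s⁻¹ * (∫ t in (0 : ℝ)..T, ℓ ((fl ℓ t z).1, s • (fl ℓ t z).2)) + E * (T / s)) := by
  have hS := hT.sol z
  have hX := hS.cx
  have hW := hS.cw hT.lag
  have hu : Continuous fun t => s • (fl ℓ (s * t) z).2 :=
    (hW.comp (continuous_const.mul continuous_id)).const_smul s
  obtain ⟨M, hM⟩ := (isCompact_Icc (a := (0 : ℝ)) (b := T / s)).exists_bound_of_continuousOn
    hu.continuousOn
  refine ⟨fun t => (fl ℓ (s * t) z).1, fun t => s • (fl ℓ (s * t) z).2, T / s, div_pos h0 hs,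
    ⟨(div_pos h0 hs).le, (hX.comp (continuous_const.mul continuous_id)).continuousOn,
      ⟨∅, countable_empty, fun t _ _ => ?_⟩, hu.measurable, ⟨M, hM⟩⟩, ?_, ?_, ?_⟩
  · have h1 : HasDerivAt (fun t : ℝ => s * t) s t := by
      have := (hasDerivAt_id t).const_mul s
      simpa using this
    exact (hS.dx (s * t)).scomp t h1
  · change (fl ℓ (s * 0) z).1 = z.1
    rw [mul_zero, hT.zero]
  · change (fl ℓ (s * (T / s)) z).1 = _
    rw [mul_div_cancel₀ _ hs.ne']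
  · congr 1
    have h3 := intervalIntegral.integral_comp_mul_left (a := 0) (b := T / s)
      (fun t => ℓ ((fl ℓ t z).1, s • (fl ℓ t z).2)) hs.ne'
    rw [mul_zero, mul_div_cancel₀ _ hs.ne', smul_eq_mul] at h3
    exact h3

private theorem scale_der (hT : Ton ℓ) (T : ℝ) (z : Vec n × Vec n) :
    HasDerivAt (fun s : ℝ => ∫ t in (0 : ℝ)..T, ℓ ((fl ℓ t z).1, s • (fl ℓ t z).2))
      (en ℓ z * T + Ax ℓ T z) 1 := by
  have hS := hT.sol z
  have hX := hS.cx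
  have hW := hS.cw hT.lag
  have hc1 : Continuous fun q : ℝ × ℝ => (((fl ℓ q.2 z).1, q.1 • (fl ℓ q.2 z).2) : Vec n × Vec n) :=
    (hX.comp continuous_snd).prodMk (continuous_fst.smul (hW.comp continuous_snd))
  have hF : Continuous fun q : ℝ × ℝ => ℓ ((fl ℓ q.2 z).1, q.1 • (fl ℓ q.2 z).2) := hT.cl.comp hc1
  have hF' : Continuous fun q : ℝ × ℝ =>
      ⟪pm ℓ ((fl ℓ q.2 z).1, q.1 • (fl ℓ q.2 z).2), (fl ℓ q.2 z).2⟫ :=
    (hT.lag.pm_smooth.continuous.comp hc1).inner (hW.comp continuous_snd)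
  obtain ⟨M, hM⟩ := ((isCompact_Icc (a := (0 : ℝ)) (b := 2)).prod
    (isCompact_uIcc (a := (0 : ℝ)) (b := T))).exists_bound_of_continuousOn hF'.continuousOn
  have h1 := intervalIntegral.hasDerivAt_integral_of_dominated_loc_of_deriv_le
    (μ := volume) (𝕜 := ℝ) (a := 0) (b := T) (x₀ := (1 : ℝ)) (s := Metric.ball (1 : ℝ) 1)
    (bound := fun _ => M)
    (F := fun s t => ℓ ((fl ℓ t z).1, s • (fl ℓ t z).2))
    (F' := fun s t => ⟪pm ℓ ((fl ℓ t z).1, s • (fl ℓ t z).2), (fl ℓ t z).2⟫)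
    (Metric.ball_mem_nhds 1 one_pos)
    (Eventually.of_forall fun s =>
      (hF.comp (Continuous.prodMk_right s)).aestronglyMeasurable)
    ((hF.comp (Continuous.prodMk_right 1)).intervalIntegrable 0 T)
    (hF'.comp (Continuous.prodMk_right 1)).aestronglyMeasurable
    (Eventually.of_forall fun t ht s hs => by
      refine hM (s, t) ⟨?_, uIoc_subset_uIcc ht⟩
      rw [Metric.mem_ball, Real.dist_eq, abs_lt] at hs
      exact ⟨by linarith [hs.1], by linarith [hs.2]⟩)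
    (continuous_const.intervalIntegrable 0 T)
    (Eventually.of_forall fun t _ s _ => by
      have h2 : HasDerivAt (fun s : ℝ => (((fl ℓ t z).1, s • (fl ℓ t z).2) : Vec n × Vec n))
          (0, (fl ℓ t z).2) s := by
        have h3 : HasDerivAt (fun s : ℝ => s • (fl ℓ t z).2) (fl ℓ t z).2 s := by
          have := (hasDerivAt_id s).smul_const (fl ℓ t z).2
          simpa using this
        exact (hasDerivAt_const s _).prodMk h3
      have h4 := (hT.lag.diff ((fl ℓ t z).1, s • (fl ℓ t z).2)).hasFDerivAt.comp_hasDerivAt s h2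
      rw [hT.lag.pm_inner']
      exact h4)
  have h5 : ∫ t in (0 : ℝ)..T, ⟪pm ℓ ((fl ℓ t z).1, (1 : ℝ) • (fl ℓ t z).2), (fl ℓ t z).2⟫ =
      en ℓ z * T + Ax ℓ T z := by
    have h6 : ∀ t : ℝ, ⟪pm ℓ ((fl ℓ t z).1, (1 : ℝ) • (fl ℓ t z).2), (fl ℓ t z).2⟫ =
        en ℓ z + ℓ (fl ℓ t z) := by
      intro t
      have h7 := hT.en_fl t z
      unfold en at h7
      rw [one_smul, Prod.mk.eta]
      unfold en
      linarith
    simp only [h6]
    rw [intervalIntegral.integral_add (continuous_const.intervalIntegrable 0 T)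
      (hT.integrable z 0 T), intervalIntegral.integral_const, sub_zero, smul_eq_mul, mul_comm T]
    rfl
  rw [← h5]
  exact h1.2

theorem en_of_min (hT : Ton ℓ) {E T : ℝ} (h0 : 0 < T) {z : Vec n × Vec n}
    (hmin : ∀ r, Rch ℓ E z.1 (fl ℓ T z).1 r → Ax ℓ T z + E * T ≤ r) : en ℓ z = E := by
  have h1 := (scale_der hT T z).sub ((hasDerivAt_id (1 : ℝ)).mul_const (Ax ℓ T z + E * T))
  have h2 : IsLocalMin (fun s : ℝ => (∫ t in (0 : ℝ)..T, ℓ ((fl ℓ t z).1, s • (fl ℓ t z).2)) -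
      s * (Ax ℓ T z + E * T)) 1 := by
    filter_upwards [lt_mem_nhds (zero_lt_one (α := ℝ))] with s hs
    have h3 := hmin _ (scale_rch hT (E := E) h0 z hs)
    have h4 : ∫ t in (0 : ℝ)..T, ℓ ((fl ℓ t z).1, (1 : ℝ) • (fl ℓ t z).2) = Ax ℓ T z := by
      unfold Ax
      refine intervalIntegral.integral_congr fun t _ => ?_
      rw [one_smul, Prod.mk.eta]
    rw [h4]
    have h5 := mul_le_mul_of_nonneg_left h3 hs.le
    have h6 : s * (s⁻¹ * (∫ t in (0 : ℝ)..T, ℓ ((fl ℓ t z).1, s • (fl ℓ t z).2)) + E * (T / s)) =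
        (∫ t in (0 : ℝ)..T, ℓ ((fl ℓ t z).1, s • (fl ℓ t z).2)) + E * T := by
      field_simp
    rw [h6] at h5
    linarith
  have h7 := h2.hasDerivAt_eq_zero h1
  have h8 : (en ℓ z - E) * T = 0 := by linarith
  rcases mul_eq_zero.1 h8 with h9 | h9
  · linarith
  · exact absurd h9 h0.ne'

/-- superlinear lower bound of the action -/
private theorem act_low (hT : Ton ℓ) {B C : ℝ} (hB : 0 ≤ B)
    (hC : ∀ x v : Vec n, B * ‖v‖ - C ≤ ℓ (x, v)) {z u : ℝ → Vec n} {T : ℝ} (hz : VCv z u 0 T) :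
    B * ‖z T - z 0‖ - C * T ≤ act ℓ z u 0 T := by
  have h1 : IntervalIntegrable (fun t => ‖u t‖) volume 0 T := hz.integrable.norm
  have h2 : ‖z T - z 0‖ ≤ ∫ t in (0 : ℝ)..T, ‖u t‖ := by
    rw [← hz.ftc]
    exact intervalIntegral.norm_integral_le_integral_norm hz.le
  have h3 : ∫ t in (0 : ℝ)..T, (B * ‖u t‖ - C) ≤ act ℓ z u 0 T :=
    intervalIntegral.integral_mono_on hz.le ((h1.const_mul B).sub
      (continuous_const.intervalIntegrable 0 T)) (act_int hT.cl hz) fun t _ => hC _ _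
  rw [intervalIntegral.integral_sub (h1.const_mul B) (continuous_const.intervalIntegrable 0 T),
    intervalIntegral.integral_const_mul, intervalIntegral.integral_const, sub_zero,
    smul_eq_mul] at h3
  have h4 := mul_le_mul_of_nonneg_left h2 hB
  linarith

theorem loc_arc (hT : Ton ℓ) (h0 : Clr ℓ c E₀) {E : ℝ} (hE : E₀ < E) : ∃ δ : ℝ, 0 < δ ∧
    ∀ x y : Vec n, x ≠ y → ‖y - x‖ ≤ δ → ∃ (v : Vec n) (T : ℝ), 0 < T ∧ (fl ℓ T (x, v)).1 = y ∧
      en ℓ (x, v) = E ∧ Ax ℓ T (x, v) + E * T = Dx ℓ E x y := by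
  obtain ⟨C₁, hC₁, hlow⟩ := rch_low' hT h0
  obtain ⟨C₂, hC₂, hline⟩ := rch_line hT
  set K : ℝ := |C₂ + E| with hK
  have hK0 : 0 ≤ K := abs_nonneg _
  set K₂ : ℝ := (K + C₁) / (E - E₀) + 1 with hK₂
  have hEE : 0 < E - E₀ := sub_pos.2 hE
  have hK₂1 : 1 ≤ K₂ := by
    have : 0 ≤ (K + C₁) / (E - E₀) := div_nonneg (by linarith) hEE.le
    linarith
  obtain ⟨Cb, hCb, hsup⟩ := sup_bound hT.lag hT.per (K + 1)
  set R : ℝ := Cb + |E| + 1 with hR
  have hR1 : 1 ≤ R := by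
    have := abs_nonneg E
    linarith
  have hR0 : 0 < R := one_pos.trans_le hR1
  obtain ⟨τ₁, hτ₁, hexi⟩ := exi hT R
  obtain ⟨τ₂, hτ₂, harc⟩ := arc_min hT.lag hT.per (R + 1)
  refine ⟨min τ₁ τ₂ / K₂, div_pos (lt_min hτ₁ hτ₂) (by linarith), fun x y hxy hd => ?_⟩
  set ρ : ℝ := ‖y - x‖ with hρ
  have hρ0 : 0 < ρ := norm_pos_iff.2 (sub_ne_zero.2 hxy.symm)
  have hKρ : K₂ * ρ ≤ min τ₁ τ₂ := by
    rw [le_div_iff₀ (by linarith)] at hd
    linarith
  -- the set of competitors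
  set S : Set (ℝ × Vec n) := (Icc (ρ / R) (K₂ * ρ) ×ˢ Metric.closedBall (0 : Vec n) (R + 1)) ∩
    {q | (fl ℓ q.1 (x, q.2)).1 = y} with hS
  have hfc : Continuous fun q : ℝ × Vec n => fl ℓ q.1 (x, q.2) :=
    hT.cont.comp (continuous_fst.prodMk (continuous_const.prodMk continuous_snd))
  have hSc : IsCompact S := (isCompact_Icc.prod (isCompact_closedBall _ _)).inter_right
    (isClosed_eq (continuous_fst.comp hfc) continuous_const)
  -- curves of small cost are dominated by elements of `S`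
  have key : ∀ r, Rch ℓ E x y r → r ≤ K * ρ → ∃ q ∈ S, Ax ℓ q.1 (x, q.2) + E * q.1 ≤ r := by
    rintro r ⟨z, u, T, hT0, hz, hz0, hzT, rfl⟩ hr
    have h1 := hlow E z u T hT0 hz
    have h2 := act_low hT (by linarith : (0 : ℝ) ≤ K + 1) hsup hz
    rw [hz0, hzT, ← hρ] at h1 h2
    have h3 : T ≤ K₂ * ρ := by
      have h4 : (E - E₀) * T ≤ (K + C₁) * ρ := by linarith
      have h5 : T ≤ (K + C₁) / (E - E₀) * ρ := by
        rw [div_mul_eq_mul_div, le_div_iff₀ hEE]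
        linarith
      have h6 : K₂ * ρ = (K + C₁) / (E - E₀) * ρ + ρ := by
        rw [hK₂]
        ring
      linarith
    have h4 : ρ ≤ R * T := by
      have h5 : -|E| * T ≤ E * T := mul_le_mul_of_nonneg_right (neg_abs_le E) hT0.le
      have h6 : R * T = Cb * T + |E| * T + T := by
        rw [hR]
        ring
      have h7 : (K + 1) * ρ = K * ρ + ρ := by ring
      have h8 : -|E| * T = -(|E| * T) := by ring
      linarith
    obtain ⟨v, hv1, hv2⟩ := hexi T hT0 (h3.trans (hKρ.trans (min_le_left _ _))) x y (by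
      rw [← hρ]
      exact h4)
    have h5 : ‖T⁻¹ • (y - x)‖ ≤ R := by
      rw [norm_smul, norm_inv, Real.norm_of_nonneg hT0.le, ← hρ, inv_mul_le_iff₀ hT0, mul_comm T]
      exact h4
    have h6 : ∀ t ∈ Icc 0 T, ‖(fl ℓ t (x, v)).2‖ ≤ R + 1 := by
      intro t ht
      have h7 := hv2 t ht
      calc ‖(fl ℓ t (x, v)).2‖ = ‖((fl ℓ t (x, v)).2 - T⁻¹ • (y - x)) + T⁻¹ • (y - x)‖ := by
            rw [sub_add_cancel]
        _ ≤ ‖(fl ℓ t (x, v)).2 - T⁻¹ • (y - x)‖ + ‖T⁻¹ • (y - x)‖ := norm_add_le _ _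
        _ ≤ 1 + R := add_le_add h7 h5
        _ = R + 1 := add_comm _ _
    have h7 : ‖v‖ ≤ R + 1 := by
      have h8 := h6 0 ⟨le_rfl, hT0.le⟩
      rwa [hT.zero] at h8
    refine ⟨(T, v), ⟨⟨⟨?_, h3⟩, mem_closedBall_zero_iff.2 h7⟩, hv1⟩, ?_⟩
    · rw [div_le_iff₀ hR0]
      linarith
    · have h9 := harc (fun t => (fl ℓ t (x, v)).1) (fun t => (fl ℓ t (x, v)).2) z u 0 T
        (hT.sol (x, v)) hz (by
          rw [sub_zero]
          exact h3.trans (hKρ.trans (min_le_right _ _))) h6 (by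
          rw [hz0, hT.zero]) (by rw [hzT, hv1])
      rw [← Ax_eq] at h9
      change Ax ℓ T (x, v) + E * T ≤ _
      linarith
  obtain ⟨r₀, hr₀, hr₀'⟩ := hline E x y ρ hρ0 le_rfl
  have hr₁ : r₀ ≤ K * ρ := hr₀'.trans (mul_le_mul_of_nonneg_right (le_abs_self _) hρ0.le)
  obtain ⟨q₀, hq₀, hq₀'⟩ := key r₀ hr₀ hr₁
  have hAc : Continuous fun q : ℝ × Vec n => Ax ℓ q.1 (x, q.2) + E * q.1 :=
    (hT.ax_cont.comp (continuous_fst.prodMk (continuous_const.prodMk continuous_snd))).add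
      (continuous_const.mul continuous_fst)
  obtain ⟨⟨T, v⟩, hTv, hmin⟩ := hSc.exists_isMinOn ⟨q₀, hq₀⟩ hAc.continuousOn
  have hT0 : 0 < T := lt_of_lt_of_le (div_pos hρ0 hR0) hTv.1.1.1
  have hy : (fl ℓ T (x, v)).1 = y := hTv.2
  have hall : ∀ r, Rch ℓ E x y r → Ax ℓ T (x, v) + E * T ≤ r := by
    intro r hr
    by_cases h1 : r ≤ K * ρ
    · obtain ⟨q, hq, hq'⟩ := key r hr h1
      have h2 : Ax ℓ T (x, v) + E * T ≤ Ax ℓ q.1 (x, q.2) + E * q.1 := hmin hq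
      exact h2.trans hq'
    · have h2 : Ax ℓ T (x, v) + E * T ≤ Ax ℓ q₀.1 (x, q₀.2) + E * q₀.1 := hmin hq₀
      linarith [not_le.1 h1]
  refine ⟨v, T, hT0, hy, ?_, ?_⟩
  · refine en_of_min hT hT0 ?_
    rw [hy]
    exact hall
  · refine le_antisymm (le_dx hT hall) (dx_le hT h0 hE.le ?_)
    have h3 := hT.rch E hT0 (x, v)
    rw [hy] at h3
    exact h3

end Pool.Agent.DV
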