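import Pool.Agent.DV.VDef

/-!
# MP_74f563_an (D2), block V, file DV/Low: lower bounds of the Lagrangian

PROOF of `conv_quad`.  `κ₁` from `conv_unif hl hp R`; `κ = κ₁/2`.  For `‖v‖, ‖w‖ ≤ R` put
`u = w - v`, `g s = ℓ (x, v + s • u)`; `g' s = ⟪pm ℓ (x, v + s u), u⟫` (see the proof of `conv_ineq` in
DV/Bas) and `g''(s) ≥ κ₁ ‖u‖²` (`seg_der`, `Lag.pm_dv`, `conv_unif`; `‖v + s u‖ ≤ R`).  So
`s ↦ g s - g' 0 s - κ₁ s² ‖u‖²/2` has a nonnegative derivative on `[0,1]`; compare `s = 0, 1`.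

PROOF of `sup_bound`.  `hl.sup B` gives `r` with `ℓ (x,v) ≥ B ‖v‖` for `‖v‖ ≥ r`; for `‖v‖ ≤ r` use
`Pr.bdd` (`|ℓ| ≤ C`): `ℓ ≥ -C ≥ B ‖v‖ - (|B| |r| + C)`.

PROOF of `low_bound`.  Abbreviate `Λ = ℓ(x+e,v+w) - ℓ(x,v) - ⟪gx,e⟫ - ⟪pm,w⟫` (`gx`, `pm` at `(x,v)`), `C₁` a
common bound of `|ℓ|`, `‖gx‖`, `‖pm‖` on `‖v‖ ≤ R` (`Pr.bdd`).
(B) large `w`: `sup_bound` with `B = 2 C₁ + 2 + ..`: `Λ ≥ B (‖w‖ - R) - C_B - C₁ - C₁ ‖e‖ - C₁ ‖w‖ ≥ ‖w‖ - C₁ ‖e‖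
+ (C₁ ‖w‖ - ..)`; choose `W₀ ≥ 1` so large that for `‖w‖ ≥ W₀`: `Λ ≥ ‖w‖ + C₁ - C₁ ‖e‖`.
If `‖e‖ ≤ 1` this is `≥ ‖w‖ ≥ ‖w‖²/(1+‖w‖)`; if `‖e‖ ≥ 1`, `C₁ ‖e‖ ≤ 2 C₁ ‖e‖²/(1+‖e‖)`.
(A) `‖w‖ ≤ W₀`, `‖e‖ ≤ 1`: `Λ = [ℓ(x+e,v+w) - ℓ(x+e,v) - ⟪pm(x+e,v),w⟫] + [ℓ(x+e,v) - ℓ(x,v) - ⟪gx,e⟫] +
⟪pm(x+e,v) - pm(x,v), w⟫ ≥ κ₂ ‖w‖² - C₂ ‖e‖² - C₃ ‖e‖ ‖w‖` (`conv_quad` for `R + W₀`; `Pr.taylor` with `der_eq`,
`Pr.lip` for `pm`) `≥ (κ₂/2) ‖w‖² - C₄ ‖e‖²`, `C₄ = C₂ + C₃²/(2κ₂)`; and `‖w‖² ≥ ‖w‖²/(1+‖w‖)`,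
`‖e‖² ≤ 2 ‖e‖²/(1+‖e‖)`.
(C) `‖w‖ ≤ W₀`, `‖e‖ ≥ 1`: `ℓ(x+e,v+w) ≥ -C₅` (`Pr.bdd` for `R + W₀`), `Λ ≥ -C₅ - C₁ - C₁ ‖e‖ - C₁ W₀ ≥ -C₆ ‖e‖`,
and `‖w‖²/(1+‖w‖) ≤ W₀ ≤ W₀ ‖e‖`, `‖e‖ ≤ 2 ‖e‖²/(1+‖e‖)`.
Take `κ = min(1, κ₂/2)` and `C` the maximum of the constants.
-/

set_option autoImplicit false

namespace Pool.Agent.DV

open Set Filter Topology MeasureTheory Pool.Agent.MechAlpha Pool.Agent.DF Pool.Agent.LRig
open scoped ContDiff RealInnerProductSpace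

variable {n : ℕ} {ℓ : Vec n × Vec n → ℝ}

private theorem low_der (h : Lag ℓ) (x v u : Vec n) (s : ℝ) :
    HasDerivAt (fun s : ℝ => ℓ (x, v + s • u)) ⟪pm ℓ (x, v + s • u), u⟫ s := by
  have h1 : HasDerivAt (fun s : ℝ => ((x, v + s • u) : Vec n × Vec n)) (0, u) s := by
    have h2 : HasDerivAt (fun s : ℝ => v + s • u) u s := by
      have := ((hasDerivAt_id s).smul_const u).const_add v
      simpa using this
    exact (hasDerivAt_const s x).prodMk h2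
  have h2 := (h.diff (x, v + s • u)).hasFDerivAt.comp_hasDerivAt s h1
  rw [h.pm_inner']
  exact h2

theorem conv_quad (hl : Lag ℓ) (hp : Pr ℓ) (R : ℝ) : ∃ κ : ℝ, 0 < κ ∧ ∀ x v w : Vec n, ‖v‖ ≤ R →
    ‖w‖ ≤ R → κ * ‖w - v‖ ^ 2 ≤ ℓ (x, w) - ℓ (x, v) - ⟪pm ℓ (x, v), w - v⟫ := by
  obtain ⟨κ, hκ, hc⟩ := mono_unif hl hp R
  refine ⟨κ / 2, half_pos hκ, fun x v w hv hw => ?_⟩
  set u : Vec n := w - v with hu
  have hd : ∀ s : ℝ, HasDerivAt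
      (fun s : ℝ => ℓ (x, v + s • u) - s * ⟪pm ℓ (x, v), u⟫ - κ / 2 * ‖u‖ ^ 2 * s ^ 2)
      (⟪pm ℓ (x, v + s • u), u⟫ - ⟪pm ℓ (x, v), u⟫ - κ * ‖u‖ ^ 2 * s) s := by
    intro s
    have h1 := low_der hl x v u s
    have h2 : HasDerivAt (fun s : ℝ => s * ⟪pm ℓ (x, v), u⟫) ⟪pm ℓ (x, v), u⟫ s := by
      have := (hasDerivAt_id s).mul_const ⟪pm ℓ (x, v), u⟫
      simpa using this
    have h3 : HasDerivAt (fun s : ℝ => κ / 2 * ‖u‖ ^ 2 * s ^ 2) (κ * ‖u‖ ^ 2 * s) s := by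
      have h4 := (hasDerivAt_pow 2 s).const_mul (κ / 2 * ‖u‖ ^ 2)
      refine h4.congr_deriv ?_
      norm_num
      ring
    exact (h1.sub h2).sub h3
  have h1 : (0 : ℝ) * (1 - 0) ≤
      (ℓ (x, v + (1 : ℝ) • u) - 1 * ⟪pm ℓ (x, v), u⟫ - κ / 2 * ‖u‖ ^ 2 * (1 : ℝ) ^ 2) -
      (ℓ (x, v + (0 : ℝ) • u) - 0 * ⟪pm ℓ (x, v), u⟫ - κ / 2 * ‖u‖ ^ 2 * (0 : ℝ) ^ 2) := by
    refine Convex.mul_sub_le_image_sub_of_le_deriv (convex_Icc (0 : ℝ) 1)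
      (f := fun s : ℝ => ℓ (x, v + s • u) - s * ⟪pm ℓ (x, v), u⟫ - κ / 2 * ‖u‖ ^ 2 * s ^ 2)
      (fun s _ => (hd s).continuousAt.continuousWithinAt)
      (fun s _ => (hd s).differentiableAt.differentiableWithinAt) (fun s hs => ?_) 0
      (by simp) 1 (by simp) zero_le_one
    rw [interior_Icc] at hs
    rw [(hd s).deriv]
    have h2 : ‖v + s • u‖ ≤ R := by
      have e : v + s • u = (1 - s) • v + s • w := by
        rw [hu, smul_sub, sub_smul, one_smul]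
        abel
      rw [e]
      calc ‖(1 - s) • v + s • w‖ ≤ ‖(1 - s) • v‖ + ‖s • w‖ := norm_add_le _ _
        _ = (1 - s) * ‖v‖ + s * ‖w‖ := by
            rw [norm_smul, norm_smul, Real.norm_of_nonneg (by linarith [hs.2]),
              Real.norm_of_nonneg hs.1.le]
        _ ≤ (1 - s) * R + s * R := by
            have h3 := hs.1
            have h4 := hs.2
            gcongr
        _ = R := by ring
    have h3 := hc x (v + s • u) v h2 hv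
    rw [add_sub_cancel_left, norm_smul, Real.norm_of_nonneg hs.1.le, inner_smul_right,
      inner_sub_left] at h3
    have h4 : s * (κ * ‖u‖ ^ 2 * s) ≤ s * (⟪pm ℓ (x, v + s • u), u⟫ - ⟪pm ℓ (x, v), u⟫) := by
      calc s * (κ * ‖u‖ ^ 2 * s) = κ * (s * ‖u‖) ^ 2 := by ring
        _ ≤ _ := h3
    have h5 := le_of_mul_le_mul_left h4 hs.1
    linarith
  rw [one_smul, zero_smul, add_zero] at h1
  have e1 : v + u = w := by rw [hu, add_sub_cancel]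
  rw [e1] at h1
  linarith

theorem sup_bound (hl : Lag ℓ) (hp : Pr ℓ) (B : ℝ) : ∃ C : ℝ, 0 ≤ C ∧ ∀ x v : Vec n,
    B * ‖v‖ - C ≤ ℓ (x, v) := by
  obtain ⟨r, hr⟩ := hl.sup B
  obtain ⟨C, hC0, hC⟩ := hp.bdd hl.sm.continuous r
  refine ⟨|B| * |r| + C, by positivity, fun x v => ?_⟩
  by_cases h : r ≤ ‖v‖
  · have h1 := hr x v h
    have h2 : 0 ≤ |B| * |r| := by positivity
    linarith
  · push Not at h
    have h1 := hC x v h.le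
    rw [Real.norm_eq_abs] at h1
    have h2 := (abs_le.1 h1).1
    have h3 : B * ‖v‖ ≤ |B| * |r| := by
      calc B * ‖v‖ ≤ |B| * ‖v‖ := mul_le_mul_of_nonneg_right (le_abs_self B) (norm_nonneg v)
        _ ≤ |B| * |r| := mul_le_mul_of_nonneg_left (h.le.trans (le_abs_self r)) (abs_nonneg B)
    linarith

private theorem low_a {N : ℝ} (h : 0 ≤ N) : 0 ≤ N ^ 2 / (1 + N) ∧ N ^ 2 / (1 + N) ≤ N ∧
    N ^ 2 / (1 + N) ≤ N ^ 2 := by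
  have h1 : 0 < 1 + N := by linarith
  refine ⟨by positivity, ?_, ?_⟩
  · rw [div_le_iff₀ h1]
    nlinarith
  · rw [div_le_iff₀ h1]
    nlinarith [sq_nonneg N]

private theorem low_b {N : ℝ} (h : 1 ≤ N) : N ≤ 2 * (N ^ 2 / (1 + N)) := by
  have h1 : 0 < 1 + N := by linarith
  rw [← mul_div_assoc, le_div_iff₀ h1]
  nlinarith

private theorem low_c {N : ℝ} (h : 0 ≤ N) (h' : N ≤ 1) : N ^ 2 ≤ 2 * (N ^ 2 / (1 + N)) := by
  have h1 : 0 < 1 + N := by linarith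
  rw [← mul_div_assoc, le_div_iff₀ h1]
  nlinarith [sq_nonneg N]

theorem low_bound (hl : Lag ℓ) (hp : Pr ℓ) (R : ℝ) : ∃ κ C : ℝ, 0 < κ ∧ 0 ≤ C ∧
    ∀ x v e w : Vec n, ‖v‖ ≤ R →
    κ * (‖w‖ ^ 2 / (1 + ‖w‖)) - C * (‖e‖ ^ 2 / (1 + ‖e‖)) ≤
      ℓ (x + e, v + w) - ℓ (x, v) - ⟪gx ℓ (x, v), e⟫ - ⟪pm ℓ (x, v), w⟫ := by
  obtain ⟨a1, ha1, hb1⟩ := hp.bdd hl.sm.continuous R
  obtain ⟨a2, ha2, hb2⟩ := hp.gx.bdd (gx_smooth hl).continuous R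
  obtain ⟨a3, ha3, hb3⟩ := hp.pm.bdd hl.pm_smooth.continuous R
  obtain ⟨C1, hC1⟩ : ∃ C1 : ℝ, C1 = a1 + a2 + a3 := ⟨_, rfl⟩
  have hC10 : 0 ≤ C1 := by rw [hC1]; positivity
  obtain ⟨CB, hCB0, hCB⟩ := sup_bound hl hp (2 * C1 + 2)
  obtain ⟨W, hW⟩ : ∃ W : ℝ, W = (2 * C1 + 2) * |R| + CB + 2 * C1 + 1 := ⟨_, rfl⟩
  have hW1 : 1 ≤ W := by
    have : 0 ≤ (2 * C1 + 2) * |R| := by positivity
    rw [hW]
    linarith
  obtain ⟨k2, hk2, hq⟩ := conv_quad hl hp (|R| + W)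
  obtain ⟨C2, hC20, hC2⟩ := hp.taylor (hl.sm.of_le (by norm_cast)) R
  obtain ⟨C3, hC30, hC3⟩ := hp.pm.lip (hl.pm_smooth.of_le (by norm_cast)) R
  obtain ⟨C5, hC50, hC5⟩ := hp.bdd hl.sm.continuous (|R| + W)
  have hW0 : 0 ≤ W := by linarith
  refine ⟨min 1 (k2 / 2), 2 * C1 + 2 * (C2 + C3 ^ 2 / (2 * k2)) +
    2 * (C5 + 2 * C1 + C1 * W + W), lt_min one_pos (half_pos hk2), by positivity,
    fun x v e w hv => ?_⟩
  have hR : |R| = R := abs_of_nonneg ((norm_nonneg v).trans hv)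
  obtain ⟨f1, f2, f3⟩ := low_a (norm_nonneg w)
  obtain ⟨g1, -, -⟩ := low_a (norm_nonneg e)
  have hm1 : min 1 (k2 / 2) ≤ 1 := min_le_left _ _
  have hm2 : min 1 (k2 / 2) ≤ k2 / 2 := min_le_right _ _
  have hm0 : 0 < min 1 (k2 / 2) := lt_min one_pos (half_pos hk2)
  have hC4 : 0 ≤ C2 + C3 ^ 2 / (2 * k2) := by positivity
  have hC6 : 0 ≤ C5 + 2 * C1 + C1 * W + W := by positivity
  have b1 : |ℓ (x, v)| ≤ C1 := by
    have := hb1 x v hv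
    rw [Real.norm_eq_abs] at this
    rw [hC1]
    linarith
  have b2 : ⟪gx ℓ (x, v), e⟫ ≤ C1 * ‖e‖ := by
    refine (real_inner_le_norm _ _).trans (mul_le_mul_of_nonneg_right ?_ (norm_nonneg _))
    have := hb2 x v hv
    rw [hC1]
    linarith
  have b3 : ⟪pm ℓ (x, v), w⟫ ≤ C1 * ‖w‖ := by
    refine (real_inner_le_norm _ _).trans (mul_le_mul_of_nonneg_right ?_ (norm_nonneg _))
    have := hb3 x v hv
    rw [hC1]
    linarith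
  have b1' := (abs_le.1 b1).2
  set a : ℝ := ‖w‖ ^ 2 / (1 + ‖w‖) with ha
  set b : ℝ := ‖e‖ ^ 2 / (1 + ‖e‖) with hb
  have hma : min 1 (k2 / 2) * a ≤ a := by
    calc min 1 (k2 / 2) * a ≤ 1 * a := mul_le_mul_of_nonneg_right hm1 f1
      _ = a := one_mul a
  rcases le_total W ‖w‖ with hw | hw
  · -- large `w`
    have h1 := hCB (x + e) (v + w)
    have h2 : ‖w‖ - R ≤ ‖v + w‖ := by
      have h3 : ‖w‖ ≤ ‖v + w‖ + ‖v‖ := by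
        calc ‖w‖ = ‖(v + w) - v‖ := by rw [add_sub_cancel_left]
          _ ≤ _ := norm_sub_le _ _
      linarith
    have h4 : (2 * C1 + 2) * (‖w‖ - R) ≤ (2 * C1 + 2) * ‖v + w‖ :=
      mul_le_mul_of_nonneg_left h2 (by linarith)
    have h5 : ‖w‖ + C1 - C1 * ‖e‖ ≤
        ℓ (x + e, v + w) - ℓ (x, v) - ⟪gx ℓ (x, v), e⟫ - ⟪pm ℓ (x, v), w⟫ := by
      have h6 : W ≤ (C1 + 1) * ‖w‖ := by
        have : 0 ≤ C1 * ‖w‖ := by positivity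
        linarith
      rw [hW, hR] at h6
      linarith
    refine le_trans ?_ h5
    rcases le_total ‖e‖ 1 with he | he
    · have h7 : 0 ≤ (2 * C1 + 2 * (C2 + C3 ^ 2 / (2 * k2)) +
          2 * (C5 + 2 * C1 + C1 * W + W)) * b := by positivity
      have h8 : C1 * ‖e‖ ≤ C1 := by
        calc C1 * ‖e‖ ≤ C1 * 1 := mul_le_mul_of_nonneg_left he hC10
          _ = C1 := mul_one _
      linarith
    · have h7 := mul_le_mul_of_nonneg_left (low_b he) hC10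
      rw [← hb] at h7
      have h8 : 0 ≤ (2 * (C2 + C3 ^ 2 / (2 * k2)) +
          2 * (C5 + 2 * C1 + C1 * W + W)) * b := by positivity
      linarith
  · rcases le_total ‖e‖ 1 with he | he
    · -- small `w` and `e`
      have hn : ∀ y : Vec n, ((x + y, v) : Vec n × Vec n) - (x, v) = (y, 0) := by
        intro y
        ext <;> simp
      have hnn : ‖((e, 0) : Vec n × Vec n)‖ = ‖e‖ := by
        rw [Prod.norm_mk, norm_zero, max_eq_left (norm_nonneg e)]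
      have h1 := hq (x + e) v (v + w) (by linarith) (by
        refine (norm_add_le _ _).trans ?_
        rw [hR]
        linarith)
      rw [add_sub_cancel_left] at h1
      have h2 := hC2 (x, v) (x + e, v) hv hv
      rw [hn, der_eq hl, hnn, Real.norm_eq_abs] at h2
      have h3 := (abs_le.1 h2).1
      have h4 : ⟪pm ℓ (x, v), ((e, 0) : Vec n × Vec n).2⟫ = 0 := inner_zero_right _
      rw [h4, add_zero] at h3
      have h5 := hC3 (x, v) (x + e, v) hv hv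
      rw [hn, hnn] at h5
      have h6 : -(C3 * ‖e‖ * ‖w‖) ≤ ⟪pm ℓ (x + e, v), w⟫ - ⟪pm ℓ (x, v), w⟫ := by
        rw [← inner_sub_left]
        have h7 := abs_real_inner_le_norm (pm ℓ (x + e, v) - pm ℓ (x, v)) w
        have h8 := (abs_le.1 h7).1
        have h9 := mul_le_mul_of_nonneg_right h5 (norm_nonneg w)
        linarith
      have h7 : C3 * ‖e‖ * ‖w‖ ≤ k2 / 2 * ‖w‖ ^ 2 + C3 ^ 2 / (2 * k2) * ‖e‖ ^ 2 := by
        have h8 : 0 ≤ (k2 * ‖w‖ - C3 * ‖e‖) ^ 2 / (2 * k2) := by positivity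
        have h9 : (k2 * ‖w‖ - C3 * ‖e‖) ^ 2 / (2 * k2) =
            k2 / 2 * ‖w‖ ^ 2 + C3 ^ 2 / (2 * k2) * ‖e‖ ^ 2 - C3 * ‖e‖ * ‖w‖ := by
          field_simp
          ring
        linarith
      have h8 : k2 / 2 * ‖w‖ ^ 2 - (C2 + C3 ^ 2 / (2 * k2)) * ‖e‖ ^ 2 ≤
          ℓ (x + e, v + w) - ℓ (x, v) - ⟪gx ℓ (x, v), e⟫ - ⟪pm ℓ (x, v), w⟫ := by
        change -(C2 * ‖e‖ ^ 2) ≤ ℓ (x + e, v) - ℓ (x, v) - ⟪gx ℓ (x, v), e⟫ at h3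
        linarith
      refine le_trans ?_ h8
      have h9 : min 1 (k2 / 2) * a ≤ k2 / 2 * ‖w‖ ^ 2 :=
        mul_le_mul hm2 f3 f1 (half_pos hk2).le
      have h10 := mul_le_mul_of_nonneg_left (low_c (norm_nonneg e) he) hC4
      rw [← hb] at h10
      have h11 : 0 ≤ (2 * C1 + 2 * (C5 + 2 * C1 + C1 * W + W)) * b := by positivity
      linarith
    · -- small `w`, large `e`
      have h1 := hC5 (x + e) (v + w) (by
        refine (norm_add_le _ _).trans ?_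
        rw [hR]
        linarith)
      rw [Real.norm_eq_abs] at h1
      have h2 := (abs_le.1 h1).1
      have h3 : C1 * ‖w‖ ≤ C1 * W := mul_le_mul_of_nonneg_left hw hC10
      have h4 : (C5 + C1 + C1 * W + W) ≤ (C5 + C1 + C1 * W + W) * ‖e‖ := by
        calc (C5 + C1 + C1 * W + W) = (C5 + C1 + C1 * W + W) * 1 := (mul_one _).symm
          _ ≤ _ := mul_le_mul_of_nonneg_left he (by positivity)
      have h5 := mul_le_mul_of_nonneg_left (low_b he) hC6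
      rw [← hb] at h5
      have h6 : 0 ≤ (2 * C1 + 2 * (C2 + C3 ^ 2 / (2 * k2))) * b := by positivity
      linarith

end Pool.Agent.DV
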