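import Pool.Agent.DV.VDef
import Pool.Agent.DF.Dyn

/-!
# MP_74f563_an (D2), block V, file DV/Mem: the invariant measure of a closed orbit

PROOF of `bdd_act`.  `ℓ(x,v) - ⟪c,v⟫ ≥ -C₁` for all `x, v`: `Lag.sup` with `B = ‖c‖ + 1` and `Pr.bdd`; so all
integrals with respect to probability measures are `≥ -C₁`.  (`L z.1 z.2.1 z.2.2 =
lft2 L (x, v)` for any
`x` with `proj x = z.1` by `Auto`, `proj_onto`.)

PROOF of `act_mem2`.  Template: `Pool.Agent.LRig.VP.act_mem'` (integer period) and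
`Pool.Agent.MechAlpha.Lower.action_mem` (real period, autonomous: product of the Haar measures).
Let `X t = (fl ℓ t y).1`, `W t = (fl ℓ t y).2`, `ℓ = lft2 L`; `X (t + T) = X t + zv m`, `W (t + T) = W t`
(`Ton.add`, `Ton.shift`).  On `AddCircle T × UnitAddCircle` put
`G (s, r) = (proj (X s), W s, r)` (well defined, continuous), `ν` the product of the two Haar
probability measures (`AddCircle.haarAddCircle`).  `φ r₀ (G (s, r)) = G (s + r₀, r + r₀)`: for the
point `(proj (X s), W s, r)` take `γ` from `IsELFlow.orbit (X s) (W s) r`; `γ` is a solution with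
`γ r = X s`, `γ' r = W s`; `sol_of_el` and uniqueness (`Sol.uniq`, `Sol.shift0`):
`γ (r + r₀) = X (s + r₀)`,
`γ' (r + r₀) = W (s + r₀)`.  Translations preserve `ν`, so `ν.map G` is invariant.  The integral of
`F z = L z - ⟪c, z.2.1⟫` is `T⁻¹ ∫_0^T (ℓ (X,W) - ⟪c, W⟫) = T⁻¹ (Ax ℓ T y - ⟪c, zv m⟫)`
(`AddCircle.integral_haarAddCircle`, Fubini for the constant second variable;
`∫_0^T W = X T - X 0 = zv m`).

PROOF of `alpha_ge`: `-alpha = sInf (actions) ≤` this member (`csInf_le`, `bdd_act`).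
-/

set_option autoImplicit false

namespace Pool.Agent.DV

open Set Filter Topology MeasureTheory Pool.Agent.MechAlpha Pool.Agent.DF Pool.Agent.LRig
open Pool.Agent.NOne (Tonelli)
open scoped ContDiff RealInnerProductSpace

variable {n : ℕ} {L : Torus n → Vec n → UnitAddCircle → ℝ} {φ : ℝ → Phase n → Phase n}

theorem ton_of (hL : Tonelli L) (hA : Auto L) (hφ : IsELFlow L φ) : Ton (lft2 L) :=
  ⟨lag_of hL, lft2_pr L, lft2_ana hL, cpl_of hL hA hφ⟩

private theorem low_bdd2 (hL : Tonelli L) (hA : Auto L) (c : Vec n) :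
    ∃ C₁ : ℝ, ∀ z : Phase n, -C₁ ≤ L z.1 z.2.1 z.2.2 - ⟪c, z.2.1⟫ := by
  have hl := lag_of hL
  obtain ⟨R, hR⟩ := hl.sup (‖c‖ + 1)
  obtain ⟨C, hC0, hC⟩ := (lft2_pr L).bdd hl.sm.continuous R
  refine ⟨C + ‖c‖ * |R|, fun z => ?_⟩
  obtain ⟨x, hx⟩ := proj_onto z.1
  have h1 : L z.1 z.2.1 z.2.2 = lft2 L (x, z.2.1) := by
    change _ = L (proj x) z.2.1 0
    rw [hx]
    exact hA _ _ _ _
  rw [h1]
  have h3 : ⟪c, z.2.1⟫ ≤ ‖c‖ * ‖z.2.1‖ := real_inner_le_norm c z.2.1
  have h4 : 0 ≤ ‖c‖ * |R| := by positivity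
  rcases le_total R ‖z.2.1‖ with h | h
  · have h5 := hR x z.2.1 h
    have h6 := norm_nonneg z.2.1
    linarith
  · have h5 := hC x z.2.1 h
    rw [Real.norm_eq_abs] at h5
    have h6 := (abs_le.1 h5).1
    have h7 : ‖c‖ * ‖z.2.1‖ ≤ ‖c‖ * |R| :=
      mul_le_mul_of_nonneg_left (h.trans (le_abs_self R)) (norm_nonneg _)
    linarith

private theorem flow_sol (hL : Tonelli L) (hA : Auto L) (hφ : IsELFlow L φ) {X W : ℝ → Vec n}
    (hS : Sol (lft2 L) X W) (s t₀ r : ℝ) :
    φ r (proj (X s), W s, (t₀ : UnitAddCircle)) =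
      (proj (X (s + r)), W (s + r), ((t₀ + r : ℝ) : UnitAddCircle)) := by
  obtain ⟨γ, hγ, h0, h1, h2⟩ := hφ.orbit (X s) (W s) t₀
  rw [h2]
  have h4 := hS.shift0 (t₀ - s)
  have e0 : t₀ - (t₀ - s) = s := by ring
  obtain ⟨h5, h6⟩ := (sol_of_el hL hA hγ).uniq (lag_of hL) (lft2_ana hL) h4 (s := t₀)
    (by
      show γ t₀ = X (t₀ - (t₀ - s))
      rw [h0, e0])
    (by
      show deriv γ t₀ = W (t₀ - (t₀ - s))
      rw [h1, e0])
  have e : t₀ + r - (t₀ - s) = s + r := by ring
  have h7 : γ (t₀ + r) = X (s + r) := by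
    have h8 := congrFun h5 (t₀ + r)
    rw [← e]
    exact h8
  have h9 : deriv γ (t₀ + r) = W (s + r) := by
    have h8 := congrFun h6 (t₀ + r)
    rw [← e]
    exact h8
  rw [h7, h9]

private theorem oq_proj' : IsOpenQuotientMap (proj (n := n)) := by
  have h1 : IsOpenQuotientMap (Pi.map fun (_ : Fin n) (x : ℝ) => (x : UnitAddCircle)) :=
    IsOpenQuotientMap.piMap fun _ => QuotientAddGroup.isOpenQuotientMap_mk
  exact h1.comp (PiLp.homeomorph 2 (fun _ : Fin n => ℝ)).isOpenQuotientMap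

private theorem cont_F (hL : Tonelli L) (hA : Auto L) (c : Vec n) :
    Continuous fun z : Phase n => L z.1 z.2.1 z.2.2 - ⟪c, z.2.1⟫ := by
  have h1 : IsOpenQuotientMap (Prod.map (proj (n := n)) (id : Vec n → Vec n)) :=
    oq_proj'.prodMap IsOpenQuotientMap.id
  have h2 : Continuous fun p : Torus n × Vec n => L p.1 p.2 0 :=
    h1.continuous_comp_iff.1 (lag_of hL).sm.continuous
  have h3 : Continuous fun z : Phase n => ((z.1, z.2.1) : Torus n × Vec n) :=
    continuous_fst.prodMk (continuous_fst.comp continuous_snd)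
  have h4 : Continuous fun z : Phase n => L z.1 z.2.1 0 := h2.comp h3
  have h5 : (fun z : Phase n => L z.1 z.2.1 z.2.2) = fun z : Phase n => L z.1 z.2.1 0 :=
    funext fun z => hA _ _ _ _
  have h6 : Continuous fun z : Phase n => L z.1 z.2.1 z.2.2 := by
    rw [h5]
    exact h4
  have h7 : Continuous fun z : Phase n => z.2.1 := continuous_fst.comp continuous_snd
  exact h6.sub (continuous_const.inner h7)

theorem bdd_act (hL : Tonelli L) (hA : Auto L) (φ : ℝ → Phase n → Phase n) (c : Vec n) :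
    BddBelow (actions L φ c) := by
  obtain ⟨C₁, hb⟩ := low_bdd2 hL hA c
  refine ⟨-C₁, ?_⟩
  rintro r ⟨μ, ⟨hμ, -⟩, hint, rfl⟩
  have h1 := integral_mono (μ := μ) (integrable_const (-C₁)) hint hb
  rw [integral_const, probReal_univ, one_smul] at h1
  exact h1

theorem act_mem2 (hL : Tonelli L) (hA : Auto L) (hφ : IsELFlow L φ) (c : Vec n) {T : ℝ}
    (h0 : 0 < T) {y : Vec n × Vec n} {m : Fin n → ℤ}
    (hy : fl (lft2 L) T y = (y.1 + zv m, y.2)) :
    T⁻¹ * (Ax (lft2 L) T y - ⟪c, zv m⟫) ∈ actions L φ c := by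
  have hT := ton_of hL hA hφ
  have hSol : Sol (lft2 L) (fun t => (fl (lft2 L) t y).1) fun t => (fl (lft2 L) t y).2 :=
    hT.sol y
  have hper : ∀ t, fl (lft2 L) (t + T) y = ((fl (lft2 L) t y).1 + zv m, (fl (lft2 L) t y).2) := by
    intro t
    rw [hT.add, hy]
    exact hT.shift t y m
  obtain ⟨X, hX⟩ : ∃ X : ℝ → Vec n, X = fun t => (fl (lft2 L) t y).1 := ⟨_, rfl⟩
  obtain ⟨W, hW⟩ : ∃ W : ℝ → Vec n, W = fun t => (fl (lft2 L) t y).2 := ⟨_, rfl⟩
  rw [← hX, ← hW] at hSol
  have hXT : ∀ t, X (t + T) = X t + zv m := by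
    intro t
    rw [hX]
    simp only
    rw [hper]
  have hWT : ∀ t, W (t + T) = W t := by
    intro t
    rw [hW]
    simp only
    rw [hper]
  have : Fact (0 < T) := ⟨h0⟩
  have hXc : Continuous X := hSol.cx
  have hWc : Continuous W := hSol.cw hT.lag
  have hpX : Function.Periodic (fun s => proj (X s)) T := by
    intro s
    show proj (X (s + T)) = proj (X s)
    rw [hXT, proj_zv]
  have hpW : Function.Periodic W T := hWT
  have hcP : Continuous hpX.lift := by
    rw [← QuotientAddGroup.isOpenQuotientMap_mk.continuous_comp_iff]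
    exact oq_proj'.continuous.comp hXc
  have hcQ : Continuous hpW.lift := by
    rw [← QuotientAddGroup.isOpenQuotientMap_mk.continuous_comp_iff]
    exact hWc
  set G : AddCircle T × UnitAddCircle → Phase n :=
    fun p => (hpX.lift p.1, hpW.lift p.1, p.2) with hG
  have hGc : Continuous G :=
    (hcP.comp continuous_fst).prodMk ((hcQ.comp continuous_fst).prodMk continuous_snd)
  set ν : Measure (AddCircle T × UnitAddCircle) :=
    (AddCircle.haarAddCircle (T := T)).prod (AddCircle.haarAddCircle (T := (1 : ℝ))) with hν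
  have hflow : ∀ (r : ℝ) (p : AddCircle T × UnitAddCircle),
      φ r (G p) = G (p + ((r : AddCircle T), (r : UnitAddCircle))) := by
    rintro r ⟨s, t₀⟩
    induction s using QuotientAddGroup.induction_on with
    | H s =>
      induction t₀ using QuotientAddGroup.induction_on with
      | H t₀ => exact flow_sol hL hA hφ hSol s t₀ r
  have hφc : ∀ r, Continuous (φ r) := fun r => by
    have := hφ.cont.comp (Continuous.prodMk_right (X := ℝ) (Y := Phase n) r)
    exact this
  refine ⟨ν.map G, ⟨Measure.isProbabilityMeasure_map hGc.aemeasurable, fun r => ?_⟩, ?_⟩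
  · rw [Measure.map_map (hφc r).measurable hGc.measurable]
    have h1 : φ r ∘ G = G ∘ (fun p => p + ((r : AddCircle T), (r : UnitAddCircle))) := by
      funext p
      exact hflow r p
    rw [h1, ← Measure.map_map hGc.measurable (measurable_add_const _), map_add_right_eq_self]
  · set F : Phase n → ℝ := fun z => L z.1 z.2.1 z.2.2 - ⟪c, z.2.1⟫ with hF
    have hFc : Continuous F := cont_F hL hA c
    have hint : Integrable (fun p => F (G p)) ν := by
      have hc : Continuous fun p => F (G p) := hFc.comp hGc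
      exact hc.integrable_of_hasCompactSupport (HasCompactSupport.of_compactSpace _)
    refine ⟨(integrable_map_measure hFc.aestronglyMeasurable hGc.aemeasurable).2 hint, ?_⟩
    rw [integral_map hGc.aemeasurable hFc.aestronglyMeasurable]
    have h1 : ∫ p, F (G p) ∂ν = ∫ s, F (G (s, 0)) ∂(AddCircle.haarAddCircle (T := T)) := by
      have h2 := integral_fun_fst (μ := AddCircle.haarAddCircle (T := T))
        (ν := AddCircle.haarAddCircle (T := (1 : ℝ))) (fun s => F (G (s, 0)))
      rw [probReal_univ, one_smul] at h2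
      rw [← h2]
      refine integral_congr_ae (Filter.Eventually.of_forall fun p => ?_)
      show L _ _ _ - _ = L _ _ _ - _
      rw [hA _ _ (G p).2.2 0]
    show _ = ∫ p, F (G p) ∂ν
    rw [h1, AddCircle.integral_haarAddCircle, ← AddCircle.intervalIntegral_preimage T 0,
      zero_add, smul_eq_mul]
    congr 1
    have h3 : ∀ t : ℝ, F (G ((t : AddCircle T), 0)) = lft2 L (fl (lft2 L) t y) - ⟪c, W t⟫ := by
      intro t
      rw [hF, hG]
      show L (proj (X t)) (W t) 0 - ⟪c, W t⟫ = _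
      rw [hX, hW]
      rfl
    have h6 : Continuous fun t => ⟪c, W t⟫ := continuous_const.inner hWc
    have h7 : ∫ t in (0 : ℝ)..T, ⟪c, W t⟫ = ⟪c, zv m⟫ := by
      have h8 : ∀ t ∈ uIcc (0 : ℝ) T, HasDerivAt (fun t => ⟪c, X t⟫) (⟪c, W t⟫) t := by
        intro t _
        have := (HasDerivAt.inner ℝ (hasDerivAt_const t c) (hSol.dx t))
        simpa using this
      rw [intervalIntegral.integral_eq_sub_of_hasDerivAt h8 (h6.intervalIntegrable _ _)]
      have h9 := hXT 0
      rw [zero_add] at h9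
      rw [← inner_sub_right, h9, add_sub_cancel_left]
    rw [intervalIntegral.integral_congr (g := fun t => lft2 L (fl (lft2 L) t y) - ⟪c, W t⟫)
      (fun t _ => h3 t), intervalIntegral.integral_sub (hT.integrable y 0 T)
      (h6.intervalIntegrable _ _), h7]
    rfl

theorem alpha_ge (hL : Tonelli L) (hA : Auto L) (hφ : IsELFlow L φ) (c : Vec n) {T : ℝ}
    (h0 : 0 < T) {y : Vec n × Vec n} {m : Fin n → ℤ}
    (hy : fl (lft2 L) T y = (y.1 + zv m, y.2)) :
    ⟪c, zv m⟫ ≤ Ax (lft2 L) T y + alpha L φ c * T := by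
  have h1 : -alpha L φ c ≤ T⁻¹ * (Ax (lft2 L) T y - ⟪c, zv m⟫) := by
    rw [alpha, neg_neg]
    exact csInf_le (bdd_act hL hA φ c) (act_mem2 hL hA hφ c h0 hy)
  rw [inv_mul_eq_div, le_div_iff₀ h0] at h1
  linarith

end Pool.Agent.DV
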