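import Pool.Agent.DV.Mem
import Pool.Agent.DV.Dis
import Pool.Agent.DV.Clo

/-!
# MP_74f563_an (D2), block V, file DV/Up: the function `α` and the closed curve inequality (V6)

PROOF of `alpha_le_of_clr`.  Template: `Pool.Agent.LRig.VQ.alpha_le_of_clo`.  `ℓ = lft2 L`.
The set `actions L φ c` is not empty (`act_mem2` for the closed orbit of `closed_orbit` applied to a
constant curve, `m = 0`, `T = 1`), so it is enough (`le_csInf`) that every invariant probability
measure `μ` with `F z = L z.1 z.2.1 z.2.2 - ⟪c, z.2.1⟫` integrable has `∫ F dμ ≥ -E`.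
Key estimate: by `rch_low` (with `E₀ := E`, both levels `E`) there is `C` with
`∫_0^k F (φ s z) ds ≥ -E k - C` for all `k : ℕ`, `k ≥ 1`, and all `z`: for `z = (proj x, v, t)` the orbit is
`φ s z = (proj γ(t+s), γ'(t+s), t+s)` (`IsELFlow.orbit`), `sol_of_el`, and
`∫_0^k (ℓ - ⟪c, γ'⟫) = act - ⟪c, γ(t+k) - γ(t)⟫ ≥ -E k - C`.
Integrate over `μ` (Fubini and invariance, as in `MechAlpha/Upper.action_ge`, `NOne/BrGe`,
`LRig/VQ`): `k ∫ F dμ ≥ -E k - C`; divide by `k → ∞`.

PROOF of `clr_of_alpha_le`.  Let `(z,u)` be a closed curve of class `m`, duration `T`.  `closed_orbit`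
gives `y` with `Ax T y ≤ act z u 0 T`, and `alpha_ge`: `⟪c, zv m⟫ ≤ Ax T y + alpha T ≤ act + E T`.
(A curve from `x` to `x + zv m`: `z T = z 0 + zv m`.)

PROOF of `clr_alpha`: `clr_of_alpha_le` with `E = alpha L φ c`.
-/

set_option autoImplicit false

namespace Pool.Agent.DV

open Set Filter Topology MeasureTheory Pool.Agent.MechAlpha Pool.Agent.DF Pool.Agent.LRig
open Pool.Agent.NOne (Tonelli)
open scoped ContDiff RealInnerProductSpace

variable {n : ℕ} {L : Torus n → Vec n → UnitAddCircle → ℝ} {φ : ℝ → Phase n → Phase n}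

private theorem zv_zero' : zv (0 : Fin n → ℤ) = 0 := by
  ext i
  simp [zv]

private theorem up_cont (hL : Tonelli L) : Continuous fun z : Phase n => L z.1 z.2.1 z.2.2 := by
  have h0 : IsOpenQuotientMap (proj (n := n)) := by
    have h1 : IsOpenQuotientMap (Pi.map fun (_ : Fin n) (x : ℝ) => (x : UnitAddCircle)) :=
      IsOpenQuotientMap.piMap fun _ => QuotientAddGroup.isOpenQuotientMap_mk
    exact h1.comp (PiLp.homeomorph 2 (fun _ : Fin n => ℝ)).isOpenQuotientMap
  have h1 : IsOpenQuotientMap (fun x : ℝ => (x : UnitAddCircle)) :=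
    QuotientAddGroup.isOpenQuotientMap_mk
  have h2 := h0.prodMap ((IsOpenQuotientMap.id (X := Vec n)).prodMap h1)
  refine h2.continuous_comp_iff.1 ?_
  exact continuousOn_univ.1 hL.ana.continuousOn

/-- the lower bound along the orbits -/
private theorem up_key (hL : Tonelli L) (hA : Auto L) (hφ : IsELFlow L φ) {c : Vec n} {E : ℝ}
    (h : Clr (lft2 L) c E) : ∃ C : ℝ, ∀ (k : ℕ) (z : Phase n), -(E * k) - C ≤
      ∫ s in (0 : ℝ)..k, (L (φ s z).1 (φ s z).2.1 (φ s z).2.2 - ⟪c, (φ s z).2.1⟫) := by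
  have hT := ton_of hL hA hφ
  obtain ⟨C, hC, hlow⟩ := rch_low hT h
  refine ⟨C, fun k z => ?_⟩
  obtain ⟨q, v, τ⟩ := z
  obtain ⟨x, rfl⟩ := proj_onto q
  obtain ⟨t, rfl⟩ := QuotientAddGroup.mk_surjective τ
  obtain ⟨γ, hγ, -, -, hfl⟩ := hφ.orbit x v t
  have hS := (sol_of_el hL hA hγ).shift0 (-t)
  rcases Nat.eq_zero_or_pos k with h0 | h0
  · subst h0
    simp only [Nat.cast_zero, mul_zero, neg_zero, intervalIntegral.integral_same]
    linarith
  have hk : (0 : ℝ) < k := by exact_mod_cast h0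
  have hv := hS.vcv hT.lag hk.le
  have h1 := hlow E _ _ k hk hv
  have e1 : (∫ s in (0 : ℝ)..k, (L (φ s (proj x, v, (t : UnitAddCircle))).1
        (φ s (proj x, v, (t : UnitAddCircle))).2.1 (φ s (proj x, v, (t : UnitAddCircle))).2.2 -
      ⟪c, (φ s (proj x, v, (t : UnitAddCircle))).2.1⟫)) =
      ∫ s in (0 : ℝ)..k, (lft2 L (γ (s - -t), deriv γ (s - -t)) - ⟪c, deriv γ (s - -t)⟫) := by
    refine intervalIntegral.integral_congr fun s _ => ?_
    have e2 : s - -t = t + s := by ring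
    simp only [hfl s, e2]
    congr 1
    exact hA _ _ _ _
  change _ ≤ (∫ s in (0 : ℝ)..k, (L (φ s (proj x, v, (t : UnitAddCircle))).1
        (φ s (proj x, v, (t : UnitAddCircle))).2.1 (φ s (proj x, v, (t : UnitAddCircle))).2.2 -
      ⟪c, (φ s (proj x, v, (t : UnitAddCircle))).2.1⟫))
  have i1 := act_int hT.cl hv
  have i2 := hv.integrable
  have i3 : IntervalIntegrable (fun s => ⟪c, deriv γ (s - -t)⟫) volume 0 (k : ℝ) :=
    ⟨i2.1.const_inner c, i2.2.const_inner c⟩
  have e3 : ∫ s in (0 : ℝ)..k, ⟪c, deriv γ (s - -t)⟫ = ⟪c, γ (k - -t) - γ (0 - -t)⟫ := by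
    have h2 := hv.ftc
    rw [← h2, intervalIntegral.integral_of_le hk.le, intervalIntegral.integral_of_le hk.le]
    exact integral_inner i2.1 c
  rw [e1, intervalIntegral.integral_sub i1 i3, e3]
  unfold act at h1
  linarith

theorem alpha_le_of_clr (hL : Tonelli L) (hA : Auto L) (hφ : IsELFlow L φ) {c : Vec n} {E : ℝ}
    (h : Clr (lft2 L) c E) : alpha L φ c ≤ E := by
  have hT := ton_of hL hA hφ
  have hne : (actions L φ c).Nonempty := by
    have hz := VCv.line (n := n) 0 0 (zero_le_one (α := ℝ))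
    obtain ⟨y, hy, -⟩ := closed_orbit hT one_pos hz (m := 0) (by simp [zv_zero'])
    exact ⟨_, act_mem2 hL hA hφ c one_pos hy⟩
  unfold alpha
  rw [neg_le]
  refine le_csInf hne fun r hr => ?_
  obtain ⟨C, key⟩ := up_key hL hA hφ h
  obtain ⟨μ, ⟨hμ, hinv⟩, hint, rfl⟩ := hr
  obtain ⟨F, hF⟩ : ∃ F : Phase n → ℝ, F = fun z => L z.1 z.2.1 z.2.2 - ⟪c, z.2.1⟫ := ⟨_, rfl⟩
  rw [← hF] at hint ⊢
  have hkey : ∀ (k : ℕ) (z : Phase n), -(E * k) - C ≤ ∫ s in (0 : ℝ)..k, F (φ s z) := by
    rw [hF]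
    exact key
  have hFc : Continuous F := by
    have h2 : Continuous fun z : Phase n => z.2.1 := continuous_fst.comp continuous_snd
    rw [hF]
    exact (up_cont hL).sub (continuous_const.inner h2)
  have hφc : ∀ s, Continuous (φ s) := fun s => by
    have := hφ.cont.comp (Continuous.prodMk_right (X := ℝ) (Y := Phase n) s)
    exact this
  -- Fubini
  have main : ∀ k : ℕ, -(E * k) - C ≤ k * ∫ z, F z ∂μ := by
    intro k
    have hτ : (0 : ℝ) ≤ k := Nat.cast_nonneg k
    have hmeas : ∀ s, MeasurePreserving (φ s) μ μ := fun s => ⟨(hφc s).measurable, hinv s⟩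
    have hints : ∀ s, Integrable (fun z => F (φ s z)) μ := fun s =>
      (hmeas s).integrable_comp_of_integrable hint
    have hjoint : Continuous (Function.uncurry fun (s : ℝ) (z : Phase n) => F (φ s z)) :=
      hFc.comp hφ.cont
    have hprod : Integrable (Function.uncurry fun (s : ℝ) (z : Phase n) => F (φ s z))
        ((volume.restrict (Ioc (0 : ℝ) k)).prod μ) := by
      rw [integrable_prod_iff hjoint.aestronglyMeasurable]
      refine ⟨Filter.Eventually.of_forall fun s => hints s, ?_⟩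
      have h1 : ∀ s : ℝ, ∫ z, ‖F (φ s z)‖ ∂μ = ∫ z, ‖F z‖ ∂μ := by
        intro s
        have h2 := integral_map (hmeas s).aemeasurable
          (f := fun z => ‖F z‖) (μ := μ) (hFc.norm.aestronglyMeasurable)
        rw [hinv s] at h2
        exact h2.symm
      have h2 : (fun s : ℝ => ∫ z, ‖F (φ s z)‖ ∂μ) = fun _ => ∫ z, ‖F z‖ ∂μ := funext h1
      show Integrable (fun s : ℝ => ∫ z, ‖F (φ s z)‖ ∂μ) _
      rw [h2]
      exact integrable_const _
    have hswap := integral_integral_swap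
      (μ := volume.restrict (Ioc (0 : ℝ) k)) (ν := μ) hprod
    have h1 : ∀ s : ℝ, ∫ z, F (φ s z) ∂μ = ∫ z, F z ∂μ := by
      intro s
      have h2 := integral_map (hmeas s).aemeasurable (f := F) (μ := μ) hFc.aestronglyMeasurable
      rw [hinv s] at h2
      exact h2.symm
    have h2 : ∫ s in Ioc (0 : ℝ) k, ∫ z, F (φ s z) ∂μ = k * ∫ z, F z ∂μ := by
      simp only [h1]
      rw [setIntegral_const]
      simp
    rw [← h2, hswap]
    have h3 : ∫ z, (-(E * k) - C) ∂μ = -(E * k) - C := by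
      rw [integral_const]
      simp
    rw [← h3]
    refine integral_mono (integrable_const _) hprod.integral_prod_right fun z => ?_
    have h4 := hkey k z
    rw [intervalIntegral.integral_of_le hτ] at h4
    exact h4
  -- the limit
  by_contra hcon
  push Not at hcon
  obtain ⟨r, hr⟩ : ∃ r : ℝ, r = ∫ z, F z ∂μ := ⟨_, rfl⟩
  rw [← hr] at hcon main
  have hd : 0 < -E - r := by linarith
  obtain ⟨k, hk⟩ := exists_nat_gt (|C| / (-E - r))
  rw [div_lt_iff₀ hd] at hk
  have h1 := main k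
  have h2 := le_abs_self C
  nlinarith

theorem clr_of_alpha_le (hL : Tonelli L) (hA : Auto L) (hφ : IsELFlow L φ) {c : Vec n} {E : ℝ}
    (h : alpha L φ c ≤ E) : Clr (lft2 L) c E := by
  rintro x m r ⟨z, u, T, h0, hz, rfl, hzT, rfl⟩
  obtain ⟨y, hy, hact⟩ := closed_orbit (ton_of hL hA hφ) h0 hz hzT
  have h1 := alpha_ge hL hA hφ c h0 hy
  have h2 : alpha L φ c * T ≤ E * T := mul_le_mul_of_nonneg_right h h0.le
  linarith

theorem clr_iff (hL : Tonelli L) (hA : Auto L) (hφ : IsELFlow L φ) {c : Vec n} {E : ℝ} :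
    Clr (lft2 L) c E ↔ alpha L φ c ≤ E :=
  ⟨alpha_le_of_clr hL hA hφ, clr_of_alpha_le hL hA hφ⟩

end Pool.Agent.DV
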