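import Pool.Agent.DV.Up
import Pool.Agent.DV.Hr

/-!
# MP_74f563_an (D2), block V, file DV/V7: the minimum of `α` (V7)
-/

set_option autoImplicit false

namespace Pool.Agent.DV

open Set Filter Topology MeasureTheory Pool.Agent.MechAlpha Pool.Agent.DF Pool.Agent.LRig
open Pool.Agent.NOne (Tonelli)
open scoped ContDiff RealInnerProductSpace

variable {n : ℕ} {L : Torus n → Vec n → UnitAddCircle → ℝ} {φ : ℝ → Phase n → Phase n}

theorem alpha_cont (h : StrictConvexOn ℝ univ (alpha L φ)) : Continuous (alpha L φ) :=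
  h.convexOn.locallyLipschitz.continuous

theorem norm_le_sum (c : Vec n) : ‖c‖ ≤ ∑ i, |c i| := by
  have h1 : c = ∑ i : Fin n, c i • (EuclideanSpace.single i (1 : ℝ) : Vec n) := by
    ext j
    simp [Finset.sum_apply, Pi.single_apply]
  calc ‖c‖ = ‖∑ i : Fin n, c i • (EuclideanSpace.single i (1 : ℝ) : Vec n)‖ := by rw [← h1]
    _ ≤ ∑ i, ‖c i • (EuclideanSpace.single i (1 : ℝ) : Vec n)‖ := norm_sum_le _ _
    _ = ∑ i, |c i| := by
        refine Finset.sum_congr rfl fun i _ => ?_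
        rw [norm_smul, Real.norm_eq_abs]
        simp

/-- the sublevels of `α` are bounded -/
theorem alpha_coe (hL : Tonelli L) (hA : Auto L) (hφ : IsELFlow L φ) (E : ℝ) :
    ∃ R : ℝ, ∀ c : Vec n, alpha L φ c ≤ E → ‖c‖ ≤ R := by
  classical
  obtain ⟨C, hC, hl⟩ := rch_line (ton_of hL hA hφ)
  refine ⟨∑ _i : Fin n, (C + E), fun c hc => (norm_le_sum c).trans
    (Finset.sum_le_sum fun i _ => ?_)⟩
  have h1 := clr_of_alpha_le hL hA hφ hc
  have h2 : ∀ m : Fin n → ℤ, ‖(zv m : Vec n)‖ ≤ 1 → ⟪c, zv m⟫ ≤ C + E := by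
    intro m hm
    obtain ⟨r, hr, hr'⟩ := hl E 0 (0 + zv m) 1 one_pos (by rw [zero_add, sub_zero]; exact hm)
    rw [mul_one] at hr'
    exact (h1 0 m r hr).trans hr'
  have e1 : ∀ a : ℤ, (zv (Pi.single i a) : Vec n) = EuclideanSpace.single i (a : ℝ) := by
    intro a
    ext j
    change (((Pi.single i a : Fin n → ℤ) j : ℤ) : ℝ) = _
    by_cases hj : j = i
    · subst hj
      simp
    · simp [hj]
  rw [abs_le]
  constructor
  · have h3 := h2 (Pi.single i (-1)) (by rw [e1]; simp)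
    rw [e1, EuclideanSpace.inner_single_right] at h3
    simp only [Int.cast_neg, Int.cast_one, conj_trivial] at h3
    linarith
  · have h3 := h2 (Pi.single i 1) (by rw [e1]; simp)
    rw [e1, EuclideanSpace.inner_single_right] at h3
    simp only [Int.cast_one, conj_trivial] at h3
    linarith

/-- `α` has a minimum -/
theorem alpha_min (hL : Tonelli L) (hA : Auto L) (hφ : IsELFlow L φ)
    (h : StrictConvexOn ℝ univ (alpha L φ)) : ∃ c₀, ∀ c, alpha L φ c₀ ≤ alpha L φ c := by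
  obtain ⟨R, hR⟩ := alpha_coe hL hA hφ (alpha L φ 0)
  exact (alpha_cont h).exists_forall_le_of_isBounded 0
    (Metric.isBounded_closedBall.subset fun c hc => mem_closedBall_zero_iff.2 (hR c hc))

/-- rest points -/
theorem rest_le {ℓ : Vec n × Vec n → ℝ} (hT : Ton ℓ) {c : Vec n} {E₀ : ℝ} (h0 : Clr ℓ c E₀)
    (x : Vec n) : en ℓ (x, 0) ≤ E₀ := by
  have hz : VCv (fun _ => x) (fun _ => (0 : Vec n)) 0 1 := by
    have := VCv.line x (0 : Vec n) (zero_le_one (α := ℝ))
    simpa using this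
  have h1 : (zv (0 : Fin n → ℤ) : Vec n) = 0 := by
    ext i
    change (((0 : Fin n → ℤ) i : ℤ) : ℝ) = 0
    simp
  have h2 := h0 x 0 (act ℓ (fun _ => x) (fun _ => 0) 0 1 + E₀ * 1)
    ⟨_, _, 1, one_pos, hz, rfl, by rw [h1, add_zero], rfl⟩
  rw [h1, inner_zero_right] at h2
  have h3 : act ℓ (fun _ => x) (fun _ => (0 : Vec n)) 0 1 = ℓ (x, 0) := by
    unfold act
    rw [intervalIntegral.integral_const]
    simp
  rw [h3] at h2
  rw [en_zero]
  linarith

end Pool.Agent.DV
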