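import Pool.Agent.DV.Cor
import Pool.Agent.DV.Flow

/-!
# MP_74f563_an, n = 2 autonomous (D2), block V: definitions (any n)

`Ton ℓ`: an autonomous Tonelli Lagrangian on `ℝⁿ × ℝⁿ`, `ℤⁿ`-periodic, real-analytic, complete flow
`fl ℓ t z` (position and velocity at time `t` of the solution with initial data `z`).
`Rch ℓ E x y r`: `r = ∫ (ℓ + E)` for some curve from `x` to `y` (of any positive duration).
`Clr ℓ c E`: the closed curve inequality `∫ (ℓ - c·u + E) ≥ 0`.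
`Dx ℓ E x y`: the infimum of the costs of the curves from `x` to `y`.
-/

set_option autoImplicit false

namespace Pool.Agent.DV

open Set Filter Topology MeasureTheory Pool.Agent.MechAlpha Pool.Agent.DF Pool.Agent.LRig
open scoped ContDiff RealInnerProductSpace

variable {n : ℕ}

/-- an autonomous Tonelli Lagrangian with complete flow -/
structure Ton (ℓ : Vec n × Vec n → ℝ) : Prop where
  lag : Lag ℓ
  per : Pr ℓ
  ana : AnalyticOnNhd ℝ ℓ univ
  cpl : Cpl ℓ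

/-- the action of the solution with initial data `z` on `[0, t]` -/
noncomputable def Ax (ℓ : Vec n × Vec n → ℝ) (t : ℝ) (z : Vec n × Vec n) : ℝ :=
  ∫ s in (0 : ℝ)..t, ℓ (fl ℓ s z)

/-- `r` is the cost `∫ (ℓ + E)` of a curve from `x` to `y` -/
def Rch (ℓ : Vec n × Vec n → ℝ) (E : ℝ) (x y : Vec n) (r : ℝ) : Prop :=
  ∃ (z u : ℝ → Vec n) (T : ℝ), 0 < T ∧ VCv z u 0 T ∧ z 0 = x ∧ z T = y ∧
    act ℓ z u 0 T + E * T = r

/-- the closed curve inequality -/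
def Clr (ℓ : Vec n × Vec n → ℝ) (c : Vec n) (E : ℝ) : Prop :=
  ∀ (x : Vec n) (m : Fin n → ℤ) (r : ℝ), Rch ℓ E x (x + zv m) r → ⟪c, zv m⟫ ≤ r

/-- the minimal cost -/
noncomputable def Dx (ℓ : Vec n × Vec n → ℝ) (E : ℝ) (x y : Vec n) : ℝ := sInf {r | Rch ℓ E x y r}

variable {ℓ : Vec n × Vec n → ℝ}

theorem Ton.cl (hT : Ton ℓ) : Continuous ℓ := hT.lag.sm.continuous

theorem Ton.sol (hT : Ton ℓ) (z : Vec n × Vec n) :
    Sol ℓ (fun t => (fl ℓ t z).1) (fun t => (fl ℓ t z).2) := fl_sol hT.cpl z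

theorem Ton.zero (hT : Ton ℓ) (z : Vec n × Vec n) : fl ℓ 0 z = z := fl_zero hT.cpl z

theorem Ton.add (hT : Ton ℓ) (s t : ℝ) (z : Vec n × Vec n) :
    fl ℓ (s + t) z = fl ℓ s (fl ℓ t z) := fl_add hT.lag hT.ana hT.cpl s t z

theorem Ton.shift (hT : Ton ℓ) (t : ℝ) (z : Vec n × Vec n) (l : Fin n → ℤ) :
    fl ℓ t (z.1 + zv l, z.2) = ((fl ℓ t z).1 + zv l, (fl ℓ t z).2) :=
  fl_per hT.lag hT.per hT.ana hT.cpl t z l

theorem Ton.eq_fl (hT : Ton ℓ) {X W : ℝ → Vec n} (h : Sol ℓ X W) (t : ℝ) :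
    (X t, W t) = fl ℓ t (X 0, W 0) := h.eq_fl hT.lag hT.ana hT.cpl t

theorem Ton.cont (hT : Ton ℓ) : Continuous fun q : ℝ × Vec n × Vec n => fl ℓ q.1 q.2 :=
  continuous_iff_continuousAt.2 fun q => (fl_ana hT.lag hT.ana hT.cpl q (mem_univ q)).continuousAt

theorem Ton.en_fl (hT : Ton ℓ) (t : ℝ) (z : Vec n × Vec n) : en ℓ (fl ℓ t z) = en ℓ z := by
  have h := (hT.sol z).en_const hT.lag t 0
  simp only [Prod.mk.eta] at h
  rw [hT.zero] at h
  exact h

theorem Ax_eq (ℓ : Vec n × Vec n → ℝ) (t : ℝ) (z : Vec n × Vec n) :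
    Ax ℓ t z = act ℓ (fun s => (fl ℓ s z).1) (fun s => (fl ℓ s z).2) 0 t := rfl

/-- the action of a solution -/
theorem Ton.act_sol (hT : Ton ℓ) {X W : ℝ → Vec n} (h : Sol ℓ X W) (t : ℝ) :
    act ℓ X W 0 t = Ax ℓ t (X 0, W 0) := by
  unfold act Ax
  refine intervalIntegral.integral_congr fun s _ => ?_
  rw [← hT.eq_fl h s]

theorem Ton.vcv (hT : Ton ℓ) (z : Vec n × Vec n) {a b : ℝ} (hab : a ≤ b) :
    VCv (fun t => (fl ℓ t z).1) (fun t => (fl ℓ t z).2) a b := (hT.sol z).vcv hT.lag hab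

theorem Ton.integrable (hT : Ton ℓ) (z : Vec n × Vec n) (a b : ℝ) :
    IntervalIntegrable (fun s => ℓ (fl ℓ s z)) volume a b := by
  have h : Continuous fun s : ℝ => ℓ (fl ℓ s z) :=
    hT.cl.comp (hT.cont.comp (Continuous.prodMk_left z))
  exact h.intervalIntegrable a b

theorem Ton.ax_add (hT : Ton ℓ) (s t : ℝ) (z : Vec n × Vec n) :
    Ax ℓ (t + s) z = Ax ℓ t z + Ax ℓ s (fl ℓ t z) := by
  unfold Ax
  rw [← intervalIntegral.integral_add_adjacent_intervals (hT.integrable z 0 t)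
    (hT.integrable z t (t + s))]
  congr 1
  have h3 := intervalIntegral.integral_comp_add_right (a := 0) (b := s)
    (fun r => ℓ (fl ℓ r z)) t
  rw [zero_add, add_comm s t] at h3
  rw [← h3]
  refine intervalIntegral.integral_congr fun r _ => ?_
  rw [hT.add]

theorem Ton.ax_shift (hT : Ton ℓ) (t : ℝ) (z : Vec n × Vec n) (l : Fin n → ℤ) :
    Ax ℓ t (z.1 + zv l, z.2) = Ax ℓ t z := by
  unfold Ax
  refine intervalIntegral.integral_congr fun s _ => ?_
  rw [hT.shift, hT.per]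

theorem Ton.ax_cont (hT : Ton ℓ) : Continuous fun q : ℝ × Vec n × Vec n => Ax ℓ q.1 q.2 := by
  unfold Ax
  have h1 : Continuous (Function.uncurry fun (q : ℝ × Vec n × Vec n) (s : ℝ) => ℓ (fl ℓ s q.2)) := by
    have h2 : Continuous fun p : (ℝ × Vec n × Vec n) × ℝ => ((p.2, p.1.2) : ℝ × Vec n × Vec n) := by
      fun_prop
    exact hT.cl.comp (hT.cont.comp h2)
  exact intervalIntegral.continuous_parametric_intervalIntegral_of_continuous
    (a₀ := (0 : ℝ)) h1 continuous_fst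

/-- the solution is a competitor -/
theorem Ton.rch (hT : Ton ℓ) (E : ℝ) {T : ℝ} (h0 : 0 < T) (z : Vec n × Vec n) :
    Rch ℓ E z.1 (fl ℓ T z).1 (Ax ℓ T z + E * T) := by
  refine ⟨_, _, T, h0, hT.vcv z h0.le, ?_, rfl, rfl⟩
  rw [hT.zero]

end Pool.Agent.DV
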