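import Pool.Agent.DV.Bas
import Pool.Agent.LRig.VA

/-!
# MP_74f563_an, n = 2 autonomous (D2), file DV/Var: solutions, actions, first variation (any n)
-/

set_option autoImplicit false

namespace Pool.Agent.DV

open Set Filter Topology MeasureTheory Pool.Agent.MechAlpha Pool.Agent.DF Pool.Agent.LRig
open scoped ContDiff RealInnerProductSpace

variable {n : ℕ} {ℓ : Vec n × Vec n → ℝ}

/-- a solution of the Euler-Lagrange equation, with its velocity -/
structure Sol (ℓ : Vec n × Vec n → ℝ) (X W : ℝ → Vec n) : Prop where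
  dx : ∀ t, HasDerivAt X (W t) t
  dp : ∀ t, HasDerivAt (fun s => pm ℓ (X s, W s)) (gx ℓ (X t, W t)) t

/-- the action of a curve -/
noncomputable def act (ℓ : Vec n × Vec n → ℝ) (z u : ℝ → Vec n) (a b : ℝ) : ℝ :=
  ∫ t in a..b, ℓ (z t, u t)

variable {X W X' W' z u z' u' : ℝ → Vec n} {a b c : ℝ}

theorem Sol.cx (h : Sol ℓ X W) : Continuous X :=
  continuous_iff_continuousAt.2 fun t => (h.dx t).continuousAt

theorem Sol.cp (h : Sol ℓ X W) : Continuous fun s => pm ℓ (X s, W s) :=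
  continuous_iff_continuousAt.2 fun t => (h.dp t).continuousAt

theorem Sol.cw (hl : Lag ℓ) (h : Sol ℓ X W) : Continuous W := by
  have h1 : Continuous fun s => Lai ℓ (X s, pm ℓ (X s, W s)) :=
    hl.lai_smooth.continuous.comp (h.cx.prodMk h.cp)
  have e : (fun s => Lai ℓ (X s, pm ℓ (X s, W s))) = fun s => (X s, W s) :=
    funext fun s => hl.lai_lam (X s, W s)
  rw [e] at h1
  exact continuous_snd.comp h1

theorem Sol.vcv (hl : Lag ℓ) (h : Sol ℓ X W) {a b : ℝ} (hab : a ≤ b) : VCv X W a b := by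
  obtain ⟨M, hM⟩ := (isCompact_Icc (a := a) (b := b)).exists_bound_of_continuousOn
    (h.cw hl).continuousOn
  exact ⟨hab, h.cx.continuousOn, ⟨∅, countable_empty, fun t _ _ => h.dx t⟩, (h.cw hl).measurable,
    ⟨M, hM⟩⟩

theorem Sol.shift (hp : Pr ℓ) (h : Sol ℓ X W) (r : ℝ) (l : Fin n → ℤ) :
    Sol ℓ (fun t => X (t - r) + zv l) fun t => W (t - r) := by
  constructor
  · intro t
    exact ((h.dx (t - r)).comp_sub_const t r).add_const _
  · intro t
    have h1 := (h.dp (t - r)).comp_sub_const t r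
    have e : (fun s => pm ℓ (X (s - r) + zv l, W (s - r))) =
        fun s => pm ℓ (X (s - r), W (s - r)) := funext fun s => hp.pm _ _ _
    rw [e, hp.gx]
    exact h1

theorem Sol.shift0 (h : Sol ℓ X W) (r : ℝ) : Sol ℓ (fun t => X (t - r)) fun t => W (t - r) :=
  ⟨fun t => (h.dx (t - r)).comp_sub_const t r, fun t => (h.dp (t - r)).comp_sub_const t r⟩

/-- the energy is constant -/
theorem Sol.en_const (hl : Lag ℓ) (h : Sol ℓ X W) (s t : ℝ) :
    en ℓ (X s, W s) = en ℓ (X t, W t) := by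
  have hH : ∀ s, en ℓ (X s, W s) = Hm ℓ (X s, pm ℓ (X s, W s)) := by
    intro s
    have h3 : Lai ℓ (X s, pm ℓ (X s, W s)) = (X s, W s) := hl.lai_lam (X s, W s)
    unfold Hm
    rw [h3]
  have hd : ∀ s, HasDerivAt (fun s => en ℓ (X s, W s)) 0 s := by
    intro s
    have h1 := ((hl.hm_smooth.differentiable (by simp))
      (X s, pm ℓ (X s, W s))).hasFDerivAt.comp_hasDerivAt s ((h.dx s).prodMk (h.dp s))
    have h3 : Lai ℓ (X s, pm ℓ (X s, W s)) = (X s, W s) := hl.lai_lam (X s, W s)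
    rw [hl.hm_der, h3] at h1
    have e1 : ⟪gx ℓ (X s, W s), W s⟫ - ⟪gx ℓ (X s, W s), W s⟫ = 0 := sub_self _
    have h4 : HasDerivAt (fun s => Hm ℓ (X s, pm ℓ (X s, W s)))
        (⟪gx ℓ (X s, W s), W s⟫ - ⟪gx ℓ (X s, W s), W s⟫) s := h1
    rw [e1] at h4
    have e : (fun s => en ℓ (X s, W s)) = fun s => Hm ℓ (X s, pm ℓ (X s, W s)) := funext hH
    rw [e]
    exact h4
  exact is_const_of_deriv_eq_zero (fun s => (hd s).differentiableAt) (fun s => (hd s).deriv) s t

/-! ## Actions of curves -/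

private theorem tcv (h : VCv z u a b) : TCv 0 z u a b := by
  unfold TCv
  simpa using h

theorem act_int (hl : Continuous ℓ) (h : VCv z u a b) :
    IntervalIntegrable (fun t => ℓ (z t, u t)) volume a b :=
  integrable_cost (E := fun x v _ => ℓ (x, v))
    (hl.comp (continuous_fst.prodMk (continuous_fst.comp continuous_snd))) (tcv h)

theorem act_self (ℓ : Vec n × Vec n → ℝ) (z u : ℝ → Vec n) (a : ℝ) : act ℓ z u a a = 0 :=
  intervalIntegral.integral_same

theorem act_add (hl : Continuous ℓ) (h : VCv z u a c) (h1 : a ≤ b) (h2 : b ≤ c) :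
    act ℓ z u a b + act ℓ z u b c = act ℓ z u a c :=
  intervalIntegral.integral_add_adjacent_intervals
    (act_int hl (h.restrict le_rfl h1 h2)) (act_int hl (h.restrict h1 h2 le_rfl))

theorem act_glue (hl : Continuous ℓ) (h : VCv z u a b) (h' : VCv z' u' b c) (hb : z b = z' b) :
    act ℓ (fun t => if t ≤ b then z t else z' t) (fun t => if t ≤ b then u t else u' t) a c =
      act ℓ z u a b + act ℓ z' u' b c :=
  cost_glue (E := fun x v _ => ℓ (x, v))
    (hl.comp (continuous_fst.prodMk (continuous_fst.comp continuous_snd))) (tcv h) (tcv h') hb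

theorem act_shift (hp : Pr ℓ) (z u : ℝ → Vec n) (a b r : ℝ) (l : Fin n → ℤ) :
    act ℓ (fun t => z (t - r) + zv l) (fun t => u (t - r)) (a + r) (b + r) = act ℓ z u a b := by
  unfold act
  have h3 := intervalIntegral.integral_comp_sub_right (a := a + r) (b := b + r)
    (fun t => ℓ (z t, u t)) r
  rw [add_sub_cancel_right, add_sub_cancel_right] at h3
  rw [← h3]
  refine intervalIntegral.integral_congr fun t _ => ?_
  exact hp _ _ _

theorem act_shift0 (ℓ : Vec n × Vec n → ℝ) (z u : ℝ → Vec n) (a b r : ℝ) :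
    act ℓ (fun t => z (t - r)) (fun t => u (t - r)) (a + r) (b + r) = act ℓ z u a b := by
  unfold act
  have h3 := intervalIntegral.integral_comp_sub_right (a := a + r) (b := b + r)
    (fun t => ℓ (z t, u t)) r
  rw [add_sub_cancel_right, add_sub_cancel_right] at h3
  exact h3

theorem act_congr (hab : a ≤ b) (h1 : ∀ t ∈ Icc a b, z' t = z t) (h2 : ∀ t ∈ Icc a b, u' t = u t) :
    act ℓ z' u' a b = act ℓ z u a b := by
  unfold act
  refine intervalIntegral.integral_congr fun t ht => ?_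
  rw [uIcc_of_le hab] at ht
  rw [h1 t ht, h2 t ht]

/-! ## First variation -/

/-- First variation, with a uniform error. -/
theorem first_var (hl : Lag ℓ) (hp : Pr ℓ) (M : ℝ) : ∃ C : ℝ, 0 ≤ C ∧ ∀ X W : ℝ → Vec n,
    Sol ℓ X W → ∀ a b : ℝ, a ≤ b → (∀ t ∈ Icc a b, ‖W t‖ ≤ M) → ∀ (lam mu : ℝ → Vec n) (δ : ℝ),
    Continuous mu → (∀ t, HasDerivAt lam (mu t) t) → δ ≤ 1 →
    (∀ t ∈ Icc a b, ‖lam t‖ ≤ δ ∧ ‖mu t‖ ≤ δ) →
    |act ℓ (fun t => X t + lam t) (fun t => W t + mu t) a b - act ℓ X W a b -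
      (⟪pm ℓ (X b, W b), lam b⟫ - ⟪pm ℓ (X a, W a), lam a⟫)| ≤ C * δ ^ 2 * (b - a) := by
  obtain ⟨C, hC, hT⟩ := hp.taylor (hl.sm.of_le (by
    have : (2 : WithTop ℕ∞) = ((2 : ℕ∞) : WithTop ℕ∞) := rfl
    rw [this]
    exact WithTop.coe_le_coe.2 le_top)) (M + 1)
  refine ⟨C, hC, ?_⟩
  intro X W hS a b hab hW lam mu δ hmu hlam hδ hb
  have hXc := hS.cx
  have hWc := hS.cw hl
  have hlc : Continuous lam := continuous_iff_continuousAt.2 fun t => (hlam t).continuousAt
  have hgc : Continuous fun t => gx ℓ (X t, W t) := (gx_smooth hl).continuous.comp (hXc.prodMk hWc)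
  have hpc := hS.cp
  have hGc : Continuous fun t => ⟪gx ℓ (X t, W t), lam t⟫ + ⟪pm ℓ (X t, W t), mu t⟫ :=
    (hgc.inner hlc).add (hpc.inner hmu)
  have hG : ∫ t in a..b, (⟪gx ℓ (X t, W t), lam t⟫ + ⟪pm ℓ (X t, W t), mu t⟫) =
      ⟪pm ℓ (X b, W b), lam b⟫ - ⟪pm ℓ (X a, W a), lam a⟫ := by
    have h0 : ∀ t ∈ uIcc a b, HasDerivAt (fun s => ⟪pm ℓ (X s, W s), lam s⟫)
        (⟪gx ℓ (X t, W t), lam t⟫ + ⟪pm ℓ (X t, W t), mu t⟫) t := by
      intro t _
      have h3 := (hS.dp t).inner ℝ (hlam t)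
      rw [add_comm] at h3
      exact h3
    exact intervalIntegral.integral_eq_sub_of_hasDerivAt h0 (hGc.intervalIntegrable a b)
  have c1 : Continuous fun t => ℓ (X t + lam t, W t + mu t) :=
    hl.sm.continuous.comp ((hXc.add hlc).prodMk (hWc.add hmu))
  have c2 : Continuous fun t => ℓ (X t, W t) := hl.sm.continuous.comp (hXc.prodMk hWc)
  unfold act
  have c3 : Continuous fun t => ℓ (X t + lam t, W t + mu t) - ℓ (X t, W t) := c1.sub c2
  rw [← hG, ← intervalIntegral.integral_sub (c1.intervalIntegrable a b)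
    (c2.intervalIntegrable a b), ← intervalIntegral.integral_sub
    (c3.intervalIntegrable a b) (hGc.intervalIntegrable a b), ← Real.norm_eq_abs]
  refine (intervalIntegral.norm_integral_le_of_norm_le_const (C := C * δ ^ 2) ?_).trans ?_
  · intro t ht
    rw [uIoc_of_le hab] at ht
    have ht' : t ∈ Icc a b := ⟨ht.1.le, ht.2⟩
    obtain ⟨h1, h2⟩ := hb t ht'
    have h3 := hT (X t, W t) (X t + lam t, W t + mu t) ((hW t ht').trans (by linarith))
      ((norm_add_le _ _).trans (by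
        have := hW t ht'
        change ‖W t‖ + ‖mu t‖ ≤ M + 1
        linarith))
    have e1 : ((X t + lam t, W t + mu t) : Vec n × Vec n) - (X t, W t) = (lam t, mu t) := by
      ext <;> simp
    rw [e1, der_eq hl] at h3
    have h4 : ‖((lam t, mu t) : Vec n × Vec n)‖ ≤ δ := max_le h1 h2
    exact h3.trans (mul_le_mul_of_nonneg_left (pow_le_pow_left₀ (norm_nonneg _) h4 2) hC)
  · rw [abs_of_nonneg (sub_nonneg.2 hab)]

/-- the perturbed curve is a curve -/
theorem var_vcv (hl : Lag ℓ) (hS : Sol ℓ X W) {lam mu : ℝ → Vec n} (hmu : Continuous mu)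
    (hlam : ∀ t, HasDerivAt lam (mu t) t) (hab : a ≤ b) :
    VCv (fun t => X t + lam t) (fun t => W t + mu t) a b := by
  have hlc : Continuous lam := continuous_iff_continuousAt.2 fun t => (hlam t).continuousAt
  have h1 : Continuous fun t => W t + mu t := (hS.cw hl).add hmu
  obtain ⟨M, hM⟩ := (isCompact_Icc (a := a) (b := b)).exists_bound_of_continuousOn h1.continuousOn
  exact ⟨hab, (hS.cx.add hlc).continuousOn, ⟨∅, countable_empty, fun t _ _ =>
    (hS.dx t).add (hlam t)⟩, h1.measurable, ⟨M, hM⟩⟩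

end Pool.Agent.DV
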